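import Pool.Agent.H687.TC.Defs
import Pool.Agent.H687.K4.Win

/-! TC-ARM: zeros of a curve in cones, near its straight initial part. -/

set_option autoImplicit false
open Complex Set Topology Metric

namespace Pool.Agent.H687.TC

open Pool.Agent.H763R2 Pool.Agent.H763R2.An Pool.Agent.Y535.PEG Pool.Agent.H687.K4

theorem ZW_mono_arm {P : ℝ → ℂ} {W W' : Set ℝ} (h : W ⊆ W') : ZW P W ⊆ ZW P W' := by
  rintro z ⟨h1, h2, h3, h4, h5⟩
  exact ⟨h h1, h h2, h3, Set.image_mono h h4, Set.image_mono h h5⟩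

/-- the parameters of a zero -/
theorem par_arm {P : ℝ → ℂ} {W : Set ℝ} {z : ℝ × ℝ} (V : ℂ) (h : z ∈ ZW P W) :
    ∃ s : Fin 4 → ℝ, s 0 = z.1 ∧ s 1 = z.2 ∧ (∀ k, s k ∈ W) ∧
      ∀ k, sq4 (P z.1 - V) (P z.2 - P z.1) k = P (s k) - V := by
  obtain ⟨h1, h2, h3, ⟨s2, hs2, e2⟩, ⟨s3, hs3, e3⟩⟩ := h
  refine ⟨![z.1, z.2, s2, s3], rfl, rfl, ?_, ?_⟩
  · intro k
    fin_cases k
    · exact h1
    · exact h2
    · exact hs2
    · exact hs3
  · intro k
    unfold CC Sq.Cv at e2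
    unfold DD Sq.Dv at e3
    fin_cases k
    · rfl
    · show P z.1 - V + (P z.2 - P z.1) = P z.2 - V
      ring
    · show P z.1 - V + (P z.2 - P z.1) + I * (P z.2 - P z.1) = P s2 - V
      rw [e2]; ring
    · show P z.1 - V + I * (P z.2 - P z.1) = P s3 - V
      rw [e3]; ring

theorem dist_arm (z w : ℂ) (j k : Fin 4) : ‖sq4 z w j‖ ≤ ‖sq4 z w k‖ + 2 * ‖w‖ := by
  have hI : ‖I * w‖ = ‖w‖ := by rw [norm_mul, norm_I, one_mul]
  have hw := norm_nonneg w
  have key : ‖sq4 z w j - sq4 z w k‖ ≤ 2 * ‖w‖ := by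
    have a1 : ‖w + I * w‖ ≤ 2 * ‖w‖ := (norm_add_le _ _).trans (by rw [hI]; linarith)
    have a2 : ‖w - I * w‖ ≤ 2 * ‖w‖ := (norm_sub_le _ _).trans (by rw [hI]; linarith)
    fin_cases j <;> fin_cases k
    · show ‖z - z‖ ≤ _
      rw [sub_self, norm_zero]; linarith
    · show ‖z - (z + w)‖ ≤ _
      rw [show z - (z + w) = -w by ring, norm_neg]; linarith
    · show ‖z - (z + w + I * w)‖ ≤ _
      rw [show z - (z + w + I * w) = -(w + I * w) by ring, norm_neg]; exact a1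
    · show ‖z - (z + I * w)‖ ≤ _
      rw [show z - (z + I * w) = -(I * w) by ring, norm_neg, hI]; linarith
    · show ‖z + w - z‖ ≤ _
      rw [show z + w - z = w by ring]; linarith
    · show ‖z + w - (z + w)‖ ≤ _
      rw [sub_self, norm_zero]; linarith
    · show ‖z + w - (z + w + I * w)‖ ≤ _
      rw [show z + w - (z + w + I * w) = -(I * w) by ring, norm_neg, hI]; linarith
    · show ‖z + w - (z + I * w)‖ ≤ _
      rw [show z + w - (z + I * w) = w - I * w by ring]; exact a2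
    · show ‖z + w + I * w - z‖ ≤ _
      rw [show z + w + I * w - z = w + I * w by ring]; exact a1
    · show ‖z + w + I * w - (z + w)‖ ≤ _
      rw [show z + w + I * w - (z + w) = I * w by ring, hI]; linarith
    · show ‖z + w + I * w - (z + w + I * w)‖ ≤ _
      rw [sub_self, norm_zero]; linarith
    · show ‖z + w + I * w - (z + I * w)‖ ≤ _
      rw [show z + w + I * w - (z + I * w) = w by ring]; linarith
    · show ‖z + I * w - z‖ ≤ _
      rw [show z + I * w - z = I * w by ring, hI]; linarith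
    · show ‖z + I * w - (z + w)‖ ≤ _
      rw [show z + I * w - (z + w) = -(w - I * w) by ring, norm_neg]; exact a2
    · show ‖z + I * w - (z + w + I * w)‖ ≤ _
      rw [show z + I * w - (z + w + I * w) = -w by ring, norm_neg]; linarith
    · show ‖z + I * w - (z + I * w)‖ ≤ _
      rw [sub_self, norm_zero]; linarith
  calc ‖sq4 z w j‖ = ‖sq4 z w k + (sq4 z w j - sq4 z w k)‖ := by congr 1; ring
    _ ≤ ‖sq4 z w k‖ + ‖sq4 z w j - sq4 z w k‖ := norm_add_le _ _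
    _ ≤ _ := by linarith

/-- zeros avoid most of the straight initial part -/
theorem arm (single : ∀ {u : ℂ} {θ : ℝ} {z w : ℂ}, ‖u‖ = 1 → θ ≤ 1 / 100 →
      (∀ k, sq4 z w k ∈ Cone u θ) → ∀ k, ‖w‖ ≤ 1 / 15 * ‖sq4 z w k‖)
    {P : ℝ → ℂ} {S θ : ℝ} {V D u : ℂ} (hD : D ≠ 0)
    (hP0 : ∀ s ∈ Icc (0:ℝ) 1, P s = V + s * D)
    (hfar : ∀ s ∈ Icc 1 S, 9 / 10 * ‖D‖ ≤ ‖P s - V‖) (hu : ‖u‖ = 1) (hθ : θ ≤ 1 / 100)
    (hc : ∀ s ∈ Icc 0 S, P s - V ∈ Cone u θ) : ZW P (Icc 0 S) ⊆ ZW P (Icc (3 / 4) S) := by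
  intro zz hz
  obtain ⟨s, e0, e1, hs, hsq⟩ := par_arm V hz
  have hDp : 0 < ‖D‖ := norm_pos_iff.2 hD
  have hall : ∀ k, 3 / 4 ≤ s k := by
    by_contra hcon
    push Not at hcon
    obtain ⟨k, hk⟩ := hcon
    have hw := single hu hθ (fun j => by rw [hsq j]; exact hc _ (hs j)) k
    have hPk : P (s k) - V = s k * D := by
      rw [hP0 (s k) ⟨(hs k).1, by linarith⟩]; ring
    have hnk : ‖sq4 (P zz.1 - V) (P zz.2 - P zz.1) k‖ ≤ 3 / 4 * ‖D‖ := by
      rw [hsq k, hPk, norm_mul, Complex.norm_real, Real.norm_of_nonneg (hs k).1]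
      exact mul_le_mul_of_nonneg_right hk.le hDp.le
    have hlt : ∀ j, s j < 1 := by
      intro j
      by_contra hj
      push Not at hj
      have h1 := hfar (s j) ⟨hj, (hs j).2⟩
      rw [← hsq j] at h1
      have h2 := dist_arm (P zz.1 - V) (P zz.2 - P zz.1) j k
      nlinarith
    have hlin : ∀ j, sq4 (P zz.1 - V) (P zz.2 - P zz.1) j = s j * D := by
      intro j
      rw [hsq j, hP0 (s j) ⟨(hs j).1, (hlt j).le⟩]; ring
    have l0 := hlin 0
    have l1 := hlin 1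
    have l3 := hlin 3
    have m0 : P zz.1 - V = s 0 * D := l0
    have m1 : P zz.1 - V + (P zz.2 - P zz.1) = s 1 * D := l1
    have m3 : P zz.1 - V + I * (P zz.2 - P zz.1) = s 3 * D := l3
    have hIw : (I * ((s 1 : ℂ) - s 0) - ((s 3 : ℂ) - s 0)) * D = 0 := by
      linear_combination (-I - 1 + 1) * m1 + (I + 0) * m0 - (m0 - m3)
    have h0 := (mul_eq_zero.1 hIw).resolve_right hD
    have him := congrArg Complex.im h0
    simp at him
    have : s 1 = s 0 := by linarith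
    rw [e0, e1] at this
    exact hz.2.2.1 this.symm
  obtain ⟨h1, h2, h3, h4, h5⟩ := hz
  have k0 := hall 0
  have k1 := hall 1
  rw [e0] at k0
  rw [e1] at k1
  refine ⟨⟨k0, h1.2⟩, ⟨k1, h2.2⟩, h3, ⟨s 2, ⟨hall 2, (hs 2).2⟩, ?_⟩, ⟨s 3, ⟨hall 3, (hs 3).2⟩, ?_⟩⟩
  · have : P zz.1 - V + (P zz.2 - P zz.1) + I * (P zz.2 - P zz.1) = P (s 2) - V := hsq 2
    unfold CC Sq.Cv
    linear_combination -this
  · have : P zz.1 - V + I * (P zz.2 - P zz.1) = P (s 3) - V := hsq 3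
    unfold DD Sq.Dv
    linear_combination -this

/-- comparison of two curves that differ on the straight initial part only -/
theorem rep {P P' : ℝ → ℂ} {S c : ℝ} {V V' Z : ℂ} (hS : 1 ≤ S)
    (hP : ∀ s ∈ Icc (0:ℝ) 1, P s = V + s * (Z - V))
    (hP' : ∀ s ∈ Icc (0:ℝ) 1, P' s = V' + s * (Z - V')) (heq : ∀ s ∈ Icc 1 S, P s = P' s)
    (hc1 : 9 / 10 ≤ c) (hc2 : c ≤ 10 / 9) (hcol : Z - V = c * (Z - V'))
    (h : ZW P (Icc 0 S) ⊆ ZW P (Icc (3 / 4) S)) (h' : ZW P' (Icc 0 S) ⊆ ZW P' (Icc (3 / 4) S)) :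
    Nw P (Icc 0 S) = Nw P' (Icc 0 S) := by
  have hc0 : 0 < c := by linarith
  set f : ℝ → ℝ := fun s => if s ≤ 1 then 1 - c * (1 - s) else s with hf
  have fl : ∀ s, s ≤ 1 → f s = 1 - c * (1 - s) := fun s hs => if_pos hs
  have fg : ∀ s, 1 < s → f s = s := fun s hs => if_neg (not_le.2 hs)
  have hmono : StrictMono f := by
    intro a b hab
    rcases le_or_gt b 1 with hb | hb
    · rw [fl a (by linarith), fl b hb]
      nlinarith
    · rcases le_or_gt a 1 with ha | ha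
      · rw [fl a ha, fg b hb]
        nlinarith [mul_nonneg hc0.le (sub_nonneg.2 ha)]
      · rw [fg a ha, fg b hb]; exact hab
  have hval : ∀ t ∈ Icc (1 / 2) S, P' (f t) = P t := by
    intro t ht
    rcases le_or_gt t 1 with h1 | h1
    · rw [fl t h1]
      have hm : 1 - c * (1 - t) ∈ Icc (0:ℝ) 1 := by
        constructor
        · nlinarith [ht.1]
        · nlinarith [mul_nonneg hc0.le (sub_nonneg.2 h1)]
      rw [hP' _ hm, hP t ⟨by linarith [ht.1], h1⟩]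
      push_cast
      linear_combination -(1 - (t : ℂ)) * (-1) * hcol
    · rw [fg t h1]; exact (heq t ⟨h1.le, ht.2⟩).symm
  have himg : f '' Icc (1 / 2) S = Icc (1 - c / 2) S := by
    ext y
    constructor
    · rintro ⟨t, ht, rfl⟩
      rcases le_or_gt t 1 with h1 | h1
      · rw [fl t h1]
        constructor
        · nlinarith [ht.1]
        · nlinarith [mul_nonneg hc0.le (sub_nonneg.2 h1)]
      · rw [fg t h1]
        exact ⟨by linarith, ht.2⟩
    · rintro ⟨hy1, hy2⟩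
      rcases le_or_gt y 1 with h1 | h1
      · have e1 : c * ((1 - y) / c) = 1 - y := by field_simp
        have hp : 0 ≤ (1 - y) / c := div_nonneg (by linarith) hc0.le
        have hq : (1 - y) / c ≤ 1 / 2 := by
          rw [div_le_iff₀ hc0]; linarith
        refine ⟨1 - (1 - y) / c, ⟨by linarith, by linarith⟩, ?_⟩
        rw [fl _ (by linarith)]
        linarith
      · exact ⟨y, ⟨by linarith, hy2⟩, fg y h1⟩
  have e1 : ZW P (Icc 0 S) = ZW P (Icc (1 / 2) S) :=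
    Set.Subset.antisymm (h.trans (ZW_mono_arm (Icc_subset_Icc_left (by norm_num))))
      (ZW_mono_arm (Icc_subset_Icc_left (by norm_num)))
  have e2 : ZW P' (Icc 0 S) = ZW P' (Icc (1 - c / 2) S) :=
    Set.Subset.antisymm (h'.trans (ZW_mono_arm (Icc_subset_Icc_left (by linarith))))
      (ZW_mono_arm (Icc_subset_Icc_left (by linarith)))
  have e3 := Nw_mono (Q := P) (Q' := P') hmono hval
  rw [himg] at e3
  unfold Nw at e3 ⊢
  rw [e1, e2, e3]

/-- zeros of a curve with its two arms in a pair of cones -/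
theorem pair {P : ℝ → ℂ} {S θ : ℝ} {u v : ℂ} (hN : NoPair u v θ)
    (hpos : ∀ s ∈ Ioc 0 S, P s - P 0 ∈ Cone u θ ∧ P s ≠ P 0)
    (hneg : ∀ s ∈ Ico (-S) 0, P s - P 0 ∈ Cone v θ ∧ P s ≠ P 0)
    (hfin : (ZW P (Icc (-S) S)).Finite) (hS : 0 ≤ S) :
    Nw P (Icc (-S) S) = Nw P (Icc (-S) 0) + Nw P (Icc 0 S) := by
  have s1 : ZW P (Icc (-S) 0) ⊆ ZW P (Icc (-S) S) := ZW_mono_arm (Icc_subset_Icc_right hS)
  have s2 : ZW P (Icc 0 S) ⊆ ZW P (Icc (-S) S) := ZW_mono_arm (Icc_subset_Icc_left (by linarith))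
  have hun : ZW P (Icc (-S) S) = ZW P (Icc (-S) 0) ∪ ZW P (Icc 0 S) := by
    refine Set.Subset.antisymm ?_ (Set.union_subset s1 s2)
    intro zz hz
    obtain ⟨s, e0, e1, hs, hsq⟩ := par_arm (P 0) hz
    have hdich : (∀ k, 0 ≤ s k) ∨ (∀ k, s k < 0) := by
      by_contra hcon
      push Not at hcon
      obtain ⟨⟨k, hk⟩, ⟨j, hj⟩⟩ := hcon
      have hz0 := hN (P zz.1 - P 0) (P zz.2 - P zz.1) (fun i => decide (0 ≤ s i))
        (by
          intro i
          rw [hsq i]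
          by_cases hi : 0 ≤ s i
          · rw [if_pos (by simpa using hi)]
            rcases hi.eq_or_lt with h0 | h0
            · rw [← h0, sub_self]
              show ‖(0:ℂ) - (‖(0:ℂ)‖ : ℂ) * u‖ ≤ θ * ‖(0:ℂ)‖
              simp
            · exact (hpos _ ⟨h0, (hs i).2⟩).1
          · rw [if_neg (by simpa using hi)]
            exact (hneg _ ⟨(hs i).1, not_le.1 hi⟩).1)
        ⟨j, k, by simpa using hj, by simpa using hk⟩ k
      rw [hsq k] at hz0
      exact (hneg _ ⟨(hs k).1, hk⟩).2 (sub_eq_zero.1 hz0)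
    obtain ⟨h1, h2, h3, h4, h5⟩ := hz
    have t2 : P (s 2) = CC P zz.1 zz.2 := by
      have : P zz.1 - P 0 + (P zz.2 - P zz.1) + I * (P zz.2 - P zz.1) = P (s 2) - P 0 := hsq 2
      unfold CC Sq.Cv
      linear_combination -this
    have t3 : P (s 3) = DD P zz.1 zz.2 := by
      have : P zz.1 - P 0 + I * (P zz.2 - P zz.1) = P (s 3) - P 0 := hsq 3
      unfold DD Sq.Dv
      linear_combination -this
    rcases hdich with hd | hd
    · right
      have k0 := hd 0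
      have k1 := hd 1
      rw [e0] at k0
      rw [e1] at k1
      exact ⟨⟨k0, h1.2⟩, ⟨k1, h2.2⟩, h3, ⟨s 2, ⟨hd 2, (hs 2).2⟩, t2⟩, ⟨s 3, ⟨hd 3, (hs 3).2⟩, t3⟩⟩
    · left
      have k0 := hd 0
      have k1 := hd 1
      rw [e0] at k0
      rw [e1] at k1
      exact ⟨⟨h1.1, k0.le⟩, ⟨h2.1, k1.le⟩, h3, ⟨s 2, ⟨(hs 2).1, (hd 2).le⟩, t2⟩,
        ⟨s 3, ⟨(hs 3).1, (hd 3).le⟩, t3⟩⟩
  have hdisj : Disjoint (ZW P (Icc (-S) 0) ∩ {z | z.1 < z.2}) (ZW P (Icc 0 S) ∩ {z | z.1 < z.2}) := by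
    rw [Set.disjoint_left]
    rintro z ⟨ha, _⟩ ⟨hb, _⟩
    have h1 : z.1 = 0 := le_antisymm ha.1.2 hb.1.1
    have h2 : z.2 = 0 := le_antisymm ha.2.1.2 hb.2.1.1
    exact ha.2.2.1 (h1.trans h2.symm)
  unfold Nw
  rw [hun, Set.union_inter_distrib_right]
  exact Set.ncard_union_eq hdisj ((hfin.subset s1).subset Set.inter_subset_left)
    ((hfin.subset s2).subset Set.inter_subset_left)

end Pool.Agent.H687.TC
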