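import Pool.Agent.H687.TC.Defs
import Pool.Agent.H687.KC.Loc

/-! The graph consisting of `m` arcs with common ends; each arc is divided in three edges. -/

set_option autoImplicit false
open Complex Set Topology Metric

namespace Pool.Agent.H687.TC

open Pool.Agent.H687.K4 Pool.Agent.H687.KC

variable {m : ℕ}

/-- the common initial point of the arcs -/
def vA (m : ℕ) : Fin (2 * m + 2) := ⟨0, by omega⟩

/-- the common end point of the arcs -/
def vB (m : ℕ) : Fin (2 * m + 2) := ⟨1, by omega⟩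

/-- first inner vertex of an arc -/
def vh (i : Fin m) : Fin (2 * m + 2) := ⟨2 + i.val, by omega⟩

/-- second inner vertex of an arc -/
def vg (i : Fin m) : Fin (2 * m + 2) := ⟨2 + m + i.val, by omega⟩

/-- the cycle that consists of the arcs `i` and `j` -/
def cyc (i j : Fin m) : ZMod 6 → Fin (2 * m + 2) := ![vA m, vh i, vg i, vB m, vg j, vh j]

/-- a map of the graph given by arcs -/
structure Arcs (ψ : (Fin (2 * m + 2) → ℝ) → ℂ) (α : Fin m → ℝ → ℂ) : Prop where
  eh : ∀ i, ∀ t ∈ Icc (0:ℝ) 1, ψ (ep (vA m) (vh i) t) = α i (t / 3)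
  em : ∀ i, ∀ t ∈ Icc (0:ℝ) 1, ψ (ep (vh i) (vg i) t) = α i ((1 + t) / 3)
  eg : ∀ i, ∀ t ∈ Icc (0:ℝ) 1, ψ (ep (vB m) (vg i) t) = α i (1 - t / 3)

end Pool.Agent.H687.TC
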