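import Mathlib

/-! TC-COL: two-colourings by compactness. -/

set_option autoImplicit false

namespace Pool.Agent.H687.TC

theorem colour {X : Type*} (R : X → X → Prop)
    (h : ∀ (m : ℕ) (x : Fin m → X), Function.Injective x →
      ∃ u : Fin m → ZMod 2, ∀ i j, R (x i) (x j) → u i + u j = 1) :
    ∃ u : X → ZMod 2, ∀ x y, R x y → u x + u y = 1 := by
  classical
  letI : TopologicalSpace (ZMod 2) := ⊥
  haveI : DiscreteTopology (ZMod 2) := ⟨rfl⟩
  have key := (isCompact_univ (X := X → ZMod 2)).inter_iInter_nonempty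
    (fun p : {p : X × X // R p.1 p.2} => {u : X → ZMod 2 | u p.1.1 + u p.1.2 = 1})
    (fun p => by
      have h1 : Continuous (fun u : X → ZMod 2 => (u p.1.1, u p.1.2)) :=
        (continuous_apply _).prodMk (continuous_apply _)
      have h2 : Continuous (fun q : ZMod 2 × ZMod 2 => q.1 + q.2) :=
        continuous_of_discreteTopology
      exact isClosed_singleton.preimage (h2.comp h1))
    (fun s => by
      obtain ⟨Y, hY⟩ : ∃ Y : Finset X, Y = s.image (fun p => p.1.1) ∪ s.image (fun p => p.1.2) :=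
        ⟨_, rfl⟩
      obtain ⟨u, hu⟩ := h Y.card (fun i => (Y.equivFin.symm i : X))
        (fun i j hij => Y.equivFin.symm.injective (Subtype.ext hij))
      refine ⟨fun x => if hx : x ∈ Y then u (Y.equivFin ⟨x, hx⟩) else 0, trivial, ?_⟩
      rw [Set.mem_iInter]
      intro p
      rw [Set.mem_iInter]
      intro hp
      have h1 : p.1.1 ∈ Y := by
        rw [hY]
        exact Finset.mem_union_left _ (Finset.mem_image_of_mem (fun p : {p : X × X // R p.1 p.2} =>
          p.1.1) hp)
      have h2 : p.1.2 ∈ Y := by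
        rw [hY]
        exact Finset.mem_union_right _ (Finset.mem_image_of_mem (fun p : {p : X × X // R p.1 p.2} =>
          p.1.2) hp)
      show (if hx : p.1.1 ∈ Y then u (Y.equivFin ⟨p.1.1, hx⟩) else 0) +
        (if hx : p.1.2 ∈ Y then u (Y.equivFin ⟨p.1.2, hx⟩) else 0) = 1
      rw [dif_pos h1, dif_pos h2]
      apply hu
      rw [Equiv.symm_apply_apply, Equiv.symm_apply_apply]
      exact p.2)
  obtain ⟨u, -, hu⟩ := key
  rw [Set.mem_iInter] at hu
  exact ⟨u, fun x y hxy => hu ⟨(x, y), hxy⟩⟩

end Pool.Agent.H687.TC
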