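import Pool.Agent.H687.TC.Defs

/-! TC-CONE: squares with vertices in thin cones. -/

set_option autoImplicit false
open Complex Set Topology Metric

namespace Pool.Agent.H687.TC

/-- `w` and `i w` are not both real multiples of `u`, unless `w = 0` -/
theorem lin0_cn {u w : ℂ} (hu : u ≠ 0) {α β : ℝ} (h1 : w = α * u) (h2 : I * w = β * u) :
    w = 0 := by
  rw [h1] at h2
  have h3 : (I * (α : ℂ) - β) * u = 0 := by linear_combination h2
  rcases mul_eq_zero.mp h3 with h4 | h4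
  · have h5 := congrArg Complex.im h4
    simp at h5
    rw [h1, h5]
    simp
  · exact absurd h4 hu

theorem adj_cn {u v x : ℂ} (hu : u ≠ 0) {α β γ δ : ℝ} (h1 : x = α * u) (h2 : x = β * v)
    (h3 : I * x = γ * v + δ * u) : x = 0 := by
  by_cases hβ : β = 0
  · rw [h2, hβ]
    simp
  · have hβ' : (β : ℂ) ≠ 0 := by exact_mod_cast hβ
    have h4 : v = ((α / β : ℝ) : ℂ) * u := by
      push_cast
      field_simp
      rw [← h1, h2]
      ring
    refine lin0_cn hu h1 (β := γ * (α / β) + δ) ?_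
    rw [h3, h4]
    push_cast
    ring

/-- the common point of two rays -/
theorem ray_cn {u v : ℂ} (hu : ‖u‖ = 1) (hv : ‖v‖ = 1) (huv : u ≠ v) {a b : ℝ} (ha : 0 ≤ a)
    (hb : 0 ≤ b) (h : (a : ℂ) * u = b * v) : a = 0 ∧ b = 0 := by
  have h1 : a = b := by
    have h2 := congrArg (fun t : ℂ => ‖t‖) h
    simp only [norm_mul, hu, hv, Complex.norm_real, Real.norm_eq_abs, abs_of_nonneg ha,
      abs_of_nonneg hb, mul_one] at h2
    exact h2
  subst h1
  have h3 : (a : ℂ) * (u - v) = 0 := by linear_combination h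
  rcases mul_eq_zero.mp h3 with h4 | h4
  · have h5 : a = 0 := by exact_mod_cast h4
    exact ⟨h5, h5⟩
  · exact absurd (sub_eq_zero.mp h4) huv

theorem exact_cn {u v : ℂ} (hu : ‖u‖ = 1) (hv : ‖v‖ = 1) (huv : u ≠ v) (z w : ℂ)
    (τ : Fin 4 → Bool)
    (h : ∀ k, sq4 z w k = (‖sq4 z w k‖ : ℂ) * (if τ k then u else v))
    (hne : ∃ j k, τ j = true ∧ τ k = false) : z = 0 ∧ w = 0 := by
  have hu0 : u ≠ 0 := by
    intro h0
    rw [h0, norm_zero] at hu
    exact zero_ne_one hu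
  have hv0 : v ≠ 0 := by
    intro h0
    rw [h0, norm_zero] at hv
    exact zero_ne_one hv
  -- the case `w = 0`
  have key : w = 0 → z = 0 ∧ w = 0 := by
    intro hw
    refine ⟨?_, hw⟩
    obtain ⟨j, k, hj, hk⟩ := hne
    have hz : ∀ i, sq4 z w i = z := by
      intro i
      rw [hw]
      fin_cases i <;> simp [sq4]
    have h1 := h j
    have h2 := h k
    rw [hz, hj] at h1
    rw [hz, hk] at h2
    simp only [if_true] at h1
    simp only [Bool.false_eq_true, if_false] at h2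
    have h3 : (‖z‖ : ℂ) * u = ‖z‖ * v := by rw [← h1, ← h2]
    have h4 := (ray_cn hu hv huv (norm_nonneg z) (norm_nonneg z) h3).1
    exact norm_eq_zero.mp h4
  have e0 : sq4 z w 0 = z := rfl
  have e1 : sq4 z w 1 = z + w := rfl
  have e2 : sq4 z w 2 = z + w + I * w := rfl
  have e3 : sq4 z w 3 = z + I * w := rfl
  have h0 := h 0
  have h1 := h 1
  have h2 := h 2
  have h3 := h 3
  rw [e0] at h0
  rw [e1] at h1
  rw [e2] at h2
  rw [e3] at h3
  have II : I * (I * w) = -w := by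
    rw [← mul_assoc, I_mul_I, neg_one_mul]
  obtain ⟨a0, ha0⟩ : ∃ a : ℝ, a = ‖z‖ := ⟨_, rfl⟩
  obtain ⟨a1, ha1⟩ : ∃ a : ℝ, a = ‖z + w‖ := ⟨_, rfl⟩
  obtain ⟨a2, ha2⟩ : ∃ a : ℝ, a = ‖z + w + I * w‖ := ⟨_, rfl⟩
  obtain ⟨a3, ha3⟩ : ∃ a : ℝ, a = ‖z + I * w‖ := ⟨_, rfl⟩
  have p0 : 0 ≤ a0 := by rw [ha0]; exact norm_nonneg _
  have p1 : 0 ≤ a1 := by rw [ha1]; exact norm_nonneg _
  have p2 : 0 ≤ a2 := by rw [ha2]; exact norm_nonneg _
  have p3 : 0 ≤ a3 := by rw [ha3]; exact norm_nonneg _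
  rw [← ha0] at h0
  rw [← ha1] at h1
  rw [← ha2] at h2
  rw [← ha3] at h3
  -- three vertices on a line
  have t012 : ∀ c : ℂ, c ≠ 0 → z = a0 * c → z + w = a1 * c → z + w + I * w = a2 * c → w = 0 := by
    intro c hc g0 g1 g2
    refine lin0_cn hc (α := a1 - a0) (β := a2 - a1) ?_ ?_
    · push_cast; linear_combination g1 - g0
    · push_cast; linear_combination g2 - g1
  have t013 : ∀ c : ℂ, c ≠ 0 → z = a0 * c → z + w = a1 * c → z + I * w = a3 * c → w = 0 := by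
    intro c hc g0 g1 g3
    refine lin0_cn hc (α := a1 - a0) (β := a3 - a0) ?_ ?_
    · push_cast; linear_combination g1 - g0
    · push_cast; linear_combination g3 - g0
  have t023 : ∀ c : ℂ, c ≠ 0 → z = a0 * c → z + w + I * w = a2 * c → z + I * w = a3 * c →
      w = 0 := by
    intro c hc g0 g2 g3
    refine lin0_cn hc (α := a2 - a3) (β := a3 - a0) ?_ ?_
    · push_cast; linear_combination g2 - g3
    · push_cast; linear_combination g3 - g0
  have t123 : ∀ c : ℂ, c ≠ 0 → z + w = a1 * c → z + w + I * w = a2 * c → z + I * w = a3 * c →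
      w = 0 := by
    intro c hc g1 g2 g3
    refine lin0_cn hc (α := a2 - a3) (β := a2 - a1) ?_ ?_
    · push_cast; linear_combination g2 - g3
    · push_cast; linear_combination g2 - g1
  -- adjacent pairs
  have ad1 : ∀ c c' : ℂ, c ≠ 0 → z = a0 * c → z + w = a1 * c → z + w + I * w = a2 * c' →
      z + I * w = a3 * c' → w = 0 := by
    intro c c' hc g0 g1 g2 g3
    refine adj_cn hc (v := c') (α := a1 - a0) (β := a2 - a3) (γ := a3) (δ := -a0) ?_ ?_ ?_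
    · push_cast; linear_combination g1 - g0
    · push_cast; linear_combination g2 - g3
    · push_cast; linear_combination g3 - g0
  have ad2 : ∀ c c' : ℂ, c ≠ 0 → z + w = a1 * c → z + w + I * w = a2 * c → z = a0 * c' →
      z + I * w = a3 * c' → w = 0 := by
    intro c c' hc g1 g2 g0 g3
    have g : I * w = 0 := by
      refine adj_cn hc (v := c') (α := a2 - a1) (β := a3 - a0) (γ := a0) (δ := -a1) ?_ ?_ ?_
      · push_cast; linear_combination g2 - g1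
      · push_cast; linear_combination g3 - g0
      · rw [II]
        push_cast
        linear_combination g0 - g1
    rcases mul_eq_zero.mp g with g4 | g4
    · exact absurd g4 I_ne_zero
    · exact g4
  -- opposite pairs
  have op : ∀ c c' : ℂ, ‖c‖ = 1 → ‖c'‖ = 1 → c ≠ c' → z = a0 * c → z + w + I * w = a2 * c →
      z + w = a1 * c' → z + I * w = a3 * c' → w = 0 := by
    intro c c' hc hc' hcc g0 g2 g1 g3
    have g : ((a0 + a2 : ℝ) : ℂ) * c = ((a1 + a3 : ℝ) : ℂ) * c' := by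
      push_cast
      linear_combination g1 + g3 - g0 - g2
    obtain ⟨q1, q2⟩ := ray_cn hc hc' hcc (add_nonneg p0 p2) (add_nonneg p1 p3) g
    have r0 : a0 = 0 := by linarith
    have r1 : a1 = 0 := by linarith
    rw [r0] at g0
    rw [r1] at g1
    have g5 : z = 0 := by rw [g0]; simp
    have g6 : z + w = 0 := by rw [g1]; simp
    rw [g5, zero_add] at g6
    exact g6
  apply key
  cases hτ0 : τ 0 <;> cases hτ1 : τ 1 <;> cases hτ2 : τ 2 <;> cases hτ3 : τ 3 <;>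
    rw [hτ0] at h0 <;> rw [hτ1] at h1 <;> rw [hτ2] at h2 <;> rw [hτ3] at h3 <;>
    simp only [if_true, Bool.false_eq_true, if_false] at h0 h1 h2 h3
  · exact t012 v hv0 h0 h1 h2
  · exact t012 v hv0 h0 h1 h2
  · exact t013 v hv0 h0 h1 h3
  · exact ad1 v u hv0 h0 h1 h2 h3
  · exact t023 v hv0 h0 h2 h3
  · exact op v u hv hu huv.symm h0 h2 h1 h3
  · exact ad2 u v hu0 h1 h2 h0 h3
  · exact t123 u hu0 h1 h2 h3
  · exact t123 v hv0 h1 h2 h3
  · exact ad2 v u hv0 h1 h2 h0 h3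
  · exact op u v hu hv huv h0 h2 h1 h3
  · exact t023 u hu0 h0 h2 h3
  · exact ad1 u v hu0 h0 h1 h2 h3
  · exact t013 u hu0 h0 h1 h3
  · exact t012 u hu0 h0 h1 h2
  · exact t012 u hu0 h0 h1 h2

/-- the defect function -/
noncomputable def df_cn (e : Fin 4 → ℂ) (p : ℂ × ℂ) : ℝ :=
  ∑ k, ‖sq4 p.1 p.2 k - (‖sq4 p.1 p.2 k‖ : ℂ) * e k‖

theorem sq4_cont_cn (k : Fin 4) : Continuous fun p : ℂ × ℂ => sq4 p.1 p.2 k := by
  fin_cases k
  · exact continuous_fst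
  · exact continuous_fst.add continuous_snd
  · exact (continuous_fst.add continuous_snd).add (continuous_const.mul continuous_snd)
  · exact continuous_fst.add (continuous_const.mul continuous_snd)

theorem df_cont_cn (e : Fin 4 → ℂ) : Continuous (df_cn e) := by
  unfold df_cn
  refine continuous_finsetSum _ fun k _ => ?_
  have h1 := sq4_cont_cn k
  exact (h1.sub ((Complex.continuous_ofReal.comp h1.norm).mul continuous_const)).norm

theorem sq4_smul_cn (r : ℝ) (p : ℂ × ℂ) (k : Fin 4) :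
    sq4 (r • p).1 (r • p).2 k = (r : ℂ) * sq4 p.1 p.2 k := by
  fin_cases k
  · show (r • p).1 = r * p.1
    simp
  · show (r • p).1 + (r • p).2 = r * (p.1 + p.2)
    simp
    ring
  · show (r • p).1 + (r • p).2 + I * (r • p).2 = r * (p.1 + p.2 + I * p.2)
    simp
    ring
  · show (r • p).1 + I * (r • p).2 = r * (p.1 + I * p.2)
    simp
    ring

theorem df_smul_cn (e : Fin 4 → ℂ) {r : ℝ} (hr : 0 ≤ r) (p : ℂ × ℂ) :
    df_cn e (r • p) = r * df_cn e p := by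
  unfold df_cn
  rw [Finset.mul_sum]
  refine Finset.sum_congr rfl fun k _ => ?_
  rw [sq4_smul_cn, norm_mul, Complex.norm_real, Real.norm_eq_abs, abs_of_nonneg hr]
  have h1 : (r : ℂ) * sq4 p.1 p.2 k - ((r * ‖sq4 p.1 p.2 k‖ : ℝ) : ℂ) * e k =
      (r : ℂ) * (sq4 p.1 p.2 k - (‖sq4 p.1 p.2 k‖ : ℂ) * e k) := by
    push_cast
    ring
  rw [h1, norm_mul, Complex.norm_real, Real.norm_eq_abs, abs_of_nonneg hr]

theorem sq4_norm_cn (p : ℂ × ℂ) (k : Fin 4) : ‖sq4 p.1 p.2 k‖ ≤ 3 * ‖p‖ := by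
  have h1 : ‖p.1‖ ≤ ‖p‖ := norm_fst_le p
  have h2 : ‖p.2‖ ≤ ‖p‖ := norm_snd_le p
  have h3 : ‖I * p.2‖ = ‖p.2‖ := by rw [norm_mul, Complex.norm_I, one_mul]
  have h0 := norm_nonneg p
  fin_cases k
  · show ‖p.1‖ ≤ 3 * ‖p‖
    linarith
  · show ‖p.1 + p.2‖ ≤ 3 * ‖p‖
    have := norm_add_le p.1 p.2
    linarith
  · show ‖p.1 + p.2 + I * p.2‖ ≤ 3 * ‖p‖
    have := norm_add_le p.1 p.2
    have := norm_add_le (p.1 + p.2) (I * p.2)
    linarith
  · show ‖p.1 + I * p.2‖ ≤ 3 * ‖p‖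
    have := norm_add_le p.1 (I * p.2)
    linarith

/-- one pattern -/
theorem one_cn {u v : ℂ} (hu : ‖u‖ = 1) (hv : ‖v‖ = 1) (huv : u ≠ v) (τ : Fin 4 → Bool) :
    ∃ θ0 > (0 : ℝ), (∃ j k, τ j = true ∧ τ k = false) → ∀ θ ≤ θ0, ∀ z w : ℂ,
      (∀ k, sq4 z w k ∈ Cone (if τ k then u else v) θ) → ∀ k, sq4 z w k = 0 := by
  by_cases hne : ∃ j k, τ j = true ∧ τ k = false
  swap
  · exact ⟨1, one_pos, fun h => absurd h hne⟩
  let e : Fin 4 → ℂ := fun k => if τ k then u else v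
  have hpos : ∀ p : ℂ × ℂ, p ≠ 0 → 0 < df_cn e p := by
    intro p hp
    have h0 : 0 ≤ df_cn e p := Finset.sum_nonneg fun k _ => norm_nonneg _
    refine lt_of_le_of_ne h0 fun h1 => hp ?_
    have h2 := (Finset.sum_eq_zero_iff_of_nonneg (fun k _ => norm_nonneg _)).mp h1.symm
    have h3 := exact_cn hu hv huv p.1 p.2 τ (fun k => by
      have := h2 k (Finset.mem_univ k)
      exact sub_eq_zero.mp (norm_eq_zero.mp this)) hne
    exact Prod.ext h3.1 h3.2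
  have hK : IsCompact (sphere (0 : ℂ × ℂ) 1) := isCompact_sphere _ _
  have hKn : (sphere (0 : ℂ × ℂ) 1).Nonempty := ⟨(1, 0), by simp [Prod.norm_def]⟩
  obtain ⟨p0, hp0, hmin⟩ := hK.exists_isMinOn hKn (df_cont_cn e).continuousOn
  have hc : 0 < df_cn e p0 := hpos p0 (by
    rintro rfl
    simp at hp0)
  obtain ⟨c, hcdef⟩ : ∃ c : ℝ, c = df_cn e p0 := ⟨_, rfl⟩
  rw [← hcdef] at hc
  have hlow : ∀ p : ℂ × ℂ, c * ‖p‖ ≤ df_cn e p := by
    intro p
    by_cases hp : p = 0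
    · rw [hp, norm_zero, mul_zero]
      exact Finset.sum_nonneg fun k _ => norm_nonneg _
    · have hn : 0 < ‖p‖ := norm_pos_iff.mpr hp
      have h1 : ‖p‖⁻¹ • p ∈ sphere (0 : ℂ × ℂ) 1 := by
        rw [mem_sphere_zero_iff_norm, norm_smul, norm_inv, norm_norm, inv_mul_cancel₀ hn.ne']
      have h2 : c ≤ df_cn e (‖p‖⁻¹ • p) := by
        rw [hcdef]
        exact hmin h1
      rw [df_smul_cn e (inv_nonneg.mpr hn.le)] at h2
      rw [← div_eq_inv_mul, le_div_iff₀ hn] at h2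
      exact h2
  refine ⟨c / 24, by positivity, fun _ θ hθ z w hcone => ?_⟩
  have h1 : df_cn e (z, w) ≤ ∑ _k : Fin 4, c / 24 * (3 * ‖((z, w) : ℂ × ℂ)‖) := by
    refine Finset.sum_le_sum fun k _ => ?_
    have h2 : ‖sq4 z w k - (‖sq4 z w k‖ : ℂ) * e k‖ ≤ θ * ‖sq4 z w k‖ := hcone k
    have h3 := sq4_norm_cn (z, w) k
    calc ‖sq4 z w k - (‖sq4 z w k‖ : ℂ) * e k‖ ≤ θ * ‖sq4 z w k‖ := h2
      _ ≤ c / 24 * ‖sq4 z w k‖ := mul_le_mul_of_nonneg_right hθ (norm_nonneg _)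
      _ ≤ c / 24 * (3 * ‖((z, w) : ℂ × ℂ)‖) := mul_le_mul_of_nonneg_left h3 (by positivity)
  have h2 := (hlow (z, w)).trans h1
  rw [Finset.sum_const, Finset.card_univ, Fintype.card_fin, nsmul_eq_mul] at h2
  have h3 : ‖((z, w) : ℂ × ℂ)‖ = 0 := by
    have h4 := norm_nonneg ((z, w) : ℂ × ℂ)
    push_cast at h2
    nlinarith
  intro k
  have h4 := sq4_norm_cn (z, w) k
  rw [h3, mul_zero] at h4
  exact norm_eq_zero.mp (le_antisymm h4 (norm_nonneg _))

theorem cone_pair {u v : ℂ} (hu : ‖u‖ = 1) (hv : ‖v‖ = 1) (huv : u ≠ v) :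
    ∃ θ0 > 0, ∀ θ ≤ θ0, NoPair u v θ := by
  choose θ1 hθ1 hθ2 using fun τ : Fin 4 → Bool => one_cn hu hv huv τ
  obtain ⟨τ0, -, hmin⟩ := Finset.exists_min_image (Finset.univ : Finset (Fin 4 → Bool)) θ1
    ⟨fun _ => true, Finset.mem_univ _⟩
  refine ⟨θ1 τ0, hθ1 τ0, fun θ hθ z w τ hcone hne => ?_⟩
  exact hθ2 τ hne θ (hθ.trans (hmin τ (Finset.mem_univ τ))) z w hcone

theorem im_cn {u s : ℂ} (hu : ‖u‖ = 1) {θ : ℝ} (hθ : θ ≤ 1 / 100) (h : s ∈ Cone u θ) :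
    |(s * (starRingEnd ℂ) u).im| ≤ 1 / 100 * ‖s‖ := by
  have h1 : ‖s - (‖s‖ : ℂ) * u‖ ≤ θ * ‖s‖ := h
  have h2 : (s * (starRingEnd ℂ) u).im =
      ((s - (‖s‖ : ℂ) * u) * (starRingEnd ℂ) u).im := by
    have h3 : ((‖s‖ : ℂ) * u * (starRingEnd ℂ) u).im = 0 := by
      rw [mul_assoc, Complex.mul_conj, ← Complex.ofReal_mul, Complex.ofReal_im]
    rw [sub_mul, Complex.sub_im, h3, sub_zero]
  rw [h2]
  calc |((s - (‖s‖ : ℂ) * u) * (starRingEnd ℂ) u).im|
      ≤ ‖(s - (‖s‖ : ℂ) * u) * (starRingEnd ℂ) u‖ := Complex.abs_im_le_norm _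
    _ = ‖s - (‖s‖ : ℂ) * u‖ := by rw [norm_mul, RCLike.norm_conj, hu, mul_one]
    _ ≤ θ * ‖s‖ := h1
    _ ≤ 1 / 100 * ‖s‖ := mul_le_mul_of_nonneg_right hθ (norm_nonneg _)

theorem cone_single {u : ℂ} (hu : ‖u‖ = 1) {θ : ℝ} (hθ : θ ≤ 1 / 100) {z w : ℂ}
    (h : ∀ k, sq4 z w k ∈ Cone u θ) (k : Fin 4) : ‖w‖ ≤ 1 / 15 * ‖sq4 z w k‖ := by
  have b0 : |(z * (starRingEnd ℂ) u).im| ≤ 1 / 100 * ‖z‖ := im_cn hu hθ (h 0)
  have b1 : |((z + w) * (starRingEnd ℂ) u).im| ≤ 1 / 100 * ‖z + w‖ := im_cn hu hθ (h 1)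
  have b3 : |((z + I * w) * (starRingEnd ℂ) u).im| ≤ 1 / 100 * ‖z + I * w‖ := im_cn hu hθ (h 3)
  have hI : ‖I * w‖ = ‖w‖ := by rw [norm_mul, Complex.norm_I, one_mul]
  have c1 : (w * (starRingEnd ℂ) u).im =
      ((z + w) * (starRingEnd ℂ) u).im - (z * (starRingEnd ℂ) u).im := by
    rw [← Complex.sub_im]
    congr 1
    ring
  have c2 : (w * (starRingEnd ℂ) u).re =
      ((z + I * w) * (starRingEnd ℂ) u).im - (z * (starRingEnd ℂ) u).im := by
    rw [← Complex.sub_im]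
    have : (z + I * w) * (starRingEnd ℂ) u - z * (starRingEnd ℂ) u =
        I * (w * (starRingEnd ℂ) u) := by ring
    rw [this, Complex.I_mul_im]
  have c3 : ‖w‖ ≤ |(w * (starRingEnd ℂ) u).re| + |(w * (starRingEnd ℂ) u).im| := by
    have := Complex.norm_le_abs_re_add_abs_im (w * (starRingEnd ℂ) u)
    rw [norm_mul, RCLike.norm_conj, hu, mul_one] at this
    exact this
  have c4 : |(w * (starRingEnd ℂ) u).im| ≤ 1 / 100 * ‖z + w‖ + 1 / 100 * ‖z‖ := by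
    rw [c1]
    exact (abs_sub _ _).trans (add_le_add b1 b0)
  have c5 : |(w * (starRingEnd ℂ) u).re| ≤ 1 / 100 * ‖z + I * w‖ + 1 / 100 * ‖z‖ := by
    rw [c2]
    exact (abs_sub _ _).trans (add_le_add b3 b0)
  have d1 : ‖z‖ ≤ ‖z + w‖ + ‖w‖ := by
    have := norm_sub_le (z + w) w
    rwa [add_sub_cancel_right] at this
  have d2 : ‖z + w‖ ≤ ‖z‖ + ‖w‖ := norm_add_le _ _
  have d3 : ‖z‖ ≤ ‖z + I * w‖ + ‖w‖ := by
    have := norm_sub_le (z + I * w) (I * w)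
    rwa [add_sub_cancel_right, hI] at this
  have d4 : ‖z + I * w‖ ≤ ‖z‖ + ‖w‖ := by
    have := norm_add_le z (I * w)
    rwa [hI] at this
  have d5 : ‖z + w‖ ≤ ‖z + w + I * w‖ + ‖w‖ := by
    have := norm_sub_le (z + w + I * w) (I * w)
    rwa [add_sub_cancel_right, hI] at this
  have d6 : ‖z + I * w‖ ≤ ‖z + w + I * w‖ + ‖w‖ := by
    have := norm_sub_le (z + w + I * w) w
    have e : z + w + I * w - w = z + I * w := by ring
    rwa [e] at this
  have hw := norm_nonneg w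
  fin_cases k
  · show ‖w‖ ≤ 1 / 15 * ‖z‖
    linarith
  · show ‖w‖ ≤ 1 / 15 * ‖z + w‖
    linarith
  · show ‖w‖ ≤ 1 / 15 * ‖z + w + I * w‖
    linarith
  · show ‖w‖ ≤ 1 / 15 * ‖z + I * w‖
    linarith

end Pool.Agent.H687.TC
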