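import Pool.Agent.H687.TC.CDefs
import Pool.Agent.H687.KC.Glue

/-! TC-CURVE: the closed curves formed by two arcs. -/

set_option autoImplicit false
open Complex Set Topology Metric

namespace Pool.Agent.H687.TC

open Pool.Agent.H763R2 Pool.Agent.H763R2.An Pool.Agent.H687.K4 Pool.Agent.H687.KC

variable {m : ℕ}

/-- the images of the vertices -/
noncomputable def Pt_cu (α : Fin m → ℝ → ℂ) (a b : ℂ) (x : Fin (2 * m + 2)) : ℂ :=
  if h0 : x.val = 0 then a else if h1 : x.val = 1 then b else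
    if h : x.val < 2 + m then α ⟨x.val - 2, by omega⟩ (1 / 3)
    else α ⟨x.val - 2 - m, by have := x.isLt; omega⟩ (2 / 3)

theorem Pt_vA_cu (α : Fin m → ℝ → ℂ) (a b : ℂ) : Pt_cu α a b (vA m) = a := by
  unfold Pt_cu
  rw [dif_pos]
  rfl

theorem Pt_vB_cu (α : Fin m → ℝ → ℂ) (a b : ℂ) : Pt_cu α a b (vB m) = b := by
  unfold Pt_cu
  rw [dif_neg, dif_pos]
  · rfl
  · exact one_ne_zero

theorem Pt_vh_cu (α : Fin m → ℝ → ℂ) (a b : ℂ) (i : Fin m) :
    Pt_cu α a b (vh i) = α i (1 / 3) := by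
  have hv : (vh i).val = 2 + i.val := rfl
  have hi := i.isLt
  unfold Pt_cu
  rw [dif_neg (by omega), dif_neg (by omega), dif_pos (by omega)]
  congr 1
  congr 1
  omega

theorem Pt_vg_cu (α : Fin m → ℝ → ℂ) (a b : ℂ) (i : Fin m) :
    Pt_cu α a b (vg i) = α i (2 / 3) := by
  have hv : (vg i).val = 2 + m + i.val := rfl
  have hi := i.isLt
  unfold Pt_cu
  rw [dif_neg (by omega), dif_neg (by omega), dif_neg (by omega)]
  congr 1
  congr 1
  omega

theorem val_vA_cu : (vA m).val = 0 := rfl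
theorem val_vB_cu : (vB m).val = 1 := rfl
theorem val_vh_cu (i : Fin m) : (vh i).val = 2 + i.val := rfl
theorem val_vg_cu (i : Fin m) : (vg i).val = 2 + m + i.val := rfl

theorem ex_psi (α : Fin m → ℝ → ℂ) (hc : ∀ i, Continuous (α i)) {a b : ℂ} (h0 : ∀ i, α i 0 = a)
    (h1 : ∀ i, α i 1 = b) :
    ∃ ψ : (Fin (2 * m + 2) → ℝ) → ℂ, ContinuousOn ψ (real ⊤) ∧ Arcs ψ α := by
  have hex : ∀ x y : Fin (2 * m + 2), ∃ g : ℝ → ℂ, Continuous g ∧ g 0 = Pt_cu α a b x ∧
      g 1 = Pt_cu α a b y ∧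
      (∀ i, x = vA m → y = vh i → ∀ t, g t = α i (t / 3)) ∧
      (∀ i, x = vh i → y = vg i → ∀ t, g t = α i ((1 + t) / 3)) ∧
      (∀ i, x = vB m → y = vg i → ∀ t, g t = α i (1 - t / 3)) := by
    intro x y
    by_cases c1 : ∃ i, x = vA m ∧ y = vh i
    · obtain ⟨i, rfl, rfl⟩ := c1
      refine ⟨fun t => α i (t / 3), (hc i).comp (by fun_prop), ?_, ?_, ?_, ?_, ?_⟩
      · simp only [zero_div]
        rw [h0, Pt_vA_cu]
      · simp only
        rw [Pt_vh_cu]
      · intro i' _ h t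
        have h2 := congrArg Fin.val h
        rw [val_vh_cu, val_vh_cu] at h2
        have h3 : i = i' := Fin.ext (by omega)
        rw [h3]
      · intro i' h _ t
        have h2 := congrArg Fin.val h
        rw [val_vA_cu, val_vh_cu] at h2
        omega
      · intro i' h _ t
        have h2 := congrArg Fin.val h
        rw [val_vA_cu, val_vB_cu] at h2
        omega
    by_cases c2 : ∃ i, x = vh i ∧ y = vg i
    · obtain ⟨i, rfl, rfl⟩ := c2
      refine ⟨fun t => α i ((1 + t) / 3), (hc i).comp (by fun_prop), ?_, ?_, ?_, ?_, ?_⟩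
      · simp only [add_zero]
        rw [Pt_vh_cu]
      · simp only
        rw [Pt_vg_cu]
        norm_num
      · intro i' h _ t
        have h2 := congrArg Fin.val h
        rw [val_vA_cu, val_vh_cu] at h2
        omega
      · intro i' h _ t
        have h2 := congrArg Fin.val h
        rw [val_vh_cu, val_vh_cu] at h2
        have h3 : i = i' := Fin.ext (by omega)
        rw [h3]
      · intro i' h _ t
        have h2 := congrArg Fin.val h
        rw [val_vh_cu, val_vB_cu] at h2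
        omega
    by_cases c3 : ∃ i, x = vB m ∧ y = vg i
    · obtain ⟨i, rfl, rfl⟩ := c3
      refine ⟨fun t => α i (1 - t / 3), (hc i).comp (by fun_prop), ?_, ?_, ?_, ?_, ?_⟩
      · simp only [zero_div, sub_zero]
        rw [h1, Pt_vB_cu]
      · simp only
        rw [Pt_vg_cu]
        norm_num
      · intro i' h _ t
        have h2 := congrArg Fin.val h
        rw [val_vA_cu, val_vB_cu] at h2
        omega
      · intro i' h _ t
        have h2 := congrArg Fin.val h
        rw [val_vB_cu, val_vh_cu] at h2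
        omega
      · intro i' _ h t
        have h2 := congrArg Fin.val h
        rw [val_vg_cu, val_vg_cu] at h2
        have h3 : i = i' := Fin.ext (by omega)
        rw [h3]
    refine ⟨fun t => ((1 - t : ℝ) : ℂ) * Pt_cu α a b x + (t : ℂ) * Pt_cu α a b y, by fun_prop,
      by simp, by simp, ?_, ?_, ?_⟩
    · exact fun i h h' => absurd ⟨i, h, h'⟩ c1
    · exact fun i h h' => absurd ⟨i, h, h'⟩ c2
    · exact fun i h h' => absurd ⟨i, h, h'⟩ c3
  choose g g1 g2 g3 g4 g5 g6 using hex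
  obtain ⟨ψ, hψ, hψ2⟩ := glue (Pt_cu α a b) g g1 g2 g3
  refine ⟨ψ, hψ, ?_, ?_, ?_⟩
  · intro i t ht
    rw [hψ2 _ _ (by rw [Fin.lt_def, val_vA_cu, val_vh_cu]; omega) t ht]
    exact g4 _ _ i rfl rfl t
  · intro i t ht
    have hi := i.isLt
    rw [hψ2 _ _ (by rw [Fin.lt_def, val_vh_cu, val_vg_cu]; omega) t ht]
    exact g5 _ _ i rfl rfl t
  · intro i t ht
    rw [hψ2 _ _ (by rw [Fin.lt_def, val_vB_cu, val_vg_cu]; omega) t ht]
    exact g6 _ _ i rfl rfl t

theorem cyc_val_cu (i j : Fin m) : ∀ x : Fin 6,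
    ((cyc i j : Fin 6 → Fin (2 * m + 2)) x).val =
      if x.val = 0 then 0 else if x.val = 1 then 2 + i.val else if x.val = 2 then 2 + m + i.val
      else if x.val = 3 then 1 else if x.val = 4 then 2 + m + j.val else 2 + j.val := by
  intro x
  match x with
  | 0 => rfl
  | 1 => rfl
  | 2 => rfl
  | 3 => rfl
  | 4 => rfl
  | 5 => rfl

theorem cyc_injective_cu {i j : Fin m} (hij : i ≠ j) : Function.Injective (cyc i j) := by
  have hi := i.isLt
  have hj := j.isLt
  have hij' : i.val ≠ j.val := fun h => hij (Fin.ext h)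
  have key : ∀ x y : Fin 6, (cyc i j : Fin 6 → Fin (2 * m + 2)) x = cyc i j y → x = y := by
    intro x y h
    have h2 := congrArg Fin.val h
    rw [cyc_val_cu, cyc_val_cu] at h2
    apply Fin.ext
    have hx := x.isLt
    have hy := y.isLt
    split_ifs at h2 <;> omega
  exact key

theorem cyc_isCyc {i j : Fin m} (hij : i ≠ j) :
    IsCyc (⊤ : SimpleGraph (Fin (2 * m + 2))) (cyc i j) where
  three := by norm_num
  inj := cyc_injective_cu hij
  adj k := by
    rw [SimpleGraph.top_adj]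
    intro he
    have h1 := cyc_injective_cu hij he
    have h2 : (1 : ZMod 6) = 0 := by
      have := sub_eq_zero.2 h1
      rw [sub_add_cancel_left, neg_eq_zero] at this
      exact this
    exact absurd h2 (by decide)

theorem cv_cyc {ψ : (Fin (2 * m + 2) → ℝ) → ℂ} {α : Fin m → ℝ → ℂ} (H : Arcs ψ α) (i j : Fin m)
    (t : ℝ) (ht : t ∈ Icc (0:ℝ) 1) :
    cv ψ 6 (wk (cyc i j)) t = if t ≤ 1 / 2 then α i (2 * t) else α j (2 - 2 * t) := by
  obtain ⟨ht0, ht1⟩ := ht
  have key : ∀ k : ℤ, (k : ℝ) ≤ 6 * t → 6 * t ≤ k + 1 →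
      cv ψ 6 (wk (cyc i j)) t = ψ (ep (wk (cyc i j) k) (wk (cyc i j) (k + 1)) (6 * t - k)) := by
    intro k h1 h2
    unfold cv
    have h3 : ((6 : ℕ) : ℝ) * t = k + (6 * t - k) := by
      push_cast
      ring
    rw [h3, ev_on k (by linarith) (by linarith)]
  have w0 : wk (cyc i j) 0 = vA m := rfl
  have w1 : wk (cyc i j) 1 = vh i := rfl
  have w2 : wk (cyc i j) 2 = vg i := rfl
  have w3 : wk (cyc i j) 3 = vB m := rfl
  have w4 : wk (cyc i j) 4 = vg j := rfl
  have w5 : wk (cyc i j) 5 = vh j := rfl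
  have w6 : wk (cyc i j) 6 = vA m := rfl
  by_cases c : t ≤ 1 / 2
  · rw [if_pos c]
    rcases le_total (6 * t) 1 with c1 | c1
    · rw [key 0 (by push_cast; linarith) (by push_cast; linarith), zero_add, w0, w1,
        H.eh i _ ⟨by push_cast; linarith, by push_cast; linarith⟩]
      congr 1
      push_cast
      ring
    rcases le_total (6 * t) 2 with c2 | c2
    · rw [key 1 (by push_cast; linarith) (by push_cast; linarith),
        show (1 : ℤ) + 1 = 2 by norm_num, w1, w2,
        H.em i _ ⟨by push_cast; linarith, by push_cast; linarith⟩]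
      congr 1
      push_cast
      ring
    · rw [key 2 (by push_cast; linarith) (by push_cast; linarith),
        show (2 : ℤ) + 1 = 3 by norm_num, w2, w3, ep_symm,
        H.eg i _ ⟨by push_cast; linarith, by push_cast; linarith⟩]
      congr 1
      push_cast
      ring
  · rw [if_neg c]
    have c' : 1 / 2 < t := not_le.1 c
    rcases le_total (6 * t) 4 with c1 | c1
    · rw [key 3 (by push_cast; linarith) (by push_cast; linarith),
        show (3 : ℤ) + 1 = 4 by norm_num, w3, w4,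
        H.eg j _ ⟨by push_cast; linarith, by push_cast; linarith⟩]
      congr 1
      push_cast
      ring
    rcases le_total (6 * t) 5 with c2 | c2
    · rw [key 4 (by push_cast; linarith) (by push_cast; linarith),
        show (4 : ℤ) + 1 = 5 by norm_num, w4, w5, ep_symm,
        H.em j _ ⟨by push_cast; linarith, by push_cast; linarith⟩]
      congr 1
      push_cast
      ring
    · rw [key 5 (by push_cast; linarith) (by push_cast; linarith),
        show (5 : ℤ) + 1 = 6 by norm_num, w5, w6, ep_symm,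
        H.eh j _ ⟨by push_cast; linarith, by push_cast; linarith⟩]
      congr 1
      push_cast
      ring

theorem cyc_inj {ψ : (Fin (2 * m + 2) → ℝ) → ℂ} {α : Fin m → ℝ → ℂ} (H : Arcs ψ α) {i j : Fin m}
    (hij : i ≠ j) {a b : ℂ} (h0 : ∀ i, α i 0 = a) (h1 : ∀ i, α i 1 = b)
    (hi : ∀ i, InjOn (α i) (Icc 0 1))
    (hd : ∀ s ∈ Ioo (0:ℝ) 1, ∀ t ∈ Ioo (0:ℝ) 1, α i s ≠ α j t) :
    Inj (cv ψ 6 (wk (cyc i j))) ∧
      range (cv ψ 6 (wk (cyc i j))) = α i '' Icc 0 1 ∪ α j '' Icc 0 1 := by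
  set c := cv ψ 6 (wk (cyc i j)) with hc
  have W : Walk 6 (wk (cyc i j)) := (cyc_isCyc hij).walk
  have hper : Function.Periodic c 1 := by
    intro t
    rw [hc]
    unfold cv
    have h2 : ((6 : ℕ) : ℝ) * (t + 1) = ((6 : ℕ) : ℝ) * t + ((6 : ℕ) : ℝ) := by ring
    rw [h2, W.ev_per]
  have hfr : ∀ t, c t = c (Int.fract t) := by
    intro t
    have h2 := hper.sub_zsmul_eq ⌊t⌋ (x := t)
    rw [zsmul_eq_mul, mul_one, Int.self_sub_floor] at h2
    exact h2.symm
  have hval : ∀ t ∈ Icc (0:ℝ) 1, c t = if t ≤ 1 / 2 then α i (2 * t) else α j (2 - 2 * t) :=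
    fun t ht => cv_cyc H i j t ht
  have mixed : ∀ s t : ℝ, 0 ≤ s → s ≤ 1 / 2 → 1 / 2 < t → t < 1 → α i (2 * s) = α j (2 - 2 * t) →
      False := by
    intro s t hs hs2 ht ht2 h
    rcases hs.eq_or_lt with h3 | h3
    · rw [← h3, mul_zero, h0 i, ← h0 j] at h
      have h4 := hi j ⟨le_rfl, zero_le_one⟩ ⟨by linarith, by linarith⟩ h
      linarith
    · rcases hs2.eq_or_lt with h5 | h5
      · rw [h5, mul_one_div_cancel (by norm_num), h1 i, ← h1 j] at h
        have h4 := hi j ⟨zero_le_one, le_rfl⟩ ⟨by linarith, by linarith⟩ h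
        linarith
      · exact hd (2 * s) ⟨by linarith, by linarith⟩ (2 - 2 * t) ⟨by linarith, by linarith⟩ h
  have hinj : ∀ s ∈ Ico (0:ℝ) 1, ∀ t ∈ Ico (0:ℝ) 1, c s = c t → s = t := by
    intro s hs t ht h
    rw [hval s ⟨hs.1, hs.2.le⟩, hval t ⟨ht.1, ht.2.le⟩] at h
    split_ifs at h with c1 c2 c2
    · have h4 := hi i ⟨by linarith [hs.1], by linarith⟩ ⟨by linarith [ht.1], by linarith⟩ h
      linarith
    · exact absurd h fun h => mixed s t hs.1 c1 (not_le.1 c2) ht.2 h
    · exact absurd h.symm fun h => mixed t s ht.1 c2 (not_le.1 c1) hs.2 h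
    · have c1' := not_le.1 c1
      have c2' := not_le.1 c2
      have h4 := hi j ⟨by linarith [hs.2], by linarith⟩ ⟨by linarith [ht.2], by linarith⟩ h
      linarith
  refine ⟨?_, ?_⟩
  · intro x y hxy hyx h
    rw [hfr x, hfr y] at h
    have h2 := hinj _ ⟨Int.fract_nonneg x, Int.fract_lt_one x⟩ _
      ⟨Int.fract_nonneg y, Int.fract_lt_one y⟩ h
    rw [← Int.self_sub_floor, ← Int.self_sub_floor] at h2
    have h3 : y - x = ((⌊y⌋ - ⌊x⌋ : ℤ) : ℝ) := by
      push_cast
      linarith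
    have h4 : (0 : ℝ) < ((⌊y⌋ - ⌊x⌋ : ℤ) : ℝ) := by rw [← h3]; linarith
    have h5 : ((⌊y⌋ - ⌊x⌋ : ℤ) : ℝ) < 1 := by rw [← h3]; linarith
    have h6 : (0 : ℤ) < ⌊y⌋ - ⌊x⌋ := by exact_mod_cast h4
    have h7 : ⌊y⌋ - ⌊x⌋ < (1 : ℤ) := by exact_mod_cast h5
    omega
  · ext z
    constructor
    · rintro ⟨t, rfl⟩
      rw [hfr t]
      have f0 := Int.fract_nonneg t
      have f1 := Int.fract_lt_one t
      rw [hval _ ⟨f0, f1.le⟩]
      split_ifs with c1
      · exact Or.inl ⟨_, ⟨by linarith, by linarith⟩, rfl⟩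
      · have c1' := not_le.1 c1
        exact Or.inr ⟨_, ⟨by linarith, by linarith⟩, rfl⟩
    · rintro (⟨s, hs, rfl⟩ | ⟨s, hs, rfl⟩)
      · refine ⟨s / 2, ?_⟩
        rw [hval _ ⟨by linarith [hs.1], by linarith [hs.2]⟩, if_pos (by linarith [hs.2])]
        congr 1
        ring
      · rcases hs.2.eq_or_lt with h2 | h2
        · refine ⟨1 / 2, ?_⟩
          rw [hval _ ⟨by norm_num, by norm_num⟩, if_pos le_rfl, h2, h1 j,
            mul_one_div_cancel (by norm_num), h1 i]
        · refine ⟨1 - s / 2, ?_⟩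
          rw [hval _ ⟨by linarith, by linarith [hs.1]⟩, if_neg (by linarith)]
          congr 1
          ring

end Pool.Agent.H687.TC
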