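import Mathlib

/-! Definitions for the charges of arcs with half tangents. -/

set_option autoImplicit false
open Complex Set Topology Metric

namespace Pool.Agent.H687.TC

/-- the cone of directions near `u` -/
def Cone (u : ℂ) (θ : ℝ) : Set ℂ := {z | ‖z - (‖z‖ : ℂ) * u‖ ≤ θ * ‖z‖}

/-- the vertices of a square -/
def sq4 (z w : ℂ) : Fin 4 → ℂ := ![z, z + w, z + w + I * w, z + I * w]

/-- no square has its vertices in the two cones, except in one of them or at the apex -/
def NoPair (u v : ℂ) (θ : ℝ) : Prop := ∀ (z w : ℂ) (τ : Fin 4 → Bool),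
  (∀ k, sq4 z w k ∈ Cone (if τ k then u else v) θ) → (∃ j k, τ j = true ∧ τ k = false) →
    ∀ k, sq4 z w k = 0

end Pool.Agent.H687.TC
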