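import Mathlib

/-! TC-ROT: finitely many directions. -/

set_option autoImplicit false
open Complex

namespace Pool.Agent.H687.TC

/-- an affine function which is not identically zero has at most one zero -/
lemma aff_ro {a b : ℝ} (h : a ≠ 0 ∨ b ≠ 0) : {t : ℝ | a + t * b = 0}.Finite := by
  by_cases hb : b = 0
  · have ha : a ≠ 0 := by
      rcases h with h | h
      · exact h
      · exact absurd hb h
    have : {t : ℝ | a + t * b = 0} = ∅ := by
      ext t; simp [hb, ha]
    rw [this]; exact Set.finite_empty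
  · refine (Set.finite_singleton (-a / b)).subset ?_
    intro t ht
    simp only [Set.mem_ofPred_eq] at ht
    simp only [Set.mem_singleton_iff]
    field_simp
    linarith

lemma cr_ro {x y : ℂ} (hx : x ≠ 0) (hy : y ≠ 0) :
    x.re * y.im - x.im * y.re ≠ 0 ∨ x.re * y.re + x.im * y.im ≠ 0 := by
  by_contra h
  push Not at h
  obtain ⟨h1, h2⟩ := h
  have h3 : (x.re * x.re + x.im * x.im) * (y.re * y.re + y.im * y.im) = 0 := by
    have : (x.re * x.re + x.im * x.im) * (y.re * y.re + y.im * y.im) =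
      (x.re * y.im - x.im * y.re) ^ 2 + (x.re * y.re + x.im * y.im) ^ 2 := by ring
    rw [this, h1, h2]; ring
  rw [← normSq_apply, ← normSq_apply] at h3
  rcases mul_eq_zero.1 h3 with h | h
  · exact hx (normSq_eq_zero.1 h)
  · exact hy (normSq_eq_zero.1 h)

/-- perturbation to pairwise nonparallel directions -/
theorem nonpar {ι : Type*} [Fintype ι] (T : ι → ℂ) (hT : ∀ i, ‖T i‖ = 1) {δ : ℝ} (hδ : 0 < δ) :
    ∃ D : ι → ℂ, (∀ i, ‖D i - T i‖ ≤ δ) ∧
      ∀ i j, i ≠ j → (D i).re * (D j).im - (D i).im * (D j).re ≠ 0 := by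
  classical
  have key : ∀ s : Finset ι, ∃ D : ι → ℂ, (∀ i ∈ s, ‖D i - T i‖ ≤ δ ∧ D i ≠ 0) ∧
      ∀ i ∈ s, ∀ j ∈ s, i ≠ j → (D i).re * (D j).im - (D i).im * (D j).re ≠ 0 := by
    intro s
    induction s using Finset.induction_on with
    | empty => exact ⟨T, by simp, by simp⟩
    | insert a s ha ih =>
      obtain ⟨D, hD, hD2⟩ := ih
      have hTa : T a ≠ 0 := by
        intro h
        have := hT a
        rw [h, norm_zero] at this
        exact zero_ne_one this
      have hfin : (⋃ j ∈ (s : Set ι), {t : ℝ | ((T a).re * (D j).im - (T a).im * (D j).re) +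
          t * (-((T a).re * (D j).re + (T a).im * (D j).im)) = 0}).Finite := by
        refine Set.Finite.biUnion s.finite_toSet fun j hj => aff_ro ?_
        rcases cr_ro hTa (hD j hj).2 with h | h
        · exact Or.inl h
        · exact Or.inr (neg_ne_zero.2 h)
      obtain ⟨t, ht, htn⟩ := ((Set.Ioo_infinite hδ).sdiff hfin).nonempty
      simp only [Set.mem_iUnion, Set.mem_ofPred_eq, not_exists, SetLike.mem_coe] at htn
      have hDa : ∀ j ∈ s, ((T a + t * I * T a).re * (D j).im - (T a + t * I * T a).im * (D j).re)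
          ≠ 0 := by
        intro j hj h
        apply htn j hj
        rw [← h]
        simp
        ring
      refine ⟨Function.update D a (T a + t * I * T a), ?_, ?_⟩
      · intro i hi
        rcases Finset.mem_insert.1 hi with rfl | hi
        · rw [Function.update_self]
          constructor
          · have : T i + t * I * T i - T i = t * I * T i := by ring
            rw [this, norm_mul, norm_mul, hT, norm_I, norm_real, Real.norm_eq_abs,
              abs_of_pos ht.1]
            linarith [ht.2]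
          · have : T i + t * I * T i = T i * (1 + t * I) := by ring
            rw [this]
            refine mul_ne_zero hTa fun h => ?_
            have := congrArg Complex.re h
            simp at this
        · have hne : i ≠ a := fun h => ha (h ▸ hi)
          rw [Function.update_of_ne hne]
          exact hD i hi
      · intro i hi j hj hij
        rcases Finset.mem_insert.1 hi with rfl | hi'
        · rcases Finset.mem_insert.1 hj with rfl | hj
          · exact absurd rfl hij
          · rw [Function.update_self, Function.update_of_ne (Ne.symm hij)]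
            exact hDa j hj
        · have hne : i ≠ a := fun h => ha (h ▸ hi')
          rcases Finset.mem_insert.1 hj with rfl | hj'
          · rw [Function.update_self, Function.update_of_ne hij]
            intro h
            apply hDa i hi'
            linarith
          · have hne' : j ≠ a := fun h => ha (h ▸ hj')
            rw [Function.update_of_ne hne, Function.update_of_ne hne']
            exact hD2 i hi' j hj' hij
  obtain ⟨D, hD, hD2⟩ := key Finset.univ
  exact ⟨D, fun i => (hD i (Finset.mem_univ i)).1,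
    fun i j hij => hD2 i (Finset.mem_univ i) j (Finset.mem_univ j) hij⟩

lemma crb_ro (x v : ℂ) : |x.re * v.im - x.im * v.re| ≤ ‖x‖ * ‖v‖ := by
  have h : (x.re * v.im - x.im * v.re) = ((starRingEnd ℂ) x * v).im := by
    simp [mul_im]; ring
  rw [h]
  refine (abs_im_le_norm _).trans ?_
  rw [norm_mul, RCLike.norm_conj]

/-- a rotation such that given slopes are transversal to given directions -/
theorem exrot {ι : Type*} [Fintype ι] (T : ι → ℂ) (hT : ∀ i, ‖T i‖ = 1) (K : ℕ) :
    ∃ rot : ℂ, ‖rot‖ = 1 ∧ ∃ C > (0:ℝ), ∃ δ > (0:ℝ), ∀ (i : ι) (k : ℕ), k ≤ K → ∀ D v : ℂ,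
      ‖D - T i‖ ≤ δ → v = rot * (1 + ((k : ℝ) : ℂ) * I) →
      D.re * v.im - D.im * v.re ≠ 0 ∧ ‖D‖ * ‖v‖ ≤ C * |D.re * v.im - D.im * v.re| := by
  classical
  have hT0 : ∀ i, T i ≠ 0 := by
    intro i h
    have := hT i
    rw [h, norm_zero] at this
    exact zero_ne_one this
  have hw0 : ∀ k : ℕ, (1 + ((k : ℝ) : ℂ) * I) ≠ 0 := by
    intro k h
    have := congrArg Complex.re h
    simp at this
  -- the bad parameters
  have hfin : (⋃ p ∈ (Set.univ : Set (ι × Fin (K + 1))),
      {t : ℝ | ((T p.1).re * (1 + (((p.2 : ℕ) : ℝ) : ℂ) * I).im -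
        (T p.1).im * (1 + (((p.2 : ℕ) : ℝ) : ℂ) * I).re) +
          t * ((T p.1).re * (1 + (((p.2 : ℕ) : ℝ) : ℂ) * I).re +
            (T p.1).im * (1 + (((p.2 : ℕ) : ℝ) : ℂ) * I).im) = 0}).Finite :=
    Set.Finite.biUnion Set.finite_univ fun p _ => aff_ro (cr_ro (hT0 p.1) (hw0 p.2))
  obtain ⟨t, -, htn⟩ := ((Set.infinite_univ (α := ℝ)).sdiff hfin).nonempty
  simp only [Set.mem_iUnion, Set.mem_ofPred_eq, not_exists, Set.mem_univ] at htn
  have hu0 : (1 + (t : ℂ) * I) ≠ 0 := by
    intro h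
    have := congrArg Complex.re h
    simp at this
  have hn0 : ‖(1 + (t : ℂ) * I)‖ ≠ 0 := norm_ne_zero_iff.2 hu0
  set n : ℝ := ‖(1 + (t : ℂ) * I)‖ with hn
  set rot : ℂ := ((n⁻¹ : ℝ) : ℂ) * (1 + (t : ℂ) * I) with hrot
  have hrn : ‖rot‖ = 1 := by
    rw [hrot, norm_mul, norm_real, Real.norm_eq_abs, abs_of_nonneg (inv_nonneg.2 (norm_nonneg _)),
      ← hn, inv_mul_cancel₀ hn0]
  have hcr : ∀ (i : ι) (k : ℕ), k ≤ K →
      (T i).re * (rot * (1 + ((k : ℝ) : ℂ) * I)).im -
        (T i).im * (rot * (1 + ((k : ℝ) : ℂ) * I)).re ≠ 0 := by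
    intro i k hk h
    apply htn (i, ⟨k, by omega⟩)
    trivial
    have e : (T i).re * (rot * (1 + ((k : ℝ) : ℂ) * I)).im -
        (T i).im * (rot * (1 + ((k : ℝ) : ℂ) * I)).re = n⁻¹ *
        (((T i).re * (1 + ((k : ℝ) : ℂ) * I).im - (T i).im * (1 + ((k : ℝ) : ℂ) * I).re) +
          t * ((T i).re * (1 + ((k : ℝ) : ℂ) * I).re +
            (T i).im * (1 + ((k : ℝ) : ℂ) * I).im)) := by
      rw [hrot]
      simp [-ofReal_inv]
      ring
    rw [e] at h
    rcases mul_eq_zero.1 h with h | h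
    · exact absurd h (inv_ne_zero hn0)
    · exact h
  refine ⟨rot, hrn, ?_⟩
  -- the constant
  set S : ℝ := ∑ p : ι × Fin (K + 1), ‖rot * (1 + (((p.2 : ℕ) : ℝ) : ℂ) * I)‖ /
    |(T p.1).re * (rot * (1 + (((p.2 : ℕ) : ℝ) : ℂ) * I)).im -
        (T p.1).im * (rot * (1 + (((p.2 : ℕ) : ℝ) : ℂ) * I)).re| with hS
  have hS0 : 0 ≤ S := Finset.sum_nonneg fun p _ => by positivity
  have hSb : ∀ (i : ι) (k : ℕ), k ≤ K → ‖rot * (1 + ((k : ℝ) : ℂ) * I)‖ ≤ (S + 1) *
      |(T i).re * (rot * (1 + ((k : ℝ) : ℂ) * I)).im -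
        (T i).im * (rot * (1 + ((k : ℝ) : ℂ) * I)).re| := by
    intro i k hk
    have h1 := Finset.single_le_sum (s := Finset.univ)
      (f := fun p : ι × Fin (K + 1) => ‖rot * (1 + (((p.2 : ℕ) : ℝ) : ℂ) * I)‖ /
    |(T p.1).re * (rot * (1 + (((p.2 : ℕ) : ℝ) : ℂ) * I)).im -
        (T p.1).im * (rot * (1 + (((p.2 : ℕ) : ℝ) : ℂ) * I)).re|)
      (fun p _ => by positivity) (Finset.mem_univ (i, ⟨k, by omega⟩))
    have h2 : 0 < |(T i).re * (rot * (1 + ((k : ℝ) : ℂ) * I)).im -
        (T i).im * (rot * (1 + ((k : ℝ) : ℂ) * I)).re| := abs_pos.2 (hcr i k hk)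
    simp only at h1
    rw [div_le_iff₀ h2] at h1
    nlinarith
  set c : ℝ := (S + 1)⁻¹ with hc
  have hcp : 0 < c := by positivity
  refine ⟨4 / c, by positivity, min 1 (c / 2), by positivity, ?_⟩
  intro i k hk D v hD hv
  have hd1 : ‖D - T i‖ ≤ 1 := hD.trans (min_le_left _ _)
  have hd2 : ‖D - T i‖ ≤ c / 2 := hD.trans (min_le_right _ _)
  have hv0 : 0 < ‖v‖ := by
    rw [hv, norm_mul, hrn, one_mul]
    exact norm_pos_iff.2 (hw0 k)
  have h1 : c * ‖v‖ ≤ |(T i).re * v.im - (T i).im * v.re| := by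
    have := hSb i k hk
    rw [← hv] at this
    rw [hc, inv_mul_le_iff₀ (by positivity)]
    exact this
  have h2 := crb_ro (D - T i) v
  have h3 : (D - T i).re * v.im - (D - T i).im * v.re =
      (D.re * v.im - D.im * v.re) - ((T i).re * v.im - (T i).im * v.re) := by
    simp; ring
  rw [h3] at h2
  have h4 : ‖D - T i‖ * ‖v‖ ≤ c / 2 * ‖v‖ := mul_le_mul_of_nonneg_right hd2 hv0.le
  have h5 : c / 2 * ‖v‖ ≤ |D.re * v.im - D.im * v.re| := by
    have h6 := abs_sub_abs_le_abs_sub ((T i).re * v.im - (T i).im * v.re)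
      (D.re * v.im - D.im * v.re)
    have h6' := abs_sub_comm ((T i).re * v.im - (T i).im * v.re) (D.re * v.im - D.im * v.re)
    linarith
  have h7 : 0 < c / 2 * ‖v‖ := by positivity
  refine ⟨abs_pos.1 (h7.trans_le h5), ?_⟩
  have h8 : ‖D‖ ≤ 2 := by
    have := norm_add_le (D - T i) (T i)
    rw [sub_add_cancel, hT] at this
    linarith
  calc ‖D‖ * ‖v‖ ≤ 2 * ‖v‖ := mul_le_mul_of_nonneg_right h8 hv0.le
    _ = 4 / c * (c / 2 * ‖v‖) := by field_simp; ring
    _ ≤ 4 / c * |D.re * v.im - D.im * v.re| := mul_le_mul_of_nonneg_left h5 (by positivity)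

end Pool.Agent.H687.TC
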