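import Pool.Agent.H687.TC.Defs

/-! TC-TAN: arcs with half tangents. -/

set_option autoImplicit false
open Complex Set Topology Metric

namespace Pool.Agent.H687.TC

/-- clamp of `x` to `[0,1/3]` -/
noncomputable def clamp_ta (x : ℝ) : ℝ := max 0 (min x (1 / 3))

theorem clamp_cont_ta : Continuous clamp_ta := by
  unfold clamp_ta
  exact continuous_const.max (continuous_id.min continuous_const)

theorem clamp_mono_ta : Monotone clamp_ta := by
  intro x y h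
  unfold clamp_ta
  exact max_le_max le_rfl (min_le_min h le_rfl)

theorem clamp_zero_ta {x : ℝ} (h : x ≤ 0) : clamp_ta x = 0 := by
  unfold clamp_ta
  exact max_eq_left ((min_le_left _ _).trans h)

theorem clamp_one_ta {x : ℝ} (h : 1 / 3 ≤ x) : clamp_ta x = 1 / 3 := by
  unfold clamp_ta
  rw [min_eq_right h]
  exact max_eq_right (by norm_num)

theorem clamp_mid_ta {x : ℝ} (h0 : 0 ≤ x) (h1 : x ≤ 1 / 3) : clamp_ta x = x := by
  unfold clamp_ta
  rw [min_eq_left h1, max_eq_right h0]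

/-- the piecewise linear map -/
noncomputable def pl_ta (T T' : ℝ) (t : ℝ) : ℝ :=
  3 * T * clamp_ta t + 3 * (T' - T) * clamp_ta (t - 1 / 3) + 3 * (1 - T') * clamp_ta (t - 2 / 3)

theorem pl_cont_ta (T T' : ℝ) : Continuous (pl_ta T T') := by
  unfold pl_ta
  have h1 : Continuous fun t : ℝ => clamp_ta (t - 1 / 3) :=
    clamp_cont_ta.comp (continuous_id.sub continuous_const)
  have h2 : Continuous fun t : ℝ => clamp_ta (t - 2 / 3) :=
    clamp_cont_ta.comp (continuous_id.sub continuous_const)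
  exact ((continuous_const.mul clamp_cont_ta).add (continuous_const.mul h1)).add
    (continuous_const.mul h2)

theorem pl_mono_ta {T T' : ℝ} (h0 : 0 < T) (h1 : T < T') (h2 : T' < 1) :
    Monotone (pl_ta T T') := by
  intro x y h
  unfold pl_ta
  have a1 := clamp_mono_ta h
  have a2 := clamp_mono_ta (sub_le_sub_right h (1 / 3))
  have a3 := clamp_mono_ta (sub_le_sub_right h (2 / 3))
  have b1 : 3 * T * clamp_ta x ≤ 3 * T * clamp_ta y := by
    apply mul_le_mul_of_nonneg_left a1 (by linarith)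
  have b2 : 3 * (T' - T) * clamp_ta (x - 1 / 3) ≤ 3 * (T' - T) * clamp_ta (y - 1 / 3) := by
    apply mul_le_mul_of_nonneg_left a2 (by linarith)
  have b3 : 3 * (1 - T') * clamp_ta (x - 2 / 3) ≤ 3 * (1 - T') * clamp_ta (y - 2 / 3) := by
    apply mul_le_mul_of_nonneg_left a3 (by linarith)
  linarith

theorem pl_a_ta (T T' : ℝ) {t : ℝ} (h0 : 0 ≤ t) (h1 : t ≤ 1 / 3) : pl_ta T T' t = 3 * T * t := by
  unfold pl_ta
  rw [clamp_mid_ta h0 h1, clamp_zero_ta (by linarith), clamp_zero_ta (by linarith)]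
  ring

theorem pl_b_ta (T T' : ℝ) {t : ℝ} (h0 : 1 / 3 ≤ t) (h1 : t ≤ 2 / 3) :
    pl_ta T T' t = T + 3 * (T' - T) * (t - 1 / 3) := by
  unfold pl_ta
  rw [clamp_one_ta h0, clamp_mid_ta (by linarith) (by linarith), clamp_zero_ta (by linarith)]
  ring

theorem pl_c_ta (T T' : ℝ) {t : ℝ} (h0 : 2 / 3 ≤ t) (h1 : t ≤ 1) :
    pl_ta T T' t = T' + 3 * (1 - T') * (t - 2 / 3) := by
  unfold pl_ta
  rw [clamp_one_ta (by linarith), clamp_one_ta (by linarith),
    clamp_mid_ta (by linarith) (by linarith)]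
  ring

theorem pl_strict_ta {T T' : ℝ} (h0 : 0 < T) (h1 : T < T') (h2 : T' < 1) :
    StrictMonoOn (pl_ta T T') (Icc 0 1) := by
  have s1 : StrictMonoOn (pl_ta T T') (Icc 0 (1 / 3)) := by
    intro x hx y hy h
    rw [pl_a_ta T T' hx.1 hx.2, pl_a_ta T T' hy.1 hy.2]
    exact mul_lt_mul_of_pos_left h (by linarith)
  have s2 : StrictMonoOn (pl_ta T T') (Icc (1 / 3) (2 / 3)) := by
    intro x hx y hy h
    rw [pl_b_ta T T' hx.1 hx.2, pl_b_ta T T' hy.1 hy.2]
    have : 3 * (T' - T) * (x - 1 / 3) < 3 * (T' - T) * (y - 1 / 3) :=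
      mul_lt_mul_of_pos_left (by linarith) (by linarith)
    linarith
  have s3 : StrictMonoOn (pl_ta T T') (Icc (2 / 3) 1) := by
    intro x hx y hy h
    rw [pl_c_ta T T' hx.1 hx.2, pl_c_ta T T' hy.1 hy.2]
    have : 3 * (1 - T') * (x - 2 / 3) < 3 * (1 - T') * (y - 2 / 3) :=
      mul_lt_mul_of_pos_left (by linarith) (by linarith)
    linarith
  have s12 : StrictMonoOn (pl_ta T T') (Icc 0 (2 / 3)) := by
    have := s1.union s2 (c := 1 / 3) (isGreatest_Icc (by norm_num)) (isLeast_Icc (by norm_num))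
    rwa [Icc_union_Icc_eq_Icc (by norm_num) (by norm_num)] at this
  have := s12.union s3 (c := 2 / 3) (isGreatest_Icc (by norm_num)) (isLeast_Icc (by norm_num))
  rwa [Icc_union_Icc_eq_Icc (by norm_num) (by norm_num)] at this

theorem pl_zero_ta (T T' : ℝ) : pl_ta T T' 0 = 0 := by
  rw [pl_a_ta T T' le_rfl (by norm_num)]; ring

theorem pl_one_ta (T T' : ℝ) : pl_ta T T' 1 = 1 := by
  rw [pl_c_ta T T' (by norm_num) le_rfl]; ring

theorem pl_le_zero_ta (T T' : ℝ) {t : ℝ} (h : t ≤ 0) : pl_ta T T' t = 0 := by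
  unfold pl_ta
  rw [clamp_zero_ta h, clamp_zero_ta (by linarith), clamp_zero_ta (by linarith)]
  ring

theorem pl_ge_one_ta (T T' : ℝ) {t : ℝ} (h : 1 ≤ t) : pl_ta T T' t = 1 := by
  unfold pl_ta
  rw [clamp_one_ta (by linarith), clamp_one_ta (by linarith), clamp_one_ta (by linarith)]
  ring

theorem pl_mem_ta {T T' : ℝ} (h0 : 0 < T) (h1 : T < T') (h2 : T' < 1) (t : ℝ) :
    pl_ta T T' t ∈ Icc (0:ℝ) 1 := by
  have hm := pl_mono_ta h0 h1 h2
  constructor
  · rcases le_total t 0 with h | h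
    · rw [pl_le_zero_ta T T' h]
    · rw [← pl_zero_ta T T']; exact hm h
  · rcases le_total t 1 with h | h
    · rw [← pl_one_ta T T']; exact hm h
    · rw [pl_ge_one_ta T T' h]

theorem pl_imIcc_ta {T T' : ℝ} (h0 : 0 < T) (h1 : T < T') (h2 : T' < 1) :
    pl_ta T T' '' Icc 0 1 = Icc 0 1 := by
  apply Subset.antisymm
  · rintro _ ⟨t, _, rfl⟩
    exact pl_mem_ta h0 h1 h2 t
  · have := intermediate_value_Icc (zero_le_one (α := ℝ)) (pl_cont_ta T T').continuousOn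
    rwa [pl_zero_ta, pl_one_ta] at this

theorem pl_imIoo_ta {T T' : ℝ} (h0 : 0 < T) (h1 : T < T') (h2 : T' < 1) :
    pl_ta T T' '' Ioo 0 1 = Ioo 0 1 := by
  have hs := pl_strict_ta h0 h1 h2
  apply Subset.antisymm
  · rintro _ ⟨t, ht, rfl⟩
    constructor
    · rw [← pl_zero_ta T T']
      exact hs ⟨le_rfl, zero_le_one⟩ ⟨ht.1.le, ht.2.le⟩ ht.1
    · conv_rhs => rw [← pl_one_ta T T']
      exact hs ⟨ht.1.le, ht.2.le⟩ ⟨zero_le_one, le_rfl⟩ ht.2
  · intro s hs'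
    have : s ∈ pl_ta T T' '' Icc 0 1 := by
      rw [pl_imIcc_ta h0 h1 h2]; exact ⟨hs'.1.le, hs'.2.le⟩
    obtain ⟨t, ht, rfl⟩ := this
    refine ⟨t, ⟨?_, ?_⟩, rfl⟩
    · rcases ht.1.eq_or_lt with h | h
      · rw [← h, pl_zero_ta] at hs'; exact absurd hs'.1 (lt_irrefl _)
      · exact h
    · rcases ht.2.eq_or_lt with h | h
      · rw [h, pl_one_ta] at hs'; exact absurd hs'.2 (lt_irrefl _)
      · exact h

theorem cone_of_ta {z u : ℂ} {θ : ℝ} (hθ : 0 < θ) (h : z ≠ 0 → ‖z / (‖z‖ : ℂ) - u‖ ≤ θ) :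
    z ∈ Cone u θ := by
  unfold Cone
  rw [mem_setOf_eq]
  by_cases hz : z = 0
  · subst hz; simp
  · have hn : (0:ℝ) < ‖z‖ := norm_pos_iff.2 hz
    have hn' : (‖z‖ : ℂ) ≠ 0 := by
      exact_mod_cast hn.ne'
    have e : z - (‖z‖ : ℂ) * u = (‖z‖ : ℂ) * (z / (‖z‖ : ℂ) - u) := by
      field_simp
    rw [e, norm_mul, Complex.norm_real, norm_norm, mul_comm]
    exact mul_le_mul_of_nonneg_right (h hz) hn.le

/-- reparametrisation of an arc with half tangents -/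
theorem repar {α : ℝ → ℂ} (hc : ContinuousOn α (Icc 0 1)) (hi : InjOn α (Icc 0 1)) {u w : ℂ}
    (h0 : Filter.Tendsto (fun t => (α t - α 0) / (‖α t - α 0‖ : ℂ)) (𝓝[>] (0:ℝ)) (𝓝 u))
    (h1 : Filter.Tendsto (fun t => (α t - α 1) / (‖α t - α 1‖ : ℂ)) (𝓝[<] (1:ℝ)) (𝓝 w))
    {θ : ℝ} (hθ : 0 < θ) : ∃ β : ℝ → ℂ, Continuous β ∧ InjOn β (Icc 0 1) ∧
      β '' Icc 0 1 = α '' Icc 0 1 ∧ β '' Ioo 0 1 = α '' Ioo 0 1 ∧ β 0 = α 0 ∧ β 1 = α 1 ∧
      (∀ t ∈ Icc (0:ℝ) (1 / 3), β t - β 0 ∈ Cone u θ) ∧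
      ∀ t ∈ Icc (2 / 3 : ℝ) 1, β t - β 1 ∈ Cone w θ := by
  obtain ⟨T, hT0, hT1, hT⟩ : ∃ T : ℝ, 0 < T ∧ T < 1 / 2 ∧ ∀ s ∈ Icc 0 T, α s - α 0 ∈ Cone u θ := by
    have := (Metric.tendsto_nhds.1 h0) θ hθ
    rw [Filter.Eventually, mem_nhdsGT_iff_exists_Ioo_subset] at this
    obtain ⟨e, he, hsub⟩ := this
    have he' : (0:ℝ) < e := he
    refine ⟨min (e / 2) (1 / 4), lt_min (by linarith) (by norm_num),
      (min_le_right _ _).trans_lt (by norm_num), fun s hs => ?_⟩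
    apply cone_of_ta hθ
    intro hz
    have hs0 : 0 < s := by
      rcases hs.1.eq_or_lt with h | h
      · rw [← h] at hz; simp at hz
      · exact h
    have hse : s < e := (hs.2.trans (min_le_left _ _)).trans_lt (by linarith)
    have := hsub ⟨hs0, hse⟩
    rw [mem_setOf_eq, dist_eq_norm] at this
    exact this.le
  obtain ⟨T', hT'0, hT'1, hT'⟩ : ∃ T' : ℝ, 1 / 2 < T' ∧ T' < 1 ∧
      ∀ s ∈ Icc T' 1, α s - α 1 ∈ Cone w θ := by
    have := (Metric.tendsto_nhds.1 h1) θ hθ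
    rw [Filter.Eventually, mem_nhdsLT_iff_exists_Ioo_subset] at this
    obtain ⟨e, he, hsub⟩ := this
    have he' : e < (1:ℝ) := he
    refine ⟨max ((e + 1) / 2) (3 / 4), lt_of_lt_of_le (by norm_num) (le_max_right _ _),
      max_lt (by linarith) (by norm_num), fun s hs => ?_⟩
    apply cone_of_ta hθ
    intro hz
    have hs0 : s < 1 := by
      rcases hs.2.eq_or_lt with h | h
      · rw [h] at hz; simp at hz
      · exact h
    have hse : e < s := lt_of_lt_of_le (by linarith) ((le_max_left _ _).trans hs.1)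
    have := hsub ⟨hse, hs0⟩
    rw [mem_setOf_eq, dist_eq_norm] at this
    exact this.le
  have hTT : T < T' := by linarith
  have hmem := pl_mem_ta hT0 hTT hT'1
  have hstr := pl_strict_ta hT0 hTT hT'1
  refine ⟨fun t => α (pl_ta T T' t), ?_, ?_, ?_, ?_, ?_, ?_, ?_, ?_⟩
  · exact hc.comp_continuous (pl_cont_ta T T') hmem
  · intro x hx y hy h
    exact hstr.injOn hx hy (hi (hmem x) (hmem y) h)
  · rw [show (fun t => α (pl_ta T T' t)) = α ∘ pl_ta T T' from rfl, image_comp,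
      pl_imIcc_ta hT0 hTT hT'1]
  · rw [show (fun t => α (pl_ta T T' t)) = α ∘ pl_ta T T' from rfl, image_comp,
      pl_imIoo_ta hT0 hTT hT'1]
  · show α (pl_ta T T' 0) = α 0
    rw [pl_zero_ta]
  · show α (pl_ta T T' 1) = α 1
    rw [pl_one_ta]
  · intro t ht
    show α (pl_ta T T' t) - α (pl_ta T T' 0) ∈ Cone u θ
    rw [pl_zero_ta, pl_a_ta T T' ht.1 ht.2]
    apply hT
    constructor
    · have := ht.1
      positivity
    · have := mul_le_mul_of_nonneg_left ht.2 hT0.le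
      linarith
  · intro t ht
    show α (pl_ta T T' t) - α (pl_ta T T' 1) ∈ Cone w θ
    rw [pl_one_ta, pl_c_ta T T' ht.1 ht.2]
    apply hT'
    constructor
    · have : 0 ≤ (1 - T') * (t - 2 / 3) := mul_nonneg (by linarith) (by linarith [ht.1])
      linarith
    · have : (1 - T') * (t - 2 / 3) ≤ (1 - T') * (1 / 3) :=
        mul_le_mul_of_nonneg_left (by linarith [ht.2]) (by linarith)
      linarith

/-- last exit from a small disc around the initial point -/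
theorem exit {β : ℝ → ℂ} (hc : Continuous β) (hi : InjOn β (Icc 0 1)) {ρ0 : ℝ} (hρ0 : 0 < ρ0) :
    ∃ ρ ∈ Ioo 0 ρ0, ∃ τ ∈ Ioo (0:ℝ) (1 / 3), ‖β τ - β 0‖ = ρ ∧
      (∀ t ∈ Icc τ 1, ρ ≤ ‖β t - β 0‖) ∧ ∀ t ∈ Icc 0 τ, ‖β t - β 0‖ ≤ ρ0 := by
  have hg : Continuous fun t => ‖β t - β 0‖ := (hc.sub continuous_const).norm
  obtain ⟨t0, ht0, ht0', hsmall⟩ : ∃ t0 : ℝ, 0 < t0 ∧ t0 < 1 / 3 ∧
      ∀ t ∈ Icc 0 t0, ‖β t - β 0‖ ≤ ρ0 := by
    obtain ⟨d, hd, hdd⟩ := (Metric.continuous_iff.1 hc) 0 ρ0 hρ0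
    refine ⟨min (d / 2) (1 / 4), lt_min (by linarith) (by norm_num),
      (min_le_right _ _).trans_lt (by norm_num), fun t ht => ?_⟩
    have : dist t 0 < d := by
      rw [Real.dist_eq, sub_zero, abs_of_nonneg ht.1]
      exact (ht.2.trans (min_le_left _ _)).trans_lt (by linarith)
    have := hdd t this
    rw [dist_eq_norm] at this
    exact this.le
  obtain ⟨s, hs, hsmin⟩ := isCompact_Icc.exists_isMinOn (s := Icc t0 1)
    ⟨t0, le_rfl, by linarith⟩ hg.continuousOn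
  have hm : 0 < ‖β s - β 0‖ := by
    rw [norm_pos_iff, sub_ne_zero]
    intro h
    have := hi ⟨by linarith [hs.1], hs.2⟩ ⟨le_rfl, zero_le_one⟩ h
    linarith [hs.1]
  set m := ‖β s - β 0‖ with hmdef
  have hmin : ∀ t ∈ Icc t0 1, m ≤ ‖β t - β 0‖ := fun t ht => hsmin ht
  have hρ : 0 < min ρ0 m / 2 := by
    have := lt_min hρ0 hm
    linarith
  set ρ := min ρ0 m / 2 with hρdef
  have hρρ0 : ρ < ρ0 := by
    have := min_le_left ρ0 m
    linarith
  have hρm : ρ < m := by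
    have := min_le_right ρ0 m
    linarith
  set S : Set ℝ := {t | t ∈ Icc (0:ℝ) 1 ∧ ‖β t - β 0‖ ≤ ρ} with hS
  have hScomp : IsCompact S := by
    have : S = Icc (0:ℝ) 1 ∩ {t | ‖β t - β 0‖ ≤ ρ} := rfl
    rw [this]
    exact isCompact_Icc.inter_right (isClosed_le hg continuous_const)
  have hSne : S.Nonempty := ⟨0, ⟨le_rfl, zero_le_one⟩, by simpa using hρ.le⟩
  obtain ⟨τ, hτS, hτub⟩ := hScomp.exists_isGreatest hSne
  have hτt0 : τ < t0 := by
    by_contra hcon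
    have := hmin τ ⟨not_lt.1 hcon, hτS.1.2⟩
    linarith [hτS.2]
  have heq : ‖β τ - β 0‖ = ρ := by
    by_contra hne
    have hlt : ‖β τ - β 0‖ < ρ := lt_of_le_of_ne hτS.2 hne
    have hev : ∀ᶠ t in 𝓝 τ, ‖β t - β 0‖ < ρ := hg.continuousAt.eventually (gt_mem_nhds hlt)
    obtain ⟨d, hd, hdd⟩ := Metric.eventually_nhds_iff.1 hev
    have hmp : 0 < min (d / 2) (t0 - τ) := lt_min (by linarith) (by linarith)
    have h1 : dist (τ + min (d / 2) (t0 - τ)) τ < d := by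
      rw [Real.dist_eq, add_sub_cancel_left, abs_of_pos hmp]
      exact (min_le_left _ _).trans_lt (by linarith)
    have h2 := hdd h1
    have h3 : τ + min (d / 2) (t0 - τ) ∈ S := by
      refine ⟨⟨by linarith [hτS.1.1], ?_⟩, h2.le⟩
      have := min_le_right (d / 2) (t0 - τ)
      linarith
    have := hτub h3
    linarith
  have hτ0 : 0 < τ := by
    rcases hτS.1.1.eq_or_lt with h | h
    · rw [← h] at heq
      simp only [sub_self, norm_zero] at heq
      linarith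
    · exact h
  refine ⟨ρ, ⟨hρ, hρρ0⟩, τ, ⟨hτ0, by linarith⟩, heq, ?_, ?_⟩
  · intro t ht
    by_contra hcon
    have htS : t ∈ S := ⟨⟨by linarith [ht.1], ht.2⟩, (not_le.1 hcon).le⟩
    have h1 := hτub htS
    have h2 : t = τ := le_antisymm h1 ht.1
    rw [h2, heq] at hcon
    exact hcon le_rfl
  · intro t ht
    exact hsmall t ⟨ht.1, by linarith [ht.2]⟩

end Pool.Agent.H687.TC
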