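import Pool.Agent.H687.TC.Ver
import Pool.Agent.H687.TC.Tan
import Pool.Agent.H687.TC.Rot

/-! Charges of finitely many arcs with half tangents. -/

set_option autoImplicit false
open Complex Set Topology Metric

namespace Pool.Agent.H687.TC

open Pool.Agent.H763R2 Pool.Agent.H763R2.An Pool.Agent.Y535.PEG Pool.Agent.H687.K4
open Pool.Agent.H763R2.Dm (NoSq)
open Pool.Agent.H687.KC (wk)

variable {m : ℕ}

theorem pairC {ι : Type*} [Fintype ι] (D : ι → ℂ) (hD : ∀ i j, i ≠ j → An.cr (D i) (D j) ≠ 0) :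
    ∃ C2 : ℝ, 0 ≤ C2 ∧ ∀ i j, i ≠ j → ‖D i‖ * ‖D j‖ ≤ C2 * |An.cr (D i) (D j)| := by
  classical
  refine ⟨∑ p : ι × ι, ‖D p.1‖ * ‖D p.2‖ / |An.cr (D p.1) (D p.2)|,
    Finset.sum_nonneg fun p _ => by positivity, fun i j hij => ?_⟩
  rw [← div_le_iff₀ (abs_pos.2 (hD i j hij))]
  exact Finset.single_le_sum (f := fun p : ι × ι => ‖D p.1‖ * ‖D p.2‖ / |An.cr (D p.1) (D p.2)|)
    (fun p _ => by positivity) (Finset.mem_univ (i, j))

theorem uc {e : ℝ → ℂ} (hc : Continuous e) {δ : ℝ} (hδ : 0 < δ) : ∃ N0 : ℕ, 0 < N0 ∧ ∀ N : ℕ,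
    N0 ≤ N → ∀ s ∈ Icc (0:ℝ) 1, ∀ t ∈ Icc (0:ℝ) 1, |s - t| ≤ 1 / N → ‖e s - e t‖ < δ := by
  have h := isCompact_Icc.uniformContinuousOn_of_continuous (hc.continuousOn (s := Icc (0:ℝ) 1))
  obtain ⟨d, hd, h1⟩ := Metric.uniformContinuousOn_iff.1 h δ hδ
  obtain ⟨n, hn⟩ := exists_nat_one_div_lt hd
  refine ⟨n + 1, Nat.succ_pos _, fun N hN s hs t ht hst => ?_⟩
  have hN' : ((n + 1 : ℕ) : ℝ) ≤ N := by exact_mod_cast hN
  have h2 : (1 : ℝ) / N ≤ 1 / (n + 1) := by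
    push_cast at hN'
    exact one_div_le_one_div_of_le (by positivity) hN'
  have := h1 s hs t ht (by rw [Real.dist_eq]; linarith)
  rwa [dist_eq_norm] at this

theorem mkNice {n : ℕ} {ψ : (Fin n → ℝ) → ℂ} {x y : Fin n} {e : ℝ → ℂ}
    (h : ∀ t ∈ Icc (0:ℝ) 1, ψ (ep x y t) = e (t / 3)) {T : ℂ} {ρ τ θ1 : ℝ} (hρ : 0 < ρ)
    (hτ : τ ∈ Ioo (0:ℝ) (1 / 3)) (h1 : ‖e τ - e 0‖ = ρ) (h2 : ∀ t ∈ Icc τ 1, ρ ≤ ‖e t - e 0‖)
    (hcone : ∀ t ∈ Icc (0:ℝ) (1 / 3), e t - e 0 ∈ Cone T θ1) :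
    NiceE ψ x y T ρ (3 * τ) θ1 ∧ ∀ ρ0, (∀ t ∈ Icc 0 τ, ‖e t - e 0‖ ≤ ρ0) →
      ∀ t ∈ Icc 0 (3 * τ), ‖ψ (ep x y t) - ψ (Pi.single x 1)‖ ≤ ρ0 := by
  have h0 : ψ (Pi.single x 1) = e 0 := by
    have := h 0 ⟨le_rfl, zero_le_one⟩
    rw [zero_div] at this
    rw [← this]
    congr 1
    unfold ep; simp
  obtain ⟨t1, t2⟩ := hτ
  refine ⟨⟨by linarith, by linarith, hρ, ?_, fun t ht => ?_, fun t ht => ?_⟩, fun ρ0 hr t ht => ?_⟩
  · rw [h (3 * τ) ⟨by linarith, by linarith⟩, h0, mul_div_cancel_left₀ _ (by norm_num)]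
    exact h1
  · rw [h t ⟨by linarith [ht.1], ht.2⟩, h0]
    exact h2 _ ⟨by linarith [ht.1], by linarith [ht.2]⟩
  · rw [h t ht, h0]
    exact hcone _ ⟨by linarith [ht.1], by linarith [ht.2]⟩
  · rw [h t ⟨ht.1, by linarith [ht.2]⟩, h0]
    exact hr _ ⟨by linarith [ht.1], by linarith [ht.2]⟩

theorem cyc_nb (i j : Fin m) (c : ZMod 6) (h : (cyc i j c).val ≤ 1) :
    (cyc i j c = vA m ∧ cyc i j (c - 1) = vh j ∧ cyc i j (c + 1) = vh i) ∨
    (cyc i j c = vB m ∧ cyc i j (c - 1) = vg i ∧ cyc i j (c + 1) = vg j) := by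
  change ZMod 6 at c
  fin_cases c
  · exact Or.inl ⟨rfl, rfl, rfl⟩
  · exfalso
    have : (cyc i j 1).val = 2 + i.val := rfl
    change (cyc i j 1).val ≤ 1 at h
    omega
  · exfalso
    have : (cyc i j 2).val = 2 + m + i.val := rfl
    change (cyc i j 2).val ≤ 1 at h
    omega
  · exact Or.inr ⟨rfl, rfl, rfl⟩
  · exfalso
    have : (cyc i j 4).val = 2 + m + j.val := rfl
    change (cyc i j 4).val ≤ 1 at h
    omega
  · exfalso
    have : (cyc i j 5).val = 2 + j.val := rfl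
    change (cyc i j 5).val ≤ 1 at h
    omega

/-- the half tangents -/
def tn (u w : Fin m → ℂ) : Option (Fin m ⊕ Fin m) → ℂ
  | none => 1
  | some (Sum.inl i) => u i
  | some (Sum.inr i) => w i

/-- transversality -/
def Tr (T : Option (Fin m ⊕ Fin m) → ℂ) (rot : ℂ) (C δ : ℝ) : Prop :=
  ∀ (p : Option (Fin m ⊕ Fin m)) (k : ℕ), k ≤ 2 * (2 * m + 2) * (2 * m + 2) → ∀ D v : ℂ,
    ‖D - T p‖ ≤ δ → v = rot * (1 + ((k : ℝ) : ℂ) * I) →
    D.re * v.im - D.im * v.re ≠ 0 ∧ ‖D‖ * ‖v‖ ≤ C * |D.re * v.im - D.im * v.re|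

theorem fin_cone {a b : ℂ} (β : Fin m → ℝ → ℂ) (hc : ∀ i, Continuous (β i))
    (hi : ∀ i, InjOn (β i) (Icc 0 1)) (h0 : ∀ i, β i 0 = a) (h1 : ∀ i, β i 1 = b)
    {u w : Fin m → ℂ} (hu : ∀ i, ‖u i‖ = 1) (hw : ∀ i, ‖w i‖ = 1) {rot : ℂ} (hrot : ‖rot‖ = 1)
    {C δ θ θ1 : ℝ} (hT : Tr (tn u w) rot C δ) (hθ1 : 0 < θ1) (hθδ : θ1 ≤ δ)
    (hCn : (1 + 2 * ((2 * m + 2 : ℕ) : ℝ) * ((2 * m + 2 : ℕ) : ℝ)) *
      (1 + 2 * ((2 * m + 2 : ℕ) : ℝ) * ((2 * m + 2 : ℕ) : ℝ)) ≤ C)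
    (hθ : (8 * C + 18) * θ1 ≤ θ) (hθ2 : θ ≤ 1 / 100)
    (hA : ∀ i, ∀ t ∈ Icc (0:ℝ) (1 / 3), β i t - a ∈ Cone (u i) θ1)
    (hB : ∀ i, ∀ t ∈ Icc (2 / 3 : ℝ) 1, β i t - b ∈ Cone (w i) θ1)
    (hN : ∀ i j, u i ≠ u j → NoPair (u i) (u j) θ)
    (hN' : ∀ i j, w i ≠ w j → NoPair (w i) (w j) θ) :
    ∃ f : Fin m → ZMod 2, ∀ i j, (∀ s ∈ Ioo (0:ℝ) 1, ∀ t ∈ Ioo (0:ℝ) 1, β i s ≠ β j t) →
      u i ≠ u j → w i ≠ w j → NoSq (β i '' Icc 0 1 ∪ β j '' Icc 0 1) → f i + f j = 1 := by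
  classical
  have hC0 : 0 ≤ C := le_trans (by positivity) hCn
  -- directions
  obtain ⟨D, hD1, hD2⟩ := nonpar (tn u w) (by
    intro p
    match p with
    | none => exact norm_one
    | some (Sum.inl i) => exact hu i
    | some (Sum.inr i) => exact hw i) hθ1
  obtain ⟨C2, hC2, hC2'⟩ := pairC D hD2
  obtain ⟨C3, hC3⟩ : ∃ C3, C3 = C + C2 := ⟨_, rfl⟩
  have hC30 : 0 ≤ C3 := by rw [hC3]; positivity
  obtain ⟨ψ, hψ, Hψ⟩ := ex_psi β hc h0 h1
  -- the pairs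
  let Pr : Type := {p : Fin m × Fin m // (p.1 ≠ p.2 ∧
    ∀ s ∈ Ioo (0:ℝ) 1, ∀ t ∈ Ioo (0:ℝ) 1, β p.1 s ≠ β p.2 t) ∧
    NoSq (β p.1 '' Icc 0 1 ∪ β p.2 '' Icc 0 1)}
  have : Finite Pr := Subtype.finite
  have : Fintype Pr := Fintype.ofFinite Pr
  have Wk : ∀ i j : Fin m, i ≠ j → Walk 6 (wk (cyc i j)) := fun i j h => (cyc_isCyc h).walk
  have Lp : ∀ i j : Fin m, i ≠ j → Loop (cv ψ 6 (wk (cyc i j))) := fun i j h =>
    (Wk i j h).cv_loop hψ fun s => (cyc_isCyc h).track_sub (ev_track (cyc i j) s)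
  obtain ⟨ε, hε, He⟩ := exists_min (β := Pr) (P := fun p ε => ∀ q : ℝ → ℂ, Gen q → PLc q →
      (∀ t, ‖q t - cv ψ 6 (wk (cyc p.1.1 p.1.2)) t‖ ≤ ε) →
      (1 : ZMod 2) = ∑ k ∈ Finset.Ico (0:ℤ) ((6:ℕ):ℤ),
      (((Nw q (Icc (((k:ℝ) - 3 / 4) / ((6:ℕ):ℝ)) (((k:ℝ) + 3 / 4) / ((6:ℕ):ℝ))) : ℕ) : ZMod 2) +
       ((Nw q (Icc (((k:ℝ) + 1 / 4) / ((6:ℕ):ℝ)) (((k:ℝ) + 3 / 4) / ((6:ℕ):ℝ))) : ℕ) : ZMod 2)))
    (fun p x y h hyx _ q h1 h2 h3 => h q h1 h2 fun t => (h3 t).trans hyx)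
    (fun p => eps_one (Lp _ _ p.2.1.1) (cyc_inj Hψ p.2.1.1 h0 h1 hi p.2.1.2).1 (by
      rw [(cyc_inj Hψ p.2.1.1 h0 h1 hi p.2.1.2).2]; exact p.2.2) (by norm_num))
  obtain ⟨ε', hε'⟩ : ∃ ε' : ℝ, ε' = ε / (2 * (2 * C3 + 1)) := ⟨_, rfl⟩
  have hε'0 : 0 < ε' := by rw [hε']; positivity
  -- exit times
  choose ρA hρA τA hτA a1 a2 a3 using fun i => exit (hc i) (hi i) (show 0 < ε' / 4 by positivity)
  choose ρB hρB τB hτB b1 b2 b3 using fun i => exit (β := fun t => β i (1 - t))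
    ((hc i).comp (by fun_prop)) (fun s hs t ht h => by
      have := hi i (show 1 - s ∈ Icc (0:ℝ) 1 from ⟨by linarith [hs.2], by linarith [hs.1]⟩)
        (show 1 - t ∈ Icc (0:ℝ) 1 from ⟨by linarith [ht.2], by linarith [ht.1]⟩) h
      linarith) (show 0 < ε' / 4 by positivity)
  have NA := fun i => mkNice (Hψ.eh i) (T := u i) (θ1 := θ1) (hρA i).1 (hτA i) (a1 i) (a2 i)
    (fun t ht => by rw [h0 i]; exact hA i t ht)
  have NB := fun i => mkNice (ψ := ψ) (x := vB m) (y := vg i) (e := fun t => β i (1 - t))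
    (Hψ.eg i) (T := w i) (θ1 := θ1) (hρB i).1 (hτB i) (b1 i) (b2 i) (fun t ht => by
      simp only [sub_zero]
      rw [h1 i]; exact hB i _ ⟨by linarith [ht.2], by linarith [ht.1]⟩)
  let τf : Option (Fin m ⊕ Fin m) → ℝ := fun p => match p with
    | none => 0
    | some (Sum.inl i) => 3 * τA i
    | some (Sum.inr i) => 3 * τB i
  obtain ⟨τ, hτ⟩ : ∃ τ : Fin (2 * m + 2) → Fin (2 * m + 2) → ℝ, τ = fun x y => τf (code x y) :=
    ⟨_, rfl⟩
  obtain ⟨D', hD'⟩ : ∃ D' : Fin (2 * m + 2) → Fin (2 * m + 2) → ℂ, D' = fun x y => D (code x y) :=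
    ⟨_, rfl⟩
  have τeA : ∀ i, τ (vA m) (vh i) = 3 * τA i := fun i => by rw [hτ]; simp only; rw [code_A]
  have τeB : ∀ i, τ (vB m) (vg i) = 3 * τB i := fun i => by rw [hτ]; simp only; rw [code_B]
  have Hτ : ∀ x y, ∀ t ∈ Icc 0 (τ x y), ‖ψ (ep x y t) - ψ (Pi.single x 1)‖ ≤ ε' / 4 := by
    intro x y t ht
    rcases code_cases x y with h | ⟨i, rfl, rfl⟩ | ⟨i, rfl, rfl⟩
    · rw [hτ] at ht
      simp only at ht
      rw [h] at ht
      have : t = 0 := le_antisymm ht.2 ht.1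
      rw [this]
      have : (ep x y 0) = Pi.single x 1 := by unfold ep; simp
      rw [this, sub_self, norm_zero]
      positivity
    · rw [τeA] at ht
      exact (NA i).2 _ (a3 i) t ht
    · rw [τeB] at ht
      exact (NB i).2 _ (b3 i) t ht
  -- minimal radii
  obtain ⟨r1, hr1, hr1'⟩ := exists_min (β := Fin m) (P := fun i x => x ≤ ρA i)
    (fun i x y h h' _ => h'.trans h) fun i => ⟨ρA i, (hρA i).1, le_rfl⟩
  obtain ⟨r2, hr2, hr2'⟩ := exists_min (β := Fin m) (P := fun i x => x ≤ ρB i)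
    (fun i x y h h' _ => h'.trans h) fun i => ⟨ρB i, (hρB i).1, le_rfl⟩
  obtain ⟨r, hr, hr'⟩ : ∃ r > 0, r ≤ r1 ∧ r ≤ r2 :=
    ⟨min r1 r2, lt_min hr1 hr2, min_le_left _ _, min_le_right _ _⟩
  obtain ⟨s1, hs1, hs1'⟩ := exists_min (β := Fin m) (P := fun i x => x ≤ 3 * τA i)
    (fun i x y h h' _ => h'.trans h) fun i => ⟨3 * τA i, by linarith [(hτA i).1], le_rfl⟩
  obtain ⟨s2, hs2, hs2'⟩ := exists_min (β := Fin m) (P := fun i x => x ≤ 3 * τB i)
    (fun i x y h h' _ => h'.trans h) fun i => ⟨3 * τB i, by linarith [(hτB i).1], le_rfl⟩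
  obtain ⟨σ, hσ, hσ'⟩ : ∃ σ > 0, σ ≤ s1 ∧ σ ≤ s2 :=
    ⟨min s1 s2, lt_min hs1 hs2, min_le_left _ _, min_le_right _ _⟩
  obtain ⟨ε1, hε1⟩ : ∃ ε1 : ℝ, ε1 = θ1 * r / (2 * (C + 1)) := ⟨_, rfl⟩
  have hε10 : 0 < ε1 := by rw [hε1]; positivity
  have hε1e : (C + 1) * ε1 = θ1 * r / 2 := by rw [hε1]; field_simp
  -- number of points
  choose N1 hN1 hN1' using fun i => uc (hc i) hε10
  choose N2 hN2 hN2' using fun p : Pr => (Lp _ _ p.2.1.1).fine (show 0 < ε' / 2 by positivity)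
  obtain ⟨N3, hN3⟩ := exists_nat_gt (1 / σ)
  obtain ⟨M, hMd⟩ : ∃ M, M = 9 + N3 + ∑ i, N1 i + ∑ p, N2 p := ⟨_, rfl⟩
  have hM9 : 9 ≤ M := by omega
  have hM1 : ∀ i, N1 i ≤ M := fun i => by
    have := Finset.single_le_sum (f := N1) (fun i _ => Nat.zero_le _) (Finset.mem_univ i)
    omega
  have hM2 : ∀ p, N2 p ≤ M := fun p => by
    have := Finset.single_le_sum (f := N2) (fun i _ => Nat.zero_le _) (Finset.mem_univ p)
    omega
  have hM9' : (9:ℝ) ≤ M := by exact_mod_cast hM9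
  have hM3 : 1 / ((M:ℝ) - 1) ≤ σ := by
    have h3 : (N3:ℝ) + 9 ≤ M := by
      have : N3 + 9 ≤ M := by omega
      exact_mod_cast this
    rw [div_le_iff₀ (by linarith)]
    rw [div_lt_iff₀ hσ] at hN3
    nlinarith
  have : NeZero M := ⟨by omega⟩
  obtain ⟨ε'', hε''⟩ : ∃ ε'' : ℝ, ε'' = min (θ1 * r / 2) (ε / 2) := ⟨_, rfl⟩
  have hε''0 : 0 < ε'' := by rw [hε'']; exact lt_min (by positivity) (by positivity)
  have e1' : ε'' ≤ θ1 * r / 2 := by rw [hε'']; exact min_le_left _ _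
  have e2' : ε'' ≤ ε / 2 := by rw [hε'']; exact min_le_right _ _
  have hDR : ∀ (x y : Fin (2 * m + 2)) (z : Ix (2 * m + 2) M),
      An.cr (D' x y) (rot * d0 z) ≠ 0 ∧
      ‖D' x y‖ * ‖rot * d0 z‖ ≤ C * |An.cr (D' x y) (rot * d0 z)| := by
    intro x y z
    have := hT (code x y) (sl z) (sl_le z) (D' x y) (rot * d0 z) (by
      rw [hD']; exact (hD1 _).trans hθδ) rfl
    exact this
  have hdd : ∀ z : Ix (2 * m + 2) M, dd rot D' z ≠ 0 := by
    intro z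
    unfold dd
    split_ifs with h
    · intro h'
      have := (hDR z.1 z.2.1 z).1
      rw [h'] at this
      apply this
      unfold An.cr; simp
    · intro h'
      have := (hDR z.1 z.2.1 z).1
      rw [h'] at this
      apply this
      unfold An.cr; simp
  obtain ⟨d, κ, G, hcl⟩ := exGf (ι := Ix (2 * m + 2) M) (dd rot D') hdd
    (fun z => An.cr (dd rot D' z) (pb ψ τ z)) hε''0
  have third : ∀ s ∈ Icc (0:ℝ) 1, s / 3 ∈ Icc (0:ℝ) 1 := fun s hs =>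
    ⟨by linarith [hs.1], by linarith [hs.2]⟩
  have close3 : ∀ s t : ℝ, |s - t| ≤ 1 / ((M:ℝ) - 1) → |s / 3 - t / 3| ≤ 1 / M := by
    intro s t h
    rw [← sub_div, abs_div, abs_of_pos (show (0:ℝ) < 3 by norm_num)]
    have : 1 / ((M:ℝ) - 1) ≤ 3 * (1 / M) := by
      rw [mul_one_div, div_le_div_iff₀ (by linarith) (by linarith)]
      linarith
    rw [div_le_iff₀ (by norm_num)]
    linarith
  obtain ⟨VA1, fA, VA2⟩ := vertex (ψ := ψ) (d := d) (κ := κ) (by omega) (D := D') (τ := τ)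
    (ρ := ρA) (T := u) (x := vA m) (y := vh) (ε1 := ε1) hrot (by show (0:ℕ) ≤ 1; omega)
    (fun i => by show (0:ℕ) < 2 + i.val; omega) vh_inj hCn hu
    (fun i => by rw [hD']; simp only; rw [code_A]; exact hD1 (some (Sum.inl i))) hθ1.le G hcl
    (fun i j hij => by
      rw [hD']; simp only; rw [code_A, code_A]
      exact hD2 _ _ (by simp [hij.symm]))
    (fun i => hDR _ _ _) (fun i => by rw [τeA]; exact (NA i).1)
    (fun i => by rw [τeA]; exact hM3.trans (hσ'.1.trans (hs1' i)))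
    (fun i s hs t ht hst => by
      rw [Hψ.eh i s hs, Hψ.eh i t ht]
      exact (hN1' i M (hM1 i) _ (third s hs) _ (third t ht) (close3 s t hst)).le)
    (fun i => by rw [hε1e]; have := hr'.1.trans (hr1' i); gcongr)
    (fun i => e1'.trans (by have := hr'.1.trans (hr1' i); gcongr)) hθ hθ2
  obtain ⟨VB1, fB, VB2⟩ := vertex (ψ := ψ) (d := d) (κ := κ) (by omega) (D := D') (τ := τ)
    (ρ := ρB) (T := w) (x := vB m) (y := vg) (ε1 := ε1) hrot (by show (1:ℕ) ≤ 1; omega)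
    (fun i => by show (1:ℕ) < 2 + m + i.val; omega) vg_inj hCn hw
    (fun i => by rw [hD']; simp only; rw [code_B]; exact hD1 (some (Sum.inr i))) hθ1.le G hcl
    (fun i j hij => by
      rw [hD']; simp only; rw [code_B, code_B]
      exact hD2 _ _ (by simp [hij.symm]))
    (fun i => hDR _ _ _) (fun i => by rw [τeB]; exact (NB i).1)
    (fun i => by rw [τeB]; exact hM3.trans (hσ'.2.trans (hs2' i)))
    (fun i s hs t ht hst => by
      rw [Hψ.eg i s hs, Hψ.eg i t ht]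
      refine (hN1' i M (hM1 i) _ ?_ _ ?_ ?_).le
      · have := third s hs
        exact ⟨by linarith [this.2], by linarith [this.1]⟩
      · have := third t ht
        exact ⟨by linarith [this.2], by linarith [this.1]⟩
      · rw [show 1 - s / 3 - (1 - t / 3) = -(s / 3 - t / 3) by ring, abs_neg]
        exact close3 s t hst)
    (fun i => by rw [hε1e]; have := hr'.2.trans (hr2' i); gcongr)
    (fun i => e1'.trans (by have := hr'.2.trans (hr2' i); gcongr)) hθ hθ2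
  refine ⟨fun i => fA i + fB i + Cn d κ (vA m) (vh i) (vg i) + Cn d κ (vh i) (vg i) (vB m) +
    En d κ (vA m) (vh i) + En d κ (vh i) (vg i) + En d κ (vg i) (vB m), fun i j hd hui hwi hno => ?_⟩
  have hij : i ≠ j := fun h => hui (by rw [h])
  have W := Wk i j hij
  obtain ⟨p, hp⟩ : ∃ p : Pr, p = ⟨(i, j), ⟨hij, hd⟩, hno⟩ := ⟨_, rfl⟩
  have hclose : ∀ t, ‖qv M 6 (wk (cyc i j)) d κ t - cv ψ 6 (wk (cyc i j)) t‖ ≤ ε := by
    have hC3n : (1 + 2 * ((2 * m + 2 : ℕ) : ℝ) * ((2 * m + 2 : ℕ) : ℝ)) *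
      (1 + 2 * ((2 * m + 2 : ℕ) : ℝ) * ((2 * m + 2 : ℕ) : ℝ)) ≤ C3 := by
      rw [hC3]; linarith
    have nb : ∀ k : ℤ, ((wk (cyc i j)) k).val ≤ 1 →
        (wk (cyc i j) k = vA m ∧ wk (cyc i j) (k - 1) = vh j ∧ wk (cyc i j) (k + 1) = vh i) ∨
        (wk (cyc i j) k = vB m ∧ wk (cyc i j) (k - 1) = vg i ∧ wk (cyc i j) (k + 1) = vg j) := by
      intro k hk
      have := cyc_nb i j (k : ZMod 6) hk
      have q1 : (((k - 1 : ℤ)) : ZMod 6) = (k : ZMod 6) - 1 := by push_cast; rfl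
      have q2 : (((k + 1 : ℤ)) : ZMod 6) = (k : ZMod 6) + 1 := by push_cast; rfl
      unfold wk
      rw [q1, q2]
      exact this
    have sv := fun N => cr_sv W (M := M) (by omega) (rot := rot) (D := D') hrot (C := C3) hC3n
      (fun x y z _ => ⟨(hDR _ _ _).1, (hDR _ _ _).2.trans (by
        rw [hC3]
        exact mul_le_mul_of_nonneg_right (by linarith) (abs_nonneg _))⟩)
      (fun k hk => by
        rcases nb k hk with ⟨n1, n2, n3⟩ | ⟨n1, n2, n3⟩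
        · rw [n1, n2, n3, hD']
          simp only
          rw [code_A, code_A]
          have hne : (some (Sum.inl j) : Option (Fin m ⊕ Fin m)) ≠ some (Sum.inl i) := by
            simp [hij.symm]
          exact ⟨hD2 _ _ hne, (hC2' _ _ hne).trans (by
            rw [hC3]
            exact mul_le_mul_of_nonneg_right (by linarith) (abs_nonneg _))⟩
        · rw [n1, n2, n3, hD']
          simp only
          rw [code_B, code_B]
          have hne : (some (Sum.inr i) : Option (Fin m ⊕ Fin m)) ≠ some (Sum.inr j) := by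
            simp [hij]
          exact ⟨hD2 _ _ hne, (hC2' _ _ hne).trans (by
            rw [hC3]
            exact mul_le_mul_of_nonneg_right (by linarith) (abs_nonneg _))⟩)
      (fun k hk => by
        rcases nb k hk with ⟨n1, n2, n3⟩ | ⟨n1, n2, n3⟩
        · rw [n2, n3]
          constructor
          · show (1:ℕ) < 2 + i.val; omega
          · show (1:ℕ) < 2 + j.val; omega
        · rw [n2, n3]
          constructor
          · show (1:ℕ) < 2 + m + j.val; omega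
          · show (1:ℕ) < 2 + m + i.val; omega) N
    intro t
    refine close_gen W (by omega) (d1 := dd rot D') (P1 := pb ψ τ) (C := C3) (ε' := ε')
      (ε'' := ε'') hC30 (fun N => (sv N).1) (fun N => (sv N).2) hcl (fun N t ht => ?_) ?_ t
    · have := pb_near (ψ := ψ) (τ := τ) (ρ0 := ε' / 4) (ε' := ε' / 2) W (M := M) (by omega)
        (by positivity) Hτ (fun s t hst => by
          have := hN2' p M (hM2 p) s t (hst.trans ?_)
          · rw [hp] at this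
            exact this
          · push_cast
            rw [div_le_div_iff₀ (by positivity) (by positivity)]
            linarith) N t ht
      linarith
    · have : (2 * C3 + 1) * ε' = ε / 2 := by rw [hε']; field_simp
      linarith
  have hg := W.gen (M := M) (by omega) G
  have h1s := He p _ hg.1 hg.2 (by rw [hp]; exact hclose)
  have hs : (1 : ZMod 2) = ∑ k ∈ Finset.Ico (0:ℤ) ((6:ℕ):ℤ),
      (Cn d κ (wk (cyc i j) (k - 1)) (wk (cyc i j) k) (wk (cyc i j) (k + 1)) +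
       En d κ (wk (cyc i j) k) (wk (cyc i j) (k + 1))) := by
    rw [h1s]
    refine Finset.sum_congr rfl fun k _ => ?_
    rw [(W.win_c (by omega) d κ k).1, (W.win_e (by omega) d κ k).1]
    rfl
  rw [sum_Ico_range] at hs
  simp only [Finset.sum_range_succ, Finset.sum_range_zero] at hs
  have c0 := split W (by omega) G 0 (hN i j hui) (VA1 i j hij) (VA1 j i hij.symm)
  have c3 := split W (by omega) G 3 (hN' j i hwi.symm) (VB1 j i hij.symm) (VB1 i j hij)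
  have c4 := W.sym_c (M := M) (by omega) G 4
  have c5 := W.sym_c (M := M) (by omega) G 5
  have d3 := W.sym_e (M := M) (by omega) G 3
  have d4 := W.sym_e (M := M) (by omega) G 4
  have d5 := W.sym_e (M := M) (by omega) G 5
  have s0 := VA2 i j hij
  have s0' := VA2 j i hij.symm
  have s3 := VB2 i j hij
  have s3' := VB2 j i hij.symm
  change Cn d κ (vh j) (vA m) (vh i) = Bx d κ (vA m) (vh j) (vh i) + Bx d κ (vA m) (vh i) (vh j) at c0
  change Cn d κ (vg i) (vB m) (vg j) = Bx d κ (vB m) (vg i) (vg j) + Bx d κ (vB m) (vg j) (vg i) at c3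
  change Cn d κ (vB m) (vg j) (vh j) = Cn d κ (vh j) (vg j) (vB m) at c4
  change Cn d κ (vg j) (vh j) (vA m) = Cn d κ (vA m) (vh j) (vg j) at c5
  change En d κ (vB m) (vg j) = En d κ (vg j) (vB m) at d3
  change En d κ (vg j) (vh j) = En d κ (vh j) (vg j) at d4
  change En d κ (vh j) (vA m) = En d κ (vA m) (vh j) at d5
  change (1 : ZMod 2) = 0 + (Cn d κ (vh j) (vA m) (vh i) + En d κ (vA m) (vh i)) +
    (Cn d κ (vA m) (vh i) (vg i) + En d κ (vh i) (vg i)) +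
    (Cn d κ (vh i) (vg i) (vB m) + En d κ (vg i) (vB m)) +
    (Cn d κ (vg i) (vB m) (vg j) + En d κ (vB m) (vg j)) +
    (Cn d κ (vB m) (vg j) (vh j) + En d κ (vg j) (vh j)) +
    (Cn d κ (vg j) (vh j) (vA m) + En d κ (vh j) (vA m)) at hs
  rw [c0, c3, c4, c5, d3, d4, d5, s0, s0', s3, s3'] at hs
  rw [hs]
  ring

end Pool.Agent.H687.TC
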