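import Pool.Agent.H687.TC.Fin
import Pool.Agent.H687.TC.Col

/-! Charges of arcs with half tangents. -/

set_option autoImplicit false
open Complex Set Topology Metric Filter

namespace Pool.Agent.H687.TC

open Pool.Agent.H763R2 Pool.Agent.H763R2.An Pool.Agent.Y535.PEG Pool.Agent.H687.K4
open Pool.Agent.H763R2.Dm (NoSq)
open Pool.Agent.H687.KC (wk)

variable {m : ℕ}

/-- `α`, restricted to `[0, 1]`, is an arc from `a` to `b` that leaves `a` in the direction `u` and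
leaves `b` (when traversed backwards) in the direction `w` -/
structure HalfTan (a b u w : ℂ) (α : ℝ → ℂ) : Prop where
  cont : ContinuousOn α (Icc 0 1)
  inj : InjOn α (Icc 0 1)
  zero : α 0 = a
  one : α 1 = b
  tan0 : Tendsto (fun t => (α t - a) / (‖α t - a‖ : ℂ)) (𝓝[>] 0) (𝓝 u)
  tan1 : Tendsto (fun t => (α t - b) / (‖α t - b‖ : ℂ)) (𝓝[<] 1) (𝓝 w)

theorem HalfTan.nu {a b u w : ℂ} {α : ℝ → ℂ} (H : HalfTan a b u w α) : ‖u‖ = 1 := by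
  have h1 := H.tan0.norm
  refine tendsto_nhds_unique h1 ((tendsto_const_nhds (x := (1:ℝ))).congr' ?_)
  filter_upwards [Ioo_mem_nhdsGT (show (0:ℝ) < 1 by norm_num)] with t ht
  have h2 : α t - a ≠ 0 := by
    intro h
    have := H.inj ⟨ht.1.le, ht.2.le⟩ ⟨le_rfl, zero_le_one⟩ ((sub_eq_zero.1 h).trans H.zero.symm)
    linarith [ht.1]
  rw [norm_div, norm_real, norm_norm, div_self (norm_ne_zero_iff.2 h2)]

theorem HalfTan.nw {a b u w : ℂ} {α : ℝ → ℂ} (H : HalfTan a b u w α) : ‖w‖ = 1 := by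
  have h1 := H.tan1.norm
  refine tendsto_nhds_unique h1 ((tendsto_const_nhds (x := (1:ℝ))).congr' ?_)
  filter_upwards [Ioo_mem_nhdsLT (show (0:ℝ) < 1 by norm_num)] with t ht
  have h2 : α t - b ≠ 0 := by
    intro h
    have := H.inj ⟨ht.1.le, ht.2.le⟩ ⟨zero_le_one, le_rfl⟩ ((sub_eq_zero.1 h).trans H.one.symm)
    linarith [ht.2]
  rw [norm_div, norm_real, norm_norm, div_self (norm_ne_zero_iff.2 h2)]

theorem HalfTan.repar {a b u w : ℂ} {α : ℝ → ℂ} (H : HalfTan a b u w α) {θ : ℝ} (hθ : 0 < θ) :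
    ∃ β : ℝ → ℂ, Continuous β ∧ InjOn β (Icc 0 1) ∧
      β '' Icc 0 1 = α '' Icc 0 1 ∧ β '' Ioo 0 1 = α '' Ioo 0 1 ∧ β 0 = a ∧ β 1 = b ∧
      (∀ t ∈ Icc (0:ℝ) (1 / 3), β t - a ∈ Cone u θ) ∧
      ∀ t ∈ Icc (2 / 3 : ℝ) 1, β t - b ∈ Cone w θ := by
  obtain ⟨β, b1, b2, b3, b4, b5, b6, b7, b8⟩ := TC.repar H.cont H.inj (u := u) (w := w)
    (by rw [H.zero]; exact H.tan0) (by rw [H.one]; exact H.tan1) hθ
  rw [b5, H.zero] at b7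
  rw [b6, H.one] at b8
  exact ⟨β, b1, b2, b3, b4, b5.trans H.zero, b6.trans H.one, b7, b8⟩

theorem disj_of {α α' β β' : ℝ → ℂ} (h1 : β '' Ioo 0 1 = α '' Ioo 0 1)
    (h2 : β' '' Ioo 0 1 = α' '' Ioo 0 1)
    (hd : ∀ s ∈ Ioo (0:ℝ) 1, ∀ t ∈ Ioo (0:ℝ) 1, α s ≠ α' t) :
    ∀ s ∈ Ioo (0:ℝ) 1, ∀ t ∈ Ioo (0:ℝ) 1, β s ≠ β' t := by
  intro s hs t ht h
  have e1 : β s ∈ α '' Ioo 0 1 := h1 ▸ mem_image_of_mem β hs
  have e2 : β' t ∈ α' '' Ioo 0 1 := h2 ▸ mem_image_of_mem β' ht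
  obtain ⟨s', hs', e1⟩ := e1
  obtain ⟨t', ht', e2⟩ := e2
  exact hd s' hs' t' ht' (by rw [e1, e2, h])

theorem finite {a b : ℂ} (α : Fin m → ℝ → ℂ) (u w : Fin m → ℂ)
    (H : ∀ i, HalfTan a b (u i) (w i) (α i)) :
    ∃ f : Fin m → ZMod 2, ∀ i j, (∀ s ∈ Ioo (0:ℝ) 1, ∀ t ∈ Ioo (0:ℝ) 1, α i s ≠ α j t) →
      u i ≠ u j → w i ≠ w j → NoSq (α i '' Icc 0 1 ∪ α j '' Icc 0 1) → f i + f j = 1 := by
  have hu := fun i => (H i).nu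
  have hw := fun i => (H i).nw
  obtain ⟨θ0, hθ0, Hθ⟩ := exists_min (β := Fin m × Fin m) (P := fun p x =>
    (u p.1 ≠ u p.2 → ∀ θ ≤ x, NoPair (u p.1) (u p.2) θ) ∧
    (w p.1 ≠ w p.2 → ∀ θ ≤ x, NoPair (w p.1) (w p.2) θ))
    (fun p x y h hyx _ => ⟨fun h1 θ hθ => h.1 h1 θ (hθ.trans hyx),
      fun h1 θ hθ => h.2 h1 θ (hθ.trans hyx)⟩)
    (fun p => by
      obtain ⟨x, hx, hx'⟩ : ∃ x > 0, u p.1 ≠ u p.2 → ∀ θ ≤ x, NoPair (u p.1) (u p.2) θ := by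
        by_cases h : u p.1 = u p.2
        · exact ⟨1, one_pos, fun h' => absurd h h'⟩
        · obtain ⟨x, hx, hx'⟩ := cone_pair (hu p.1) (hu p.2) h
          exact ⟨x, hx, fun _ => hx'⟩
      obtain ⟨y, hy, hy'⟩ : ∃ x > 0, w p.1 ≠ w p.2 → ∀ θ ≤ x, NoPair (w p.1) (w p.2) θ := by
        by_cases h : w p.1 = w p.2
        · exact ⟨1, one_pos, fun h' => absurd h h'⟩
        · obtain ⟨x, hx, hx'⟩ := cone_pair (hw p.1) (hw p.2) h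
          exact ⟨x, hx, fun _ => hx'⟩
      exact ⟨min x y, lt_min hx hy, fun h θ hθ => hx' h θ (hθ.trans (min_le_left _ _)),
        fun h θ hθ => hy' h θ (hθ.trans (min_le_right _ _))⟩)
  obtain ⟨θ, hθ, hθ1, hθ2⟩ : ∃ θ > 0, θ ≤ θ0 ∧ θ ≤ 1 / 100 :=
    ⟨min θ0 (1 / 100), lt_min hθ0 (by norm_num), min_le_left _ _, min_le_right _ _⟩
  obtain ⟨rot, hrot, C', hC', δ, hδ, hT⟩ := exrot (tn u w) (by
    intro p
    match p with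
    | none => exact norm_one
    | some (Sum.inl i) => exact hu i
    | some (Sum.inr i) => exact hw i) (2 * (2 * m + 2) * (2 * m + 2))
  obtain ⟨C, hCC, hCn⟩ : ∃ C, C' ≤ C ∧
      (1 + 2 * ((2 * m + 2 : ℕ) : ℝ) * ((2 * m + 2 : ℕ) : ℝ)) *
      (1 + 2 * ((2 * m + 2 : ℕ) : ℝ) * ((2 * m + 2 : ℕ) : ℝ)) ≤ C :=
    ⟨max C' _, le_max_left _ _, le_max_right _ _⟩
  have hC0 : 0 < C := lt_of_lt_of_le hC' hCC
  obtain ⟨θ1, h1, h2, h3⟩ : ∃ θ1 > 0, θ1 ≤ δ ∧ (8 * C + 18) * θ1 ≤ θ := by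
    refine ⟨min δ (θ / (8 * C + 18)), lt_min hδ (by positivity), min_le_left _ _, ?_⟩
    have := min_le_right δ (θ / (8 * C + 18))
    rw [le_div_iff₀ (by positivity)] at this
    linarith
  choose β b1 b2 b3 b4 b5 b6 b7 b8 using fun i => (H i).repar h1
  obtain ⟨f, hf⟩ := fin_cone β b1 b2 b5 b6 hu hw hrot (C := C) (δ := δ) (θ := θ) (θ1 := θ1)
    (fun p k hk D v hD hv => ⟨(hT p k hk D v hD hv).1, ((hT p k hk D v hD hv).2).trans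
      (mul_le_mul_of_nonneg_right hCC (abs_nonneg _))⟩) h1 h2 hCn h3 hθ2 b7 b8
    (fun i j h => (Hθ (i, j)).1 h θ hθ1) (fun i j h => (Hθ (i, j)).2 h θ hθ1)
  refine ⟨f, fun i j hd hui hwi hno => hf i j (disj_of (b4 i) (b4 j) hd) hui hwi ?_⟩
  rw [b3, b3]
  exact hno

/-- **Charges of arcs.** -/
theorem charge (a b : ℂ) : ∃ χ : (ℝ → ℂ) → ZMod 2, ∀ (α β : ℝ → ℂ) (u u' w w' : ℂ),
    HalfTan a b u w α → HalfTan a b u' w' β →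
    (∀ s ∈ Ioo (0:ℝ) 1, ∀ t ∈ Ioo (0:ℝ) 1, α s ≠ β t) → u ≠ u' → w ≠ w' →
    NoSq (α '' Icc 0 1 ∪ β '' Icc 0 1) → χ α + χ β = 1 := by
  classical
  obtain ⟨χ, hχ⟩ := colour (X := {α : ℝ → ℂ // ∃ p : ℂ × ℂ, HalfTan a b p.1 p.2 α})
    (fun α β => ∃ u u' w w', HalfTan a b u w α.1 ∧ HalfTan a b u' w' β.1 ∧
    (∀ s ∈ Ioo (0:ℝ) 1, ∀ t ∈ Ioo (0:ℝ) 1, α.1 s ≠ β.1 t) ∧ u ≠ u' ∧ w ≠ w' ∧
    NoSq (α.1 '' Icc 0 1 ∪ β.1 '' Icc 0 1)) (fun m x _ => by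
      choose p hp using fun i => (x i).2
      obtain ⟨f, hf⟩ := finite (fun i => (x i).1) (fun i => (p i).1) (fun i => (p i).2) hp
      refine ⟨f, fun i j ⟨u, u', w, w', h1, h2, h3, h4, h5, h6⟩ => ?_⟩
      have e1 := tendsto_nhds_unique h1.tan0 (hp i).tan0
      have e2 := tendsto_nhds_unique h2.tan0 (hp j).tan0
      have e3 := tendsto_nhds_unique h1.tan1 (hp i).tan1
      have e4 := tendsto_nhds_unique h2.tan1 (hp j).tan1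
      exact hf i j h3 (by rw [← e1, ← e2]; exact h4) (by rw [← e3, ← e4]; exact h5) h6)
  refine ⟨fun α => if h : ∃ p : ℂ × ℂ, HalfTan a b p.1 p.2 α then χ ⟨α, h⟩ else 0,
    fun α β u u' w w' h1 h2 h3 h4 h5 h6 => ?_⟩
  have g1 : ∃ p : ℂ × ℂ, HalfTan a b p.1 p.2 α := ⟨(u, w), h1⟩
  have g2 : ∃ p : ℂ × ℂ, HalfTan a b p.1 p.2 β := ⟨(u', w'), h2⟩
  simp only [dif_pos g1, dif_pos g2]
  exact hχ _ _ ⟨u, u', w, w', h1, h2, h3, h4, h5, h6⟩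

/-- two arcs form a Jordan curve -/
theorem joined {a b u u' w w' : ℂ} {α β : ℝ → ℂ} (h1 : HalfTan a b u w α)
    (h2 : HalfTan a b u' w' β) (hd : ∀ s ∈ Ioo (0:ℝ) 1, ∀ t ∈ Ioo (0:ℝ) 1, α s ≠ β t) :
    ∃ γ : Circle → ℂ, Continuous γ ∧ Function.Injective γ ∧
      range γ = α '' Icc 0 1 ∪ β '' Icc 0 1 := by
  obtain ⟨α', a1, a2, a3, a4, a5, a6, -, -⟩ := h1.repar one_pos
  obtain ⟨β', b1, b2, b3, b4, b5, b6, -, -⟩ := h2.repar one_pos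
  have hc : ∀ i, Continuous ((![α', β'] : Fin 2 → ℝ → ℂ) i) := by
    intro i; fin_cases i
    · exact a1
    · exact b1
  have h0 : ∀ i, (![α', β'] : Fin 2 → ℝ → ℂ) i 0 = a := by
    intro i; fin_cases i
    · exact a5
    · exact b5
  have h1' : ∀ i, (![α', β'] : Fin 2 → ℝ → ℂ) i 1 = b := by
    intro i; fin_cases i
    · exact a6
    · exact b6
  have hi : ∀ i, InjOn ((![α', β'] : Fin 2 → ℝ → ℂ) i) (Icc 0 1) := by
    intro i; fin_cases i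
    · exact a2
    · exact b2
  obtain ⟨ψ, hψ, Hψ⟩ := ex_psi ![α', β'] hc h0 h1'
  have hij : (0 : Fin 2) ≠ 1 := by decide
  have hj := cyc_inj Hψ hij h0 h1' hi (disj_of a4 b4 hd)
  have hl : Loop (cv ψ 6 (wk (cyc (0 : Fin 2) 1))) :=
    (cyc_isCyc hij).walk.cv_loop hψ fun s => (cyc_isCyc hij).track_sub (ev_track (cyc 0 1) s)
  refine ⟨cir hl, cir_cont hl, cir_inj hl hj.1, ?_⟩
  rw [range_cir, hj.2]
  show α' '' Icc 0 1 ∪ β' '' Icc 0 1 = _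
  rw [a3, b3]

end Pool.Agent.H687.TC
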