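import Pool.Agent.H687.TC.CDefs

/-! Lines with one straight line at the nice vertices: closeness. -/

set_option autoImplicit false
open Complex Set Topology Metric

namespace Pool.Agent.H687.TC

open Pool.Agent.H763R2 Pool.Agent.H763R2.An Pool.Agent.Y535.PEG Pool.Agent.H687.K4
open Pool.Agent.H687.KC

variable {n L M : ℕ} {v : ℤ → Fin n} {ψ : (Fin n → ℝ) → ℂ}

/-- position of the intersection of two lines -/
theorem Xl_near3 {u v P1 P2 : ℂ} {C : ℝ} (h0 : An.cr u v ≠ 0) (h : ‖u‖ * ‖v‖ ≤ C * |An.cr u v|) :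
    ‖Xl u v (An.cr u P1) (An.cr v P2) - P1‖ ≤ C * ‖P2 - P1‖ := by
  have h0' : ((An.cr u v : ℝ) : ℂ) ≠ 0 := by exact_mod_cast h0
  have key : Xl u v (An.cr u P1) (An.cr v P2) - P1 =
      -(((An.cr v (P2 - P1) : ℝ) : ℂ) * u) / ((An.cr u v : ℝ) : ℂ) := by
    have e : ((An.cr u P1 : ℝ) : ℂ) * v - ((An.cr v P1 : ℝ) : ℂ) * u =
        ((An.cr u v : ℝ) : ℂ) * P1 := by
      unfold An.cr
      apply Complex.ext <;> simp <;> ring
    unfold Xl
    rw [cr_sub, eq_div_iff h0', sub_mul, div_mul_cancel₀ _ h0']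
    push_cast
    linear_combination e
  have hp : 0 < |An.cr u v| := abs_pos.2 h0
  rw [key, norm_div, norm_neg, norm_mul, norm_real, norm_real, Real.norm_eq_abs, Real.norm_eq_abs,
    div_le_iff₀ hp]
  have h1 := cr_norm v (P2 - P1)
  calc |An.cr v (P2 - P1)| * ‖u‖ ≤ (‖v‖ * ‖P2 - P1‖) * ‖u‖ :=
        mul_le_mul_of_nonneg_right h1 (norm_nonneg _)
    _ = (‖u‖ * ‖v‖) * ‖P2 - P1‖ := by ring
    _ ≤ (C * |An.cr u v|) * ‖P2 - P1‖ := mul_le_mul_of_nonneg_right h (norm_nonneg _)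
    _ = C * ‖P2 - P1‖ * |An.cr u v| := by ring

theorem Xl_pt {u v : ℂ} (h0 : An.cr u v ≠ 0) (P : ℂ) :
    Xl u v (An.cr u P) (An.cr v P) = P := by
  have h0' : ((An.cr u v : ℝ) : ℂ) ≠ 0 := by exact_mod_cast h0
  unfold Xl
  rw [div_eq_iff h0']
  unfold An.cr
  apply Complex.ext <;> simp <;> ring

theorem cr_Xl {u v : ℂ} (h0 : An.cr u v ≠ 0) (a b : ℝ) :
    An.cr u (Xl u v a b) = a ∧ An.cr v (Xl u v a b) = b := by
  have e : ((An.cr u v : ℝ) : ℂ) * Xl u v a b = (a : ℂ) * v - (b : ℂ) * u := by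
    unfold Xl
    have h0' : ((An.cr u v : ℝ) : ℂ) ≠ 0 := by exact_mod_cast h0
    field_simp
  have er := congrArg Complex.re e
  have ei := congrArg Complex.im e
  simp only [mul_re, mul_im, ofReal_re, ofReal_im, zero_mul, sub_zero, add_zero, sub_re,
    sub_im] at er ei
  constructor
  · apply mul_left_cancel₀ h0
    unfold An.cr at *
    linear_combination u.re * ei - u.im * er
  · apply mul_left_cancel₀ h0
    unfold An.cr at *
    linear_combination v.re * ei - v.im * er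

/-- general closeness -/
theorem close_gen (W : Walk L v) (hM : 0 < M) {d : Ix n M → ℂ} {κ : Ix n M → ℝ}
    {d1 P1 : Ix n M → ℂ} {c : ℝ → ℂ} {C ε ε' ε'' : ℝ} (hC : 0 ≤ C)
    (hcr0 : ∀ N, An.cr (d1 (sv M v (N - 1))) (d1 (sv M v N)) ≠ 0)
    (hcr : ∀ N, ‖d1 (sv M v (N - 1))‖ * ‖d1 (sv M v N)‖ ≤
      C * |An.cr (d1 (sv M v (N - 1))) (d1 (sv M v N))|)
    (hcl : ∀ i j, An.cr (d1 i) (d1 j) ≠ 0 → ‖Xl (d i) (d j) (κ i) (κ j) -
      Xl (d1 i) (d1 j) (An.cr (d1 i) (P1 i)) (An.cr (d1 j) (P1 j))‖ < ε'')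
    (hP : ∀ (N : ℤ) (t : ℝ), |t - N / ((L * M : ℕ) : ℝ)| ≤ 2 / ((L * M : ℕ) : ℝ) →
      ‖P1 (sv M v N) - c t‖ ≤ ε')
    (hε : (2 * C + 1) * ε' + ε'' ≤ ε) (t : ℝ) :
    ‖qv M L v d κ t - c t‖ ≤ ε := by
  have h3 := W.L3
  have h4 : 0 < L * M := by positivity
  have : NeZero (L * M) := ⟨by omega⟩
  have hm0 : (0:ℝ) < ((L * M : ℕ) : ℝ) := by exact_mod_cast h4
  refine near_poly h4 (fun N t ht => ?_) t
  have hV : Vx (d ∘ sC (L * M) (sv M v)) (κ ∘ sC (L * M) (sv M v)) N = Vp d κ (sv M v) N := by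
    unfold Vx Vp
    simp only [Function.comp_apply, sC_cast (W.sv_per (show 0 < M by omega))]
  rw [hV]
  have g1 := hcl _ _ (hcr0 N)
  have g2 := Xl_near3 (P1 := P1 (sv M v (N - 1))) (P2 := P1 (sv M v N)) (hcr0 N) (hcr N)
  rw [abs_le] at ht
  set mm := ((L * M : ℕ) : ℝ) with hmm
  have q1 : ((N - 1 : ℤ) : ℝ) / mm = (N:ℝ) / mm - 1 / mm := by push_cast; rw [sub_div]
  have q4 : (2:ℝ) / mm = 1 / mm + 1 / mm := by ring
  have q5 : (0:ℝ) < 1 / mm := by positivity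
  have f1 := hP (N - 1) t (by
    rw [q1, q4, abs_le]; constructor <;> linarith [ht.1, ht.2])
  have f2 := hP N t (by
    rw [q4, abs_le]; constructor <;> linarith [ht.1, ht.2])
  have f3 : ‖P1 (sv M v N) - P1 (sv M v (N - 1))‖ ≤ ε' + ε' := by
    have := norm_sub_le (P1 (sv M v N) - c t) (P1 (sv M v (N - 1)) - c t)
    rw [sub_sub_sub_cancel_right] at this
    linarith
  have e : Vp d κ (sv M v) N - c t =
      (Vp d κ (sv M v) N - Xl (d1 (sv M v (N - 1))) (d1 (sv M v N))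
        (An.cr (d1 (sv M v (N - 1))) (P1 (sv M v (N - 1))))
        (An.cr (d1 (sv M v N)) (P1 (sv M v N)))) +
      (Xl (d1 (sv M v (N - 1))) (d1 (sv M v N))
        (An.cr (d1 (sv M v (N - 1))) (P1 (sv M v (N - 1))))
        (An.cr (d1 (sv M v N)) (P1 (sv M v N))) - P1 (sv M v (N - 1))) +
      (P1 (sv M v (N - 1)) - c t) := by ring
  rw [e]
  refine (norm_add₃_le).trans ?_
  have g3 : C * ‖P1 (sv M v N) - P1 (sv M v (N - 1))‖ ≤ C * (ε' + ε') :=
    mul_le_mul_of_nonneg_left f3 hC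
  have g4 : ‖Vp d κ (sv M v) N - Xl (d1 (sv M v (N - 1))) (d1 (sv M v N))
        (An.cr (d1 (sv M v (N - 1))) (P1 (sv M v (N - 1))))
        (An.cr (d1 (sv M v N)) (P1 (sv M v N)))‖ < ε'' := g1
  linarith

/-- directions -/
noncomputable def dd (rot : ℂ) (D : Fin n → Fin n → ℂ) (z : Ix n M) : ℂ :=
  if z.1.val ≤ 1 ∧ z.2.2.val = 0 then D z.1 z.2.1 else rot * d0 z

/-- base points -/
noncomputable def pb (ψ : (Fin n → ℝ) → ℂ) (τ : Fin n → Fin n → ℝ) (z : Ix n M) : ℂ :=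
  if z.1.val ≤ 1 ∧ z.2.2.val = 0 then ψ (Pi.single z.1 1) else
    ψ (ep z.1 z.2.1 (max ((z.2.2.val : ℝ) / ((M : ℝ) - 1)) (τ z.1 z.2.1)))

theorem cr_rot (r u v : ℂ) (hr : ‖r‖ = 1) : An.cr (r * u) (r * v) = An.cr u v := by
  have h : r.re * r.re + r.im * r.im = 1 := by
    have := Complex.sq_norm r
    rw [hr, Complex.normSq_apply] at this
    linarith
  unfold An.cr
  simp only [mul_re, mul_im]
  linear_combination (u.re * v.im - u.im * v.re) * h

theorem cr_ix {rot : ℂ} {D : Fin n → Fin n → ℂ} (hrot : ‖rot‖ = 1) {C : ℝ}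
    (hC : (1 + 2 * (n:ℝ) * n) * (1 + 2 * n * n) ≤ C) {z w : Ix n M}
    (hz : ¬ (z.1.val ≤ 1 ∧ z.2.2.val = 0)) (hw : ¬ (w.1.val ≤ 1 ∧ w.2.2.val = 0))
    (h : sl z ≠ sl w) : An.cr (dd rot D z) (dd rot D w) ≠ 0 ∧
      ‖dd rot D z‖ * ‖dd rot D w‖ ≤ C * |An.cr (dd rot D z) (dd rot D w)| := by
  unfold dd
  rw [if_neg hz, if_neg hw, cr_rot _ _ _ hrot, norm_mul, norm_mul, hrot, one_mul, one_mul]
  have h1 := cr_ge h
  have h2 := norm_d0 z
  have h3 := norm_d0 w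
  refine ⟨fun h0 => ?_, ?_⟩
  · rw [h0, abs_zero] at h1; linarith
  · have h4 : ‖d0 z‖ * ‖d0 w‖ ≤ (1 + 2 * (n:ℝ) * n) * (1 + 2 * n * n) :=
      mul_le_mul h2 h3 (norm_nonneg _) (by positivity)
    have h5 : 0 ≤ C := le_trans (by positivity) hC
    nlinarith

/-- directions of consecutive lines of a walk -/
theorem cr_sv (W : Walk L v) (hM : 2 ≤ M) {rot : ℂ} {D : Fin n → Fin n → ℂ} (hrot : ‖rot‖ = 1)
    {C : ℝ} (hC : (1 + 2 * (n:ℝ) * n) * (1 + 2 * n * n) ≤ C)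
    (h1 : ∀ (x y : Fin n) (j : ZMod M), x.val ≤ 1 → An.cr (D x y) (rot * d0 (x, y, j)) ≠ 0 ∧
      ‖D x y‖ * ‖rot * d0 (x, y, j)‖ ≤ C * |An.cr (D x y) (rot * d0 (x, y, j))|)
    (h2 : ∀ k, (v k).val ≤ 1 → An.cr (D (v k) (v (k - 1))) (D (v k) (v (k + 1))) ≠ 0 ∧
      ‖D (v k) (v (k - 1))‖ * ‖D (v k) (v (k + 1))‖ ≤
        C * |An.cr (D (v k) (v (k - 1))) (D (v k) (v (k + 1)))|)
    (h3 : ∀ k, (v k).val ≤ 1 → 1 < (v (k + 1)).val ∧ 1 < (v (k - 1)).val) (N : ℤ) :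
    An.cr (dd rot D (sv M v (N - 1))) (dd rot D (sv M v N)) ≠ 0 ∧
      ‖dd rot D (sv M v (N - 1))‖ * ‖dd rot D (sv M v N)‖ ≤
        C * |An.cr (dd rot D (sv M v (N - 1))) (dd rot D (sv M v N))| := by
  obtain ⟨k, j, hj0, hj1, rfl⟩ := exkj (M := M) (by omega) N
  have hsl := W.sv_sl hM (k * M + j)
  rcases lt_or_eq_of_le hj0 with h | h
  · rw [add_sub_assoc, sv_at (by omega) (by omega), sv_at hj0 hj1]
    rw [add_sub_assoc, sv_at (by omega) (by omega), sv_at hj0 hj1] at hsl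
    have hne := W.ne1 k
    rcases lt_or_gt_of_ne hne with hlt | hlt
    · -- oriented from the smaller vertex
      have e1 : ix M (v k) (v (k + 1)) (j - 1) = (v k, v (k + 1), ((j - 1 : ℤ) : ZMod M)) := by
        unfold ix; rw [if_pos hlt]
      have e2 : ix M (v k) (v (k + 1)) j = (v k, v (k + 1), (j : ZMod M)) := by
        unfold ix; rw [if_pos hlt]
      rw [e1, e2] at hsl ⊢
      have v1 := val_lo (M := M) (j := j) hj0 hj1
      have v2 := val_lo (M := M) (j := j - 1) (by omega) (by omega)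
      by_cases hc : (v k).val ≤ 1 ∧ (((j - 1 : ℤ) : ZMod M)).val = 0
      · have hn : ¬ ((v k).val ≤ 1 ∧ ((j : ZMod M)).val = 0) := by
          rintro ⟨-, h'⟩; omega
        have a1 : dd rot D (v k, v (k + 1), ((j - 1 : ℤ) : ZMod M)) = D (v k) (v (k + 1)) := by
          unfold dd; rw [if_pos hc]
        have a2 : dd rot D (v k, v (k + 1), (j : ZMod M)) =
            rot * d0 (v k, v (k + 1), (j : ZMod M)) := by
          unfold dd; rw [if_neg hn]
        rw [a1, a2]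
        exact h1 _ _ _ hc.1
      · exact cr_ix hrot hC hc (by rintro ⟨-, h'⟩; simp only at h'; omega) hsl
    · have e1 : ix M (v k) (v (k + 1)) (j - 1) =
          (v (k + 1), v k, ((-1 - (j - 1) : ℤ) : ZMod M)) := by
        unfold ix; rw [if_neg hlt.not_gt]
      have e2 : ix M (v k) (v (k + 1)) j = (v (k + 1), v k, ((-1 - j : ℤ) : ZMod M)) := by
        unfold ix; rw [if_neg hlt.not_gt]
      rw [e1, e2] at hsl ⊢
      have v1 := val_hi (M := M) (j := j) hj0 hj1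
      have v2 := val_hi (M := M) (j := j - 1) (by omega) (by omega)
      by_cases hc : (v (k + 1)).val ≤ 1 ∧ (((-1 - j : ℤ) : ZMod M)).val = 0
      · have hn : ¬ ((v (k + 1)).val ≤ 1 ∧ (((-1 - (j - 1) : ℤ) : ZMod M)).val = 0) := by
          rintro ⟨-, h'⟩; omega
        have a1 : dd rot D (v (k + 1), v k, ((-1 - j : ℤ) : ZMod M)) = D (v (k + 1)) (v k) := by
          unfold dd; rw [if_pos hc]
        have a2 : dd rot D (v (k + 1), v k, ((-1 - (j - 1) : ℤ) : ZMod M)) =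
            rot * d0 (v (k + 1), v k, ((-1 - (j - 1) : ℤ) : ZMod M)) := by
          unfold dd; rw [if_neg hn]
        rw [a1, a2, cr_comm, abs_neg, neg_ne_zero, mul_comm (‖rot * _‖)]
        exact h1 _ _ _ hc.1
      · exact cr_ix hrot hC (by rintro ⟨-, h'⟩; simp only at h'; omega) hc hsl
  · subst h
    have e0 : k * (M:ℤ) + 0 - 1 = (k - 1) * M + (M - 1) := by ring
    rw [e0, sv_at (j := (M:ℤ) - 1) (by omega) (by omega), sv_at le_rfl hj1, sub_add_cancel] at hsl ⊢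
    have hne1 : v (k - 1) ≠ v k := by
      have := W.ne1 (k - 1)
      rwa [sub_add_cancel] at this
    have hne2 := W.ne1 k
    by_cases hk : (v k).val ≤ 1
    · have l1 : v k < v (k - 1) := by
        rw [Fin.lt_def]; have := (h3 k hk).2; omega
      have l2 : v k < v (k + 1) := by
        rw [Fin.lt_def]; have := (h3 k hk).1; omega
      have e1 : ix M (v (k - 1)) (v k) ((M:ℤ) - 1) =
          (v k, v (k - 1), ((-1 - ((M:ℤ) - 1) : ℤ) : ZMod M)) := by
        unfold ix; rw [if_neg l1.not_gt]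
      have e2 : ix M (v k) (v (k + 1)) 0 = (v k, v (k + 1), ((0 : ℤ) : ZMod M)) := by
        unfold ix; rw [if_pos l2]
      rw [e1, e2]
      have v1 := val_hi (M := M) (j := (M:ℤ) - 1) (by omega) (by omega)
      have v2 := val_lo (M := M) (j := 0) le_rfl (by omega)
      have a1 : dd rot D (v k, v (k - 1), ((-1 - ((M:ℤ) - 1) : ℤ) : ZMod M)) =
          D (v k) (v (k - 1)) := by
        unfold dd; rw [if_pos ⟨hk, by simp only; omega⟩]
      have a2 : dd rot D (v k, v (k + 1), ((0 : ℤ) : ZMod M)) = D (v k) (v (k + 1)) := by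
        unfold dd; rw [if_pos ⟨hk, by simp only; omega⟩]
      rw [a1, a2]
      exact h2 k hk
    · refine cr_ix hrot hC ?_ ?_ hsl
      · unfold ix
        split_ifs with hlt
        · have v1 := val_lo (M := M) (j := (M:ℤ) - 1) (by omega) (by omega)
          rintro ⟨-, h'⟩
          simp only at h'
          omega
        · rintro ⟨h', -⟩
          exact hk h'
      · unfold ix
        split_ifs with hlt
        · rintro ⟨h', -⟩
          exact hk h'
        · have v1 := val_hi (M := M) (j := 0) le_rfl (by omega)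
          rintro ⟨-, h'⟩
          simp only at h'
          omega

end Pool.Agent.H687.TC
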