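import Pool.Agent.H687.TC.Line
import Pool.Agent.H687.TC.Arm

/-! The initial parts of the polygonal paths at a vertex with half tangents. -/

set_option autoImplicit false
open Complex Set Topology Metric

namespace Pool.Agent.H687.TC

open Pool.Agent.H763R2 Pool.Agent.H763R2.An Pool.Agent.Y535.PEG Pool.Agent.H687.K4
open Pool.Agent.H687.KC

variable {n L M : ℕ} {v : ℤ → Fin n} {ψ : (Fin n → ℝ) → ℂ}

/-- the initial part of a path -/
structure ArmP (P : ℝ → ℂ) (S : ℝ) (V Z T : ℂ) (θ : ℝ) : Prop where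
  seg : ∀ s ∈ Icc (0:ℝ) 1, P s = V + s * (Z - V)
  far : ∀ s ∈ Icc 1 S, 9 / 10 * ‖Z - V‖ ≤ ‖P s - V‖
  cone : ∀ s ∈ Icc 0 S, P s - V ∈ Cone T θ
  ne : Z ≠ V

theorem cone_smul {T z : ℂ} {θ s : ℝ} (hs : 0 ≤ s) (h : z ∈ Cone T θ) : (s : ℂ) * z ∈ Cone T θ := by
  unfold Cone at *
  simp only [mem_ofPred_eq] at *
  rw [norm_mul, norm_real, Real.norm_of_nonneg hs]
  have e : (s : ℂ) * z - ((s * ‖z‖ : ℝ) : ℂ) * T = (s : ℂ) * (z - (‖z‖ : ℂ) * T) := by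
    push_cast; ring
  rw [e, norm_mul, norm_real, Real.norm_of_nonneg hs]
  calc s * ‖z - (‖z‖ : ℂ) * T‖ ≤ s * (θ * ‖z‖) := mul_le_mul_of_nonneg_left h hs
    _ = θ * (s * ‖z‖) := by ring

theorem cone_near {T z z' : ℂ} {θ1 K θ : ℝ} (hT : ‖T‖ = 1) (h : z ∈ Cone T θ1)
    (hz : ‖z' - z‖ ≤ K * ‖z‖) (hK : K ≤ 1 / 2) (hθ : 4 * K + 2 * θ1 ≤ θ) (hK0 : 0 ≤ K)
    (h1 : 0 ≤ θ1) :
    z' ∈ Cone T θ := by
  unfold Cone at *
  simp only [mem_ofPred_eq] at *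
  have a1 : ‖z‖ - ‖z'‖ ≤ ‖z' - z‖ := by
    have := norm_sub_norm_le z z'
    rwa [norm_sub_rev] at this
  have a2 : ‖z'‖ - ‖z‖ ≤ ‖z' - z‖ := norm_sub_norm_le z' z
  have a3 : ‖(((‖z‖ - ‖z'‖ : ℝ)) : ℂ) * T‖ ≤ ‖z' - z‖ := by
    rw [norm_mul, hT, mul_one, norm_real, Real.norm_eq_abs, abs_le]
    constructor <;> linarith
  have e : z' - (‖z'‖ : ℂ) * T = (z' - z) + (z - (‖z‖ : ℂ) * T) +
      (((‖z‖ - ‖z'‖ : ℝ)) : ℂ) * T := by push_cast; ring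
  have a4 : ‖z' - (‖z'‖ : ℂ) * T‖ ≤ ‖z' - z‖ + θ1 * ‖z‖ + ‖z' - z‖ := by
    rw [e]
    refine (norm_add₃_le).trans ?_
    linarith
  have n0 := norm_nonneg z
  have n1 := norm_nonneg z'
  have a5 : ‖z‖ ≤ 2 * ‖z'‖ := by nlinarith
  have a6 : ‖z' - (‖z'‖ : ℂ) * T‖ ≤ (2 * K + θ1) * ‖z‖ := by linarith
  calc ‖z' - (‖z'‖ : ℂ) * T‖ ≤ (2 * K + θ1) * ‖z‖ := a6
    _ ≤ (2 * K + θ1) * (2 * ‖z'‖) := mul_le_mul_of_nonneg_left a5 (by linarith)
    _ = (4 * K + 2 * θ1) * ‖z'‖ := by ring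
    _ ≤ θ * ‖z'‖ := mul_le_mul_of_nonneg_right hθ n1

theorem arm_mk {P : ℝ → ℂ} {S C θ θ1 ρ : ℝ} {V Z T D p : ℂ} (hS : 1 ≤ S) (hT : ‖T‖ = 1)
    (hD : ‖D - T‖ ≤ θ1) (hC : 0 ≤ C) (hρ : 0 < ρ) (hθ1 : 0 ≤ θ1)
    (seg : ∀ s ∈ Icc (0:ℝ) 1, P s = V + s * (Z - V)) (hV : ‖V - p‖ ≤ θ1 * ρ)
    (hZ : ‖Z - (p + ρ * D)‖ ≤ (2 * C + 1) * θ1 * ρ)
    (hP : ∀ s ∈ Icc 1 S, ∃ e : ℂ, ‖P s - e‖ ≤ (2 * C + 3) * θ1 * ρ ∧ e - p ∈ Cone T θ1 ∧
      ρ ≤ ‖e - p‖) (hθ : (8 * C + 18) * θ1 ≤ θ) (hθ2 : θ ≤ 1 / 100) : ArmP P S V Z T θ := by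
  have hsm : (8 * C + 18) * θ1 ≤ 1 / 100 := hθ.trans hθ2
  have c1 : 0 ≤ C * θ1 := mul_nonneg hC hθ1
  have low : ∀ s ∈ Icc 1 S, ρ * (1 - (2 * C + 4) * θ1) ≤ ‖P s - V‖ ∧ P s - V ∈ Cone T θ := by
    intro s hs
    obtain ⟨e, e1, e2, e3⟩ := hP s hs
    have d : ‖(P s - V) - (e - p)‖ ≤ (2 * C + 4) * θ1 * ρ := by
      have : (P s - V) - (e - p) = (P s - e) - (V - p) := by ring
      rw [this]
      refine (norm_sub_le _ _).trans ?_
      linarith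
    constructor
    · have := norm_sub_norm_le (e - p) (P s - V)
      rw [norm_sub_rev (e - p) (P s - V)] at this
      linarith
    · refine cone_near hT e2 (K := (2 * C + 4) * θ1) (d.trans ?_) ?_ ?_ ?_ hθ1
      · exact mul_le_mul_of_nonneg_left e3 (by nlinarith)
      · nlinarith
      · linarith
      · nlinarith
  have hZ1 : P 1 = Z := by
    have := seg 1 ⟨zero_le_one, le_rfl⟩
    rw [this]; push_cast; ring
  have hl1 := low 1 ⟨le_rfl, hS⟩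
  rw [hZ1] at hl1
  refine ⟨seg, fun s hs => ?_, fun s hs => ?_, fun h => ?_⟩
  · have h1 := (low s hs).1
    have h2 : ‖D‖ ≤ 1 + θ1 := by
      have := norm_add_le (D - T) T
      rw [sub_add_cancel, hT] at this
      linarith
    have h3 : ‖Z - V‖ ≤ ρ * (1 + (2 * C + 3) * θ1) := by
      have e : Z - V = (Z - (p + ρ * D)) + ρ * D - (V - p) := by ring
      rw [e]
      have h4 := norm_sub_le ((Z - (p + ρ * D)) + ρ * D) (V - p)
      have h5 := norm_add_le (Z - (p + ρ * D)) (ρ * D)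
      have h6 : ‖(ρ:ℂ) * D‖ ≤ ρ * (1 + θ1) := by
        rw [norm_mul, norm_real, Real.norm_of_nonneg hρ.le]
        exact mul_le_mul_of_nonneg_left h2 hρ.le
      linarith
    have h4 : 9 / 10 * (ρ * (1 + (2 * C + 3) * θ1)) ≤ ρ * (1 - (2 * C + 4) * θ1) := by
      have : 9 / 10 * (1 + (2 * C + 3) * θ1) ≤ 1 - (2 * C + 4) * θ1 := by nlinarith
      calc 9 / 10 * (ρ * (1 + (2 * C + 3) * θ1)) = ρ * (9 / 10 * (1 + (2 * C + 3) * θ1)) := by ring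
        _ ≤ _ := mul_le_mul_of_nonneg_left this hρ.le
    linarith
  · rcases le_or_gt s 1 with h | h
    · rw [seg s ⟨hs.1, h⟩, add_sub_cancel_left]
      exact cone_smul hs.1 hl1.2
    · exact (low s ⟨h.le, hs.2⟩).2
  · rw [h, sub_self, norm_zero] at hl1
    have : 0 < ρ * (1 - (2 * C + 4) * θ1) := mul_pos hρ (by nlinarith)
    linarith [hl1.1]

/-- an edge that starts in the direction `T` -/
structure NiceE (ψ : (Fin n → ℝ) → ℂ) (x y : Fin n) (T : ℂ) (ρ τ θ1 : ℝ) : Prop where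
  τ0 : 0 < τ
  τ1 : τ < 1
  hρ : 0 < ρ
  at' : ‖ψ (ep x y τ) - ψ (Pi.single x 1)‖ = ρ
  far : ∀ t ∈ Icc τ 1, ρ ≤ ‖ψ (ep x y t) - ψ (Pi.single x 1)‖
  cone : ∀ t ∈ Icc (0:ℝ) 1, ψ (ep x y t) - ψ (Pi.single x 1) ∈ Cone T θ1

variable {d : Ix n M → ℂ} {κ : Ix n M → ℝ}

theorem Vp_zero {x y y' : Fin n} (hxy : x < y) (hxy' : x < y') :
    Vp d κ (sc M y' x y) 0 = Xl (d (x, y', 0)) (d (x, y, 0)) (κ (x, y', 0)) (κ (x, y, 0)) := by
  have e1 : sc M y' x y (0 - 1) = (x, y', 0) := by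
    unfold sc
    rw [if_pos (by norm_num)]
    unfold ix
    rw [if_neg hxy'.not_gt]
    simp
  have e2 : sc M y' x y 0 = (x, y, 0) := by
    unfold sc
    rw [if_neg (by norm_num)]
    unfold ix
    rw [if_pos hxy]
    simp
  unfold Vp
  rw [e1, e2]

theorem Vp_pos {x y y' : Fin n} (hxy : x < y) {N : ℤ} (hN : 1 ≤ N) :
    Vp d κ (sc M y' x y) N = Xl (d (x, y, ((N - 1 : ℤ) : ZMod M))) (d (x, y, (N : ZMod M)))
      (κ (x, y, ((N - 1 : ℤ) : ZMod M))) (κ (x, y, (N : ZMod M))) := by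
  have e : ∀ K : ℤ, 0 ≤ K → sc M y' x y K = (x, y, (K : ZMod M)) := by
    intro K hK
    unfold sc
    rw [if_neg (by omega)]
    unfold ix
    rw [if_pos hxy]
  unfold Vp
  rw [e N (by omega), e (N - 1) (by omega)]

theorem dd_zero {rot : ℂ} {D : Fin n → Fin n → ℂ} {x y : Fin n} (hx : x.val ≤ 1) :
    dd rot D ((x, y, 0) : Ix n M) = D x y := by
  unfold dd
  rw [if_pos ⟨hx, by simp⟩]

theorem dd_pos {rot : ℂ} {D : Fin n → Fin n → ℂ} {x y : Fin n} {N : ℤ} (h1 : 1 ≤ N) (h2 : N < M) :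
    dd rot D ((x, y, (N : ZMod M)) : Ix n M) = rot * d0 ((x, y, (N : ZMod M)) : Ix n M) := by
  unfold dd
  rw [if_neg]
  rintro ⟨-, h⟩
  have := val_lo (M := M) (j := N) (by omega) h2
  simp only at h
  omega

theorem pb_zero {τ : Fin n → Fin n → ℝ} {x y : Fin n} (hx : x.val ≤ 1) :
    pb ψ τ ((x, y, 0) : Ix n M) = ψ (Pi.single x 1) := by
  unfold pb
  rw [if_pos ⟨hx, by simp⟩]

theorem pb_pos {τ : Fin n → Fin n → ℝ} {x y : Fin n} {N : ℤ} (h1 : 1 ≤ N) (h2 : N < M) :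
    pb ψ τ ((x, y, (N : ZMod M)) : Ix n M) = ψ (ep x y (max ((N : ℝ) / ((M : ℝ) - 1)) (τ x y))) := by
  have := val_lo (M := M) (j := N) (by omega) h2
  have h3 : (((N : ZMod M).val : ℕ) : ℝ) = N := by exact_mod_cast this
  unfold pb
  rw [if_neg]
  · simp only
    rw [h3]
  · rintro ⟨-, h⟩
    simp only at h
    omega

/-- the arms of the polygonal paths -/
theorem armP (hM : 8 ≤ M) {rot : ℂ} {D : Fin n → Fin n → ℂ} {τ : Fin n → Fin n → ℝ}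
    {C θ θ1 ρ ε1 ε'' : ℝ} {T : ℂ} {x y y' : Fin n} (hrot : ‖rot‖ = 1) (hx : x.val ≤ 1)
    (hxy : x < y) (hxy' : x < y') (hC : (1 + 2 * (n:ℝ) * n) * (1 + 2 * n * n) ≤ C)
    (hT : ‖T‖ = 1) (hD : ‖D x y - T‖ ≤ θ1) (hθ1 : 0 ≤ θ1)
    (hcl : ∀ i j : Ix n M, An.cr (dd rot D i) (dd rot D j) ≠ 0 →
      ‖Xl (d i) (d j) (κ i) (κ j) - Xl (dd rot D i) (dd rot D j)
        (An.cr (dd rot D i) (pb ψ τ i)) (An.cr (dd rot D j) (pb ψ τ j))‖ < ε'')
    (hDD : An.cr (D x y') (D x y) ≠ 0)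
    (hDr : An.cr (D x y) (rot * d0 ((x, y, ((1 : ℤ) : ZMod M)) : Ix n M)) ≠ 0 ∧
      ‖D x y‖ * ‖rot * d0 ((x, y, ((1 : ℤ) : ZMod M)) : Ix n M)‖ ≤
        C * |An.cr (D x y) (rot * d0 ((x, y, ((1 : ℤ) : ZMod M)) : Ix n M))|)
    (E : NiceE ψ x y T ρ (τ x y) θ1) (hMτ : 1 / ((M:ℝ) - 1) ≤ τ x y)
    (hε1 : ∀ s ∈ Icc (0:ℝ) 1, ∀ t ∈ Icc (0:ℝ) 1, |s - t| ≤ 1 / ((M:ℝ) - 1) →
      ‖ψ (ep x y s) - ψ (ep x y t)‖ ≤ ε1)
    (h1 : (C + 1) * ε1 ≤ θ1 * ρ / 2) (h2 : ε'' ≤ θ1 * ρ / 2) (hθ : (8 * C + 18) * θ1 ≤ θ)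
    (hθ2 : θ ≤ 1 / 100) :
    ArmP (PP d κ (sc M y' x y)) (3 * M / 4) (Vp d κ (sc M y' x y) 0) (Vp d κ (sc M y' x y) 1)
      T θ ∧ ‖Vp d κ (sc M y' x y) 0 - ψ (Pi.single x 1)‖ ≤ θ1 * ρ / 2 ∧
      ρ / 2 ≤ ‖Vp d κ (sc M y' x y) 1 - Vp d κ (sc M y' x y) 0‖ := by
  have hM8 : (8:ℝ) ≤ M := by exact_mod_cast hM
  have hM1 : (0:ℝ) < (M:ℝ) - 1 := by linarith
  have hC0 : 0 ≤ C := le_trans (by positivity) hC
  have hρ := E.hρ
  obtain ⟨p, hp⟩ : ∃ p, p = ψ (Pi.single x 1) := ⟨_, rfl⟩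
  obtain ⟨e, he⟩ : ∃ e : ℝ → ℂ, e = fun t => ψ (ep x y t) := ⟨_, rfl⟩
  obtain ⟨V, hV⟩ : ∃ V : ℤ → ℂ, V = Vp d κ (sc M y' x y) := ⟨_, rfl⟩
  obtain ⟨tt, htt⟩ : ∃ tt : ℤ → ℝ, tt = fun N : ℤ => max ((N : ℝ) / ((M : ℝ) - 1)) (τ x y) := ⟨_, rfl⟩
  have tt1 : tt 1 = τ x y := by rw [htt]; simp only; push_cast; exact max_eq_right hMτ
  have ttI : ∀ N : ℤ, 1 ≤ N → N < M → tt N ∈ Icc (τ x y) 1 := by
    intro N _ hN
    rw [htt]
    refine ⟨le_max_right _ _, max_le ?_ E.τ1.le⟩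
    rw [div_le_one hM1]
    have : N ≤ (M:ℤ) - 1 := by omega
    have h3 : (N:ℝ) ≤ (((M:ℤ) - 1 : ℤ) : ℝ) := by exact_mod_cast this
    push_cast at h3
    exact h3
  have ttI' : ∀ N : ℤ, 1 ≤ N → N < M → tt N ∈ Icc (0:ℝ) 1 := fun N a b =>
    ⟨E.τ0.le.trans (ttI N a b).1, (ttI N a b).2⟩
  have step : ∀ N : ℤ, 2 ≤ N → N < M → ‖e (tt N) - e (tt (N - 1))‖ ≤ ε1 := by
    intro N h3 h4
    rw [he]
    refine hε1 _ (ttI' N (by omega) h4) _ (ttI' (N - 1) (by omega) (by omega)) ?_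
    rw [htt]
    simp only
    refine (abs_max_sub_max_le_abs _ _ _).trans ?_
    rw [← sub_div]
    push_cast
    rw [sub_sub_cancel, abs_of_nonneg (by positivity)]
  -- vertices
  have v0 : ‖V 0 - p‖ < ε'' := by
    rw [hV, Vp_zero hxy hxy']
    have := hcl (x, y', 0) (x, y, 0) (by rw [dd_zero hx, dd_zero hx]; exact hDD)
    rw [dd_zero hx, dd_zero hx, pb_zero hx, pb_zero hx, Xl_pt hDD] at this
    rw [hp]; exact this
  have eτ : ‖e (τ x y) - (p + ρ * D x y)‖ ≤ 2 * θ1 * ρ := by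
    have c1 := E.cone (τ x y) ⟨E.τ0.le, E.τ1.le⟩
    unfold Cone at c1
    simp only [mem_ofPred_eq] at c1
    rw [E.at'] at c1
    have e1 : e (τ x y) - (p + ρ * D x y) = (ψ (ep x y (τ x y)) - ψ (Pi.single x 1) - ρ * T) -
        ρ * (D x y - T) := by rw [he, hp]; ring
    rw [e1]
    refine (norm_sub_le _ _).trans ?_
    rw [norm_mul, norm_real, Real.norm_of_nonneg hρ.le]
    have := mul_le_mul_of_nonneg_left hD hρ.le
    linarith
  have v1 : ‖V 1 - (p + ρ * D x y)‖ < C * (2 * θ1 * ρ) + ε'' := by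
    rw [hV, Vp_pos hxy le_rfl]
    have e0 : (((1 : ℤ) - 1 : ℤ) : ZMod M) = 0 := by push_cast; ring
    rw [e0]
    have h1M : (1:ℤ) < M := by omega
    have := hcl (x, y, 0) (x, y, ((1:ℤ) : ZMod M)) (by
      rw [dd_zero hx, dd_pos le_rfl h1M]; exact hDr.1)
    rw [dd_zero hx, dd_pos le_rfl h1M, pb_zero hx, pb_pos le_rfl h1M] at this
    have e3 : An.cr (D x y) (ψ (Pi.single x 1)) = An.cr (D x y) (p + ρ * D x y) := by
      rw [hp]; unfold An.cr; simp; ring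
    have e4 := Xl_near3 (P1 := p + ρ * D x y) (P2 := e (τ x y)) hDr.1 hDr.2
    have e5 : max (((1:ℤ) : ℝ) / ((M : ℝ) - 1)) (τ x y) = τ x y := by
      push_cast; exact max_eq_right hMτ
    rw [e3, e5] at this
    have e6 : e (τ x y) = ψ (ep x y (τ x y)) := by rw [he]
    rw [e6] at e4 eτ
    have e7 := mul_le_mul_of_nonneg_left eτ hC0
    refine lt_of_le_of_lt (norm_sub_le_norm_sub_add_norm_sub _ (Xl (D x y)
      (rot * d0 ((x, y, ((1 : ℤ) : ZMod M)) : Ix n M)) (An.cr (D x y) (p + ρ * D x y))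
      (An.cr (rot * d0 ((x, y, ((1 : ℤ) : ZMod M)) : Ix n M)) (ψ (ep x y (τ x y))))) _) ?_
    linarith
  have vN : ∀ N : ℤ, 2 ≤ N → N < M → ‖V N - e (tt (N - 1))‖ < C * ε1 + ε'' := by
    intro N h3 h4
    rw [hV, Vp_pos hxy (by omega)]
    have a1 : ¬ ((x, y, ((N - 1 : ℤ) : ZMod M)) : Ix n M).1.val ≤ 1 ∨
        ¬ ((x, y, ((N - 1 : ℤ) : ZMod M)) : Ix n M).2.2.val = 0 := by
      right
      have := val_lo (M := M) (j := N - 1) (by omega) (by omega)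
      simp only
      omega
    have a2 : ¬ ((x, y, ((N : ℤ) : ZMod M)) : Ix n M).1.val ≤ 1 ∨
        ¬ ((x, y, ((N : ℤ) : ZMod M)) : Ix n M).2.2.val = 0 := by
      right
      have := val_lo (M := M) (j := N) (by omega) (by omega)
      simp only
      omega
    have hs : sl ((x, y, ((N - 1 : ℤ) : ZMod M)) : Ix n M) ≠ sl ((x, y, (N : ZMod M)) : Ix n M) := by
      intro hs
      have h5 := (sl_inj hs).2.2
      have h6 := val_lo (M := M) (j := N) (by omega) h4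
      have h7 := val_lo (M := M) (j := N - 1) (by omega) (by omega)
      omega
    obtain ⟨k1, k2⟩ := cr_ix (D := D) hrot hC (by tauto) (by tauto) hs
    have := hcl _ _ k1
    have k3 := Xl_near3 (P1 := pb ψ τ ((x, y, ((N - 1 : ℤ) : ZMod M)) : Ix n M))
      (P2 := pb ψ τ ((x, y, (N : ZMod M)) : Ix n M)) k1 k2
    have k4 : pb ψ τ ((x, y, ((N - 1 : ℤ) : ZMod M)) : Ix n M) = e (tt (N - 1)) := by
      rw [pb_pos (by omega) (by omega), he, htt]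
    have k5 : pb ψ τ ((x, y, (N : ZMod M)) : Ix n M) = e (tt N) := by
      rw [pb_pos (by omega) (by omega), he, htt]
    rw [k4, k5] at k3 this
    have k6 := mul_le_mul_of_nonneg_left (step N h3 h4) hC0
    refine lt_of_le_of_lt (norm_sub_le_norm_sub_add_norm_sub _ _ _) (add_lt_add_of_lt_of_le this
      (k3.trans k6) |>.trans_le ?_)
    linarith
  have key : ∀ N : ℤ, 1 ≤ N → N + 1 < M → ∃ t ∈ Icc (τ x y) 1,
      ‖V N - e t‖ ≤ (2 * C + 3) * θ1 * ρ ∧ ‖V (N + 1) - e t‖ ≤ (2 * C + 3) * θ1 * ρ := by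
    intro N h3 h4
    have c0 : 0 ≤ C * θ1 * ρ := by positivity
    have c1 : 0 ≤ θ1 * ρ := by positivity
    have ε10 : 0 ≤ ε1 := (norm_nonneg _).trans (step 2 le_rfl (by omega))
    have c2 : 0 ≤ C * ε1 := by positivity
    rcases eq_or_lt_of_le h3 with h | h
    · subst h
      refine ⟨τ x y, ⟨le_rfl, E.τ1.le⟩, ?_, ?_⟩
      · have e1 := norm_sub_le_norm_sub_add_norm_sub (V 1) (p + ρ * D x y) (e (τ x y))
        rw [norm_sub_rev (p + ρ * D x y)] at e1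
        linarith
      · have := vN 2 le_rfl (by omega)
        rw [show (2:ℤ) - 1 = 1 by norm_num, tt1] at this
        rw [show (1:ℤ) + 1 = 2 by norm_num]
        linarith
    · refine ⟨tt (N - 1), ttI _ (by omega) (by omega), ?_, ?_⟩
      · have := vN N (by omega) (by omega)
        linarith
      · have e1 := vN (N + 1) (by omega) h4
        have e2 := step N (by omega) (by omega)
        rw [add_sub_cancel_right] at e1
        have e3 := norm_sub_le_norm_sub_add_norm_sub (V (N + 1)) (e (tt N)) (e (tt (N - 1)))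
        linarith
  have hseg : ∀ s ∈ Icc (0:ℝ) 1, PP d κ (sc M y' x y) s = V 0 + s * (V 1 - V 0) := by
    intro s hs
    rw [hV]
    rcases lt_or_eq_of_le hs.2 with h | h
    · have hf : ⌊s⌋ = 0 := Int.floor_eq_iff.2 ⟨by simpa using hs.1, by simpa using h⟩
      unfold PP
      rw [hf, zero_add, Int.fract, hf]
      push_cast
      rw [sub_zero]
    · rw [h]
      unfold PP
      simp
  have hVp : ‖V 0 - p‖ ≤ θ1 * ρ / 2 := v0.le.trans h2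
  have hV1 : ‖V 1 - (p + ρ * D x y)‖ ≤ (2 * C + 1) * θ1 * ρ := by
    have c1 : 0 ≤ θ1 * ρ := by positivity
    linarith
  have hA : ArmP (PP d κ (sc M y' x y)) (3 * M / 4) (V 0) (V 1) T θ := by
    refine arm_mk (by linarith) hT hD hC0 hρ hθ1 hseg (p := p) ?_ hV1 (fun s hs => ?_) hθ hθ2
    · have c1 : 0 ≤ θ1 * ρ := by positivity
      linarith
    · obtain ⟨N, hN⟩ : ∃ N, N = ⌊s⌋ := ⟨_, rfl⟩
      have n1 : 1 ≤ N := by rw [hN]; exact Int.le_floor.2 (by exact_mod_cast hs.1)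
      have n2 : N + 1 < M := by
        have a1 := Int.floor_le s
        rw [← hN] at a1
        have a2 : (N:ℝ) + 1 < M := by linarith [hs.2]
        exact_mod_cast a2
      obtain ⟨t, ht, g1, g2⟩ := key N n1 n2
      refine ⟨e t, ?_, ?_, ?_⟩
      · have f0 := Int.fract_nonneg s
        have f1 := (Int.fract_lt_one s).le
        have e1 : PP d κ (sc M y' x y) s - e t =
            ((1 - Int.fract s : ℝ) : ℂ) * (V N - e t) +
            ((Int.fract s : ℝ) : ℂ) * (V (N + 1) - e t) := by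
          rw [hV, hN]
          unfold PP
          push_cast; ring
        rw [e1]
        refine (norm_add_le _ _).trans ?_
        rw [norm_mul, norm_mul, norm_real, norm_real, Real.norm_eq_abs, Real.norm_eq_abs,
          abs_of_nonneg f0, abs_of_nonneg (by linarith)]
        nlinarith
      · rw [he, hp]
        exact E.cone t ⟨E.τ0.le.trans ht.1, ht.2⟩
      · rw [he, hp]
        exact E.far t ht
  rw [hV, hp] at *
  refine ⟨hA, hVp, ?_⟩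
  have hsm : (8 * C + 18) * θ1 ≤ 1 / 100 := hθ.trans hθ2
  have h3 : 1 - θ1 ≤ ‖D x y‖ := by
    have := norm_sub_norm_le T (T - D x y)
    rw [sub_sub_cancel, hT, norm_sub_rev] at this
    linarith
  have e : (ρ:ℂ) * D x y = (Vp d κ (sc M y' x y) 1 - Vp d κ (sc M y' x y) 0) -
      (Vp d κ (sc M y' x y) 1 - (ψ (Pi.single x 1) + ρ * D x y)) +
      (Vp d κ (sc M y' x y) 0 - ψ (Pi.single x 1)) := by ring
  have h4 : ‖(ρ:ℂ) * D x y‖ = ρ * ‖D x y‖ := by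
    rw [norm_mul, norm_real, Real.norm_of_nonneg hρ.le]
  have h5 := norm_add_le ((Vp d κ (sc M y' x y) 1 - Vp d κ (sc M y' x y) 0) -
      (Vp d κ (sc M y' x y) 1 - (ψ (Pi.single x 1) + ρ * D x y)))
      (Vp d κ (sc M y' x y) 0 - ψ (Pi.single x 1))
  rw [← e, h4] at h5
  have h6 := norm_sub_le (Vp d κ (sc M y' x y) 1 - Vp d κ (sc M y' x y) 0)
      (Vp d κ (sc M y' x y) 1 - (ψ (Pi.single x 1) + ρ * D x y))
  have h7 := mul_le_mul_of_nonneg_left h3 hρ.le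
  have c0 : 0 ≤ C * θ1 := by positivity
  have h8 : ρ / 2 ≤ ρ * (1 - θ1) - (2 * C + 1) * θ1 * ρ - θ1 * ρ / 2 := by
    have : 1 / 2 ≤ (1 - θ1) - (2 * C + 1) * θ1 - θ1 / 2 := by nlinarith
    have := mul_le_mul_of_nonneg_left this hρ.le
    linarith
  linarith

end Pool.Agent.H687.TC
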