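import Pool.Agent.H687.TC.Poly
import Pool.Agent.H687.TC.Cone

/-! Splitting of the charge of a corner with half tangents. -/

set_option autoImplicit false
open Complex Set Topology Metric

namespace Pool.Agent.H687.TC

open Pool.Agent.H763R2 Pool.Agent.H763R2.An Pool.Agent.Y535.PEG Pool.Agent.H687.K4
open Pool.Agent.H687.KC (wk)

variable {n L M : ℕ} {v : ℤ → Fin n} {ψ : (Fin n → ℝ) → ℂ}

/-- zeros in the windows of the closed polygons -/
theorem par_sub (W : Walk L v) (hM : 2 ≤ M) {d : Ix n M → ℂ} {κ : Ix n M → ℝ} (G : Gf d κ)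
    (k : ℤ) {a b : ℝ} (ha : -(M:ℝ) + 1 ≤ a) (hb : b < M - 1) :
    (ZW (PP d κ (sc M (v (k - 1)) (v k) (v (k + 1)))) (Icc a b)).Finite ∧
    ((Nw (PP d κ (sc M (v (k - 1)) (v k) (v (k + 1)))) (Icc a b) : ℕ) : ZMod 2) =
      ((Nx (PP d κ (sc M (v (k - 1)) (v k) (v (k + 1)))) (Icc a b) : ℕ) : ZMod 2) := by
  have hG := (W.gen hM G).1
  have hL3 : (3:ℝ) ≤ L := by exact_mod_cast W.L3
  have hM2 : (2:ℝ) ≤ M := by exact_mod_cast hM
  have h3 := W.L3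
  have h4 : 0 < L * M := by positivity
  have hm0 : (0:ℝ) < ((L * M : ℕ) : ℝ) := by exact_mod_cast h4
  obtain ⟨a', ha'⟩ : ∃ a' : ℝ, a' = (k * M + a) / ((L * M : ℕ) : ℝ) := ⟨_, rfl⟩
  obtain ⟨b', hb'⟩ : ∃ b' : ℝ, b' = (k * M + b) / ((L * M : ℕ) : ℝ) := ⟨_, rfl⟩
  have hcong : ∀ t ∈ Icc a' b',
      PP d κ (sc M (v (k - 1)) (v k) (v (k + 1))) (((L * M : ℕ) : ℝ) * t - k * M) =
        qv M L v d κ t := by
    intro t ht
    rw [W.qv_PP (by omega)]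
    have h1 := ht.1
    have h2 := ht.2
    rw [ha', div_le_iff₀ hm0] at h1
    rw [hb', le_div_iff₀ hm0] at h2
    have := PP_congr (d := d) (k := κ) (σ' := sc M (v (k - 1)) (v k) (v (k + 1))) (σ := sv M v)
      (A := -(M:ℤ) + 1) (B := M - 1) (n0 := k * M)
      (fun N h1 h2 => sc_sv (by omega) (by omega)) (s := ((L * M : ℕ) : ℝ) * t - k * M)
      (by push_cast at *; linarith) (by push_cast at *; linarith)
    rw [this]
    congr 1
    push_cast; ring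
  have himg : (fun t => ((L * M : ℕ) : ℝ) * t - k * M) '' (Icc a' b') = Icc a b := by
    rw [img_aff hm0, ha', hb']
    congr 1
    · field_simp; ring
    · field_simp; ring
  have hab : b' < a' + 1 := by
    rw [ha', hb', div_add_one hm0.ne', div_lt_div_iff_of_pos_right hm0]
    push_cast
    nlinarith
  have e1 := Nw_mono (aff_mono (β := k * M) hm0) hcong
  have e2 := Nx_mono (aff_mono (β := k * M) hm0) hcong
  rw [himg] at e1 e2
  refine ⟨?_, by rw [e1, e2]; exact Nw_Nx hG hab⟩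
  refine ((ZW_fin hG hab).image (fun z => (((L * M : ℕ) : ℝ) * z.1 - k * M,
    ((L * M : ℕ) : ℝ) * z.2 - k * M))).subset ?_
  rintro ⟨x, y⟩ hz
  rw [← himg] at hz
  obtain ⟨x', hx', hx⟩ := hz.1
  obtain ⟨y', hy', hy⟩ := hz.2.1
  simp only at hx hy
  subst hx hy
  exact ⟨(x', y'), (ZW_img (aff_mono hm0).injective hcong x' y').1 hz, rfl⟩

/-- charge of an arm -/
noncomputable def Bx (d : Ix n M → ℂ) (κ : Ix n M → ℝ) (x y y' : Fin n) : ZMod 2 :=
  ((Nw (PP d κ (sc M y' x y)) (Icc 0 (3 * M / 4)) : ℕ) : ZMod 2)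

theorem split (W : Walk L v) (hM : 8 ≤ M) {d : Ix n M → ℂ} {κ : Ix n M → ℝ} (G : Gf d κ) (k : ℤ)
    {T T' : ℂ} {θ : ℝ} (hN : NoPair T T' θ)
    (A : ArmP (PP d κ (sc M (v (k - 1)) (v k) (v (k + 1)))) (3 * M / 4)
      (Vp d κ (sc M (v (k - 1)) (v k) (v (k + 1))) 0)
      (Vp d κ (sc M (v (k - 1)) (v k) (v (k + 1))) 1) T θ)
    (A' : ArmP (PP d κ (sc M (v (k + 1)) (v k) (v (k - 1)))) (3 * M / 4)
      (Vp d κ (sc M (v (k + 1)) (v k) (v (k - 1))) 0)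
      (Vp d κ (sc M (v (k + 1)) (v k) (v (k - 1))) 1) T' θ) :
    Cn d κ (v (k - 1)) (v k) (v (k + 1)) =
      Bx d κ (v k) (v (k - 1)) (v (k + 1)) + Bx d κ (v k) (v (k + 1)) (v (k - 1)) := by
  have hM8 : (8:ℝ) ≤ M := by exact_mod_cast hM
  have hne : v (k - 1) ≠ v k := by
    have := W.ne1 (k - 1)
    rwa [sub_add_cancel] at this
  have hrev := fun s => PP_rev (d := d) (k := κ) (sc_symm (M := M) (W.ne1 k).symm hne.symm) s
  obtain ⟨P, hP⟩ : ∃ P, P = PP d κ (sc M (v (k - 1)) (v k) (v (k + 1))) := ⟨_, rfl⟩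
  obtain ⟨P', hP'⟩ : ∃ P', P' = PP d κ (sc M (v (k + 1)) (v k) (v (k - 1))) := ⟨_, rfl⟩
  have hr : ∀ s, P s = P' (-s) := by rw [hP, hP']; exact hrev
  have p0 : P 0 = Vp d κ (sc M (v (k - 1)) (v k) (v (k + 1))) 0 := by
    have := A.seg 0 ⟨le_rfl, zero_le_one⟩
    rw [hP, this]; push_cast; ring
  have p0' : P' 0 = Vp d κ (sc M (v (k + 1)) (v k) (v (k - 1))) 0 := by
    have := A'.seg 0 ⟨le_rfl, zero_le_one⟩
    rw [hP', this]; push_cast; ring
  have gen : ∀ {Q : ℝ → ℂ} {V Z U : ℂ}, ArmP Q (3 * M / 4) V Z U θ → Q 0 = V →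
      ∀ s ∈ Ioc 0 (3 * (M:ℝ) / 4), Q s - Q 0 ∈ Cone U θ ∧ Q s ≠ Q 0 := by
    intro Q V Z U B h0 s hs
    rw [h0]
    refine ⟨B.cone s ⟨hs.1.le, hs.2⟩, ?_⟩
    rcases le_or_gt s 1 with h | h
    · rw [B.seg s ⟨hs.1.le, h⟩]
      intro h'
      have : (s:ℂ) * (Z - V) = 0 := by linear_combination h'
      rcases mul_eq_zero.1 this with h2 | h2
      · exact hs.1.ne' (by exact_mod_cast h2)
      · exact B.ne (sub_eq_zero.1 h2)
    · intro h'
      have := B.far s ⟨h.le, hs.2⟩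
      rw [h', sub_self, norm_zero] at this
      have h2 : 0 < ‖Z - V‖ := norm_pos_iff.2 (sub_ne_zero.2 B.ne)
      linarith
  have gA := gen (by rw [← hP] at A; exact A) p0
  have gA' := gen (by rw [← hP'] at A'; exact A') p0'
  obtain ⟨f1, -⟩ := par_sub W (by omega) G k (a := -(3 * (M:ℝ) / 4)) (b := 3 * M / 4)
    (by linarith) (by linarith)
  obtain ⟨-, f2⟩ := par_sub W (by omega) G k (a := -(3 * (M:ℝ) / 4)) (b := 0)
    (by linarith) (by linarith)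
  rw [← hP] at f1 f2
  have key := pair hN gA (fun s hs => by
    have h := gA' (-s) ⟨by linarith [hs.2], by linarith [hs.1]⟩
    have h0 : P 0 = P' 0 := by rw [hr 0, neg_zero]
    rw [hr s, h0]
    exact h) f1 (by positivity)
  have anti := Nw_anti (Q := P) (Q' := P') (W := Icc (-(3 * (M:ℝ) / 4)) 0) (f := fun t => -t)
    (fun x y h => neg_lt_neg h) (fun t _ => by rw [hr])
  rw [Set.image_neg_eq_neg, Set.neg_Icc, neg_neg, neg_zero] at anti
  unfold Cn Bx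
  rw [← hP, ← hP', key]
  push_cast
  rw [f2, ← anti]

/-- the charge of an arm does not depend on the partner -/
theorem indep {d : Ix n M → ℂ} {κ : Ix n M → ℝ} (G : Gf d κ) (hM : 8 ≤ M) {x y y1 y2 : Fin n}
    (hxy : x < y) (h1 : x < y1) (h2 : x < y2) (hy1 : y1 ≠ y) (hy2 : y2 ≠ y) {T p : ℂ}
    {θ θ1 ρ : ℝ} (hT : ‖T‖ = 1) (hθ : θ ≤ 1 / 100) (hθ1 : 4 * θ1 ≤ 1 / 10) (hρ : 0 < ρ)
    (A : ArmP (PP d κ (sc M y1 x y)) (3 * M / 4) (Vp d κ (sc M y1 x y) 0)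
      (Vp d κ (sc M y1 x y) 1) T θ ∧ ‖Vp d κ (sc M y1 x y) 0 - p‖ ≤ θ1 * ρ / 2 ∧
      ρ / 2 ≤ ‖Vp d κ (sc M y1 x y) 1 - Vp d κ (sc M y1 x y) 0‖)
    (A' : ArmP (PP d κ (sc M y2 x y)) (3 * M / 4) (Vp d κ (sc M y2 x y) 0)
      (Vp d κ (sc M y2 x y) 1) T θ ∧ ‖Vp d κ (sc M y2 x y) 0 - p‖ ≤ θ1 * ρ / 2 ∧
      ρ / 2 ≤ ‖Vp d κ (sc M y2 x y) 1 - Vp d κ (sc M y2 x y) 0‖) :
    Bx d κ x y y1 = Bx d κ x y y2 := by
  have hM8 : (8:ℝ) ≤ M := by exact_mod_cast hM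
  have : NeZero M := ⟨by omega⟩
  obtain ⟨A, a1, a2⟩ := A
  obtain ⟨A', a1', a2'⟩ := A'
  have ez : Vp d κ (sc M y1 x y) 1 = Vp d κ (sc M y2 x y) 1 := by
    rw [Vp_pos hxy le_rfl, Vp_pos hxy le_rfl]
  obtain ⟨Z, hZ⟩ : ∃ Z, Z = Vp d κ (sc M y2 x y) 1 := ⟨_, rfl⟩
  obtain ⟨V, hV⟩ : ∃ V, V = Vp d κ (sc M y1 x y) 0 := ⟨_, rfl⟩
  obtain ⟨V', hV'⟩ : ∃ V', V' = Vp d κ (sc M y2 x y) 0 := ⟨_, rfl⟩
  rw [ez] at A a2
  rw [← hZ, ← hV] at A a2
  rw [← hV] at a1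
  rw [← hZ, ← hV'] at A' a2'
  rw [← hV'] at a1'
  obtain ⟨e, he⟩ : ∃ e, e = d (x, y, 0) := ⟨_, rfl⟩
  have e0 : e ≠ 0 := by rw [he]; exact G.hd _
  have g1 : ∀ i j, i ≠ j → An.cr (d i) (d j) ≠ 0 := fun i j h => by
    have := (G.h1 i j h).1
    rwa [one_mul] at this
  have c1 : An.cr e V = κ (x, y, 0) := by
    rw [he, hV, Vp_zero hxy h1]
    exact (cr_Xl (g1 _ _ (by simp [hy1])) _ _).2
  have c2 : An.cr e V' = κ (x, y, 0) := by
    rw [he, hV', Vp_zero hxy h2]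
    exact (cr_Xl (g1 _ _ (by simp [hy2])) _ _).2
  have c3 : An.cr e Z = κ (x, y, 0) := by
    rw [he, hZ, Vp_pos hxy le_rfl]
    have e0 : (((1 : ℤ) - 1 : ℤ) : ZMod M) = 0 := by push_cast; ring
    rw [e0]
    refine (cr_Xl (g1 _ _ ?_) _ _).1
    intro h
    simp only [Prod.mk.injEq, true_and] at h
    have := congrArg ZMod.val h
    have h4 := val_lo (M := M) (j := 1) (by omega) (by omega)
    rw [ZMod.val_zero] at this
    omega
  have par : ∀ U : ℂ, An.cr e U = κ (x, y, 0) → ∃ α : ℝ, Z - U = α * e := by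
    intro U hU
    have h3 : An.cr e (Z - U) = 0 := by rw [cr_sub, c3, hU, sub_self]
    obtain ⟨q, hq⟩ : ∃ q, q = Z - U := ⟨_, rfl⟩
    rw [← hq] at h3 ⊢
    have hn : e.re * e.re + e.im * e.im ≠ 0 := by
      intro h
      apply e0
      apply Complex.ext
      · simp only [zero_re]; nlinarith [mul_self_nonneg e.re, mul_self_nonneg e.im]
      · simp only [zero_im]; nlinarith [mul_self_nonneg e.re, mul_self_nonneg e.im]
    refine ⟨(e.re * q.re + e.im * q.im) / (e.re * e.re + e.im * e.im), ?_⟩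
    unfold An.cr at h3
    apply Complex.ext
    · simp only [mul_re, ofReal_re, ofReal_im, zero_mul, sub_zero]
      rw [div_mul_eq_mul_div, eq_div_iff hn]
      linear_combination (-e.im) * h3
    · simp only [mul_im, ofReal_re, ofReal_im, zero_mul, add_zero]
      rw [div_mul_eq_mul_div, eq_div_iff hn]
      linear_combination e.re * h3
  obtain ⟨α, hα⟩ := par V c1
  obtain ⟨α', hα'⟩ := par V' c2
  have α0 : α' ≠ 0 := by
    rintro rfl
    rw [hα', ofReal_zero, zero_mul, norm_zero] at a2'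
    linarith
  obtain ⟨c, hc⟩ : ∃ c : ℝ, c = α / α' := ⟨_, rfl⟩
  have hcol : Z - V = c * (Z - V') := by
    have h0 : (α' : ℂ) ≠ 0 := by exact_mod_cast α0
    rw [hα, hα', hc]
    push_cast
    field_simp
  have hcd : |c - 1| ≤ 1 / 10 := by
    have h3 : ((c - 1 : ℝ) : ℂ) * (Z - V') = (V' - p) - (V - p) := by
      push_cast
      linear_combination -hcol
    have h4 := congrArg norm h3
    rw [norm_mul, norm_real, Real.norm_eq_abs] at h4
    have h5 := norm_sub_le (V' - p) (V - p)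
    have h6 : |c - 1| * (ρ / 2) ≤ |c - 1| * ‖Z - V'‖ :=
      mul_le_mul_of_nonneg_left a2' (abs_nonneg _)
    have h7 : |c - 1| * (ρ / 2) ≤ θ1 * ρ := by linarith
    have h8 : |c - 1| ≤ 2 * θ1 := by
      by_contra hcon
      push Not at hcon
      nlinarith
    linarith
  rw [abs_le] at hcd
  have hr := rep (S := 3 * M / 4) (P := PP d κ (sc M y1 x y)) (P' := PP d κ (sc M y2 x y))
    (by linarith) A.seg A'.seg (fun s hs => ?_) (by linarith [hcd.1]) (by linarith [hcd.2]) hcol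
    (arm (fun hu hθ h k => cone_single hu hθ h k) (sub_ne_zero.2 A.ne) A.seg A.far hT hθ A.cone)
    (arm (fun hu hθ h k => cone_single hu hθ h k) (sub_ne_zero.2 A'.ne) A'.seg A'.far hT hθ
      A'.cone)
  · unfold Bx
    rw [hr]
  · have f1 : 1 ≤ ⌊s⌋ := Int.le_floor.2 (by exact_mod_cast hs.1)
    unfold PP
    rw [Vp_pos hxy f1, Vp_pos hxy (by omega), Vp_pos hxy f1, Vp_pos hxy (by omega)]

end Pool.Agent.H687.TC
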