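import Pool.Agent.H687.TC.Sub
import Pool.Agent.H687.TC.Curve

/-! Charges of the arms at a vertex; closeness; indices of the arms. -/

set_option autoImplicit false
open Complex Set Topology Metric

namespace Pool.Agent.H687.TC

open Pool.Agent.H763R2 Pool.Agent.H763R2.An Pool.Agent.Y535.PEG Pool.Agent.H687.K4
open Pool.Agent.H687.KC (wk)

theorem vertex {n M m : ℕ} {ψ : (Fin n → ℝ) → ℂ} {d : Ix n M → ℂ} {κ : Ix n M → ℝ}
    (hM : 8 ≤ M) {rot : ℂ} {D : Fin n → Fin n → ℂ} {τ : Fin n → Fin n → ℝ}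
    {C θ θ1 ε1 ε'' : ℝ} {ρ : Fin m → ℝ} {T : Fin m → ℂ} {x : Fin n} {y : Fin m → Fin n}
    (hrot : ‖rot‖ = 1) (hx : x.val ≤ 1)
    (hxy : ∀ i, x < y i) (hyi : Function.Injective y)
    (hC : (1 + 2 * (n:ℝ) * n) * (1 + 2 * n * n) ≤ C)
    (hT : ∀ i, ‖T i‖ = 1) (hD : ∀ i, ‖D x (y i) - T i‖ ≤ θ1) (hθ1 : 0 ≤ θ1) (G : Gf d κ)
    (hcl : ∀ i j : Ix n M, An.cr (dd rot D i) (dd rot D j) ≠ 0 →
      ‖Xl (d i) (d j) (κ i) (κ j) - Xl (dd rot D i) (dd rot D j)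
        (An.cr (dd rot D i) (pb ψ τ i)) (An.cr (dd rot D j) (pb ψ τ j))‖ < ε'')
    (hDD : ∀ i j, i ≠ j → An.cr (D x (y j)) (D x (y i)) ≠ 0)
    (hDr : ∀ i, An.cr (D x (y i)) (rot * d0 ((x, y i, ((1 : ℤ) : ZMod M)) : Ix n M)) ≠ 0 ∧
      ‖D x (y i)‖ * ‖rot * d0 ((x, y i, ((1 : ℤ) : ZMod M)) : Ix n M)‖ ≤
        C * |An.cr (D x (y i)) (rot * d0 ((x, y i, ((1 : ℤ) : ZMod M)) : Ix n M))|)
    (E : ∀ i, NiceE ψ x (y i) (T i) (ρ i) (τ x (y i)) θ1)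
    (hMτ : ∀ i, 1 / ((M:ℝ) - 1) ≤ τ x (y i))
    (hε1 : ∀ i, ∀ s ∈ Icc (0:ℝ) 1, ∀ t ∈ Icc (0:ℝ) 1, |s - t| ≤ 1 / ((M:ℝ) - 1) →
      ‖ψ (ep x (y i) s) - ψ (ep x (y i) t)‖ ≤ ε1)
    (h1 : ∀ i, (C + 1) * ε1 ≤ θ1 * ρ i / 2) (h2 : ∀ i, ε'' ≤ θ1 * ρ i / 2)
    (hθ : (8 * C + 18) * θ1 ≤ θ) (hθ2 : θ ≤ 1 / 100) :
    (∀ i j, i ≠ j → ArmP (PP d κ (sc M (y j) x (y i))) (3 * M / 4)
      (Vp d κ (sc M (y j) x (y i)) 0) (Vp d κ (sc M (y j) x (y i)) 1) (T i) θ) ∧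
    ∃ f : Fin m → ZMod 2, ∀ i j, i ≠ j → Bx d κ x (y i) (y j) = f i := by
  classical
  have key := fun i j (hij : i ≠ j) => armP (ψ := ψ) (d := d) (κ := κ) hM (D := D) (τ := τ)
    (y := y i) (y' := y j) hrot hx (hxy i)
    (hxy j) hC (hT i) (hD i) hθ1 hcl (hDD i j hij) (hDr i) (E i) (hMτ i) (hε1 i) (h1 i) (h2 i) hθ hθ2
  refine ⟨fun i j hij => (key i j hij).1, fun i => if h : ∃ j, i ≠ j then
    Bx d κ x (y i) (y h.choose) else 0, fun i j hij => ?_⟩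
  have hex : ∃ j, i ≠ j := ⟨j, hij⟩
  simp only [dif_pos hex]
  have hC0 : 0 ≤ C := le_trans (by positivity) hC
  have c0 : 0 ≤ C * θ1 := by positivity
  have hsm : (8 * C + 18) * θ1 ≤ 1 / 100 := hθ.trans hθ2
  exact indep G hM (hxy i) (hxy j) (hxy _) (hyi.ne hij.symm) (hyi.ne hex.choose_spec.symm) (hT i)
    hθ2 (θ1 := θ1) (ρ := ρ i) (by linarith) (E i).hρ (key i j hij) (key i _ hex.choose_spec)

/-- distance of the base points to the curve -/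
theorem pb_near {n L M : ℕ} {v : ℤ → Fin n} {ψ : (Fin n → ℝ) → ℂ} (W : Walk L v) (hM : 2 ≤ M)
    {τ : Fin n → Fin n → ℝ} {ρ0 ε' : ℝ} (hρ0 : 0 ≤ ρ0)
    (hτ : ∀ x y, ∀ t ∈ Icc 0 (τ x y), ‖ψ (ep x y t) - ψ (Pi.single x 1)‖ ≤ ρ0)
    (hf : ∀ s t : ℝ, |s - t| ≤ 3 / ((L * M : ℕ) : ℝ) → ‖cv ψ L v s - cv ψ L v t‖ < ε')
    (N : ℤ) (t : ℝ) (ht : |t - N / ((L * M : ℕ) : ℝ)| ≤ 2 / ((L * M : ℕ) : ℝ)) :
    ‖pb ψ τ (sv M v N) - cv ψ L v t‖ ≤ 2 * ρ0 + ε' := by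
  have h3 := W.L3
  have h4 : 0 < L * M := by positivity
  have hm0 : (0:ℝ) < ((L * M : ℕ) : ℝ) := by exact_mod_cast h4
  have h2 : (2:ℝ) ≤ M := by exact_mod_cast hM
  have hM1 : (0:ℝ) < (M:ℝ) - 1 := by linarith
  have key : ∀ z : Ix n M, ‖pb ψ τ z - p0 ψ z‖ ≤ 2 * ρ0 := by
    intro z
    have hz : (0:ℝ) ≤ (z.2.2.val : ℝ) / ((M:ℝ) - 1) := by positivity
    unfold pb p0
    split_ifs with h
    · rw [h.2]
      have : ep z.1 z.2.1 (((0:ℕ):ℝ) / ((M:ℝ) - 1)) = Pi.single z.1 1 := by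
        unfold ep; simp
      rw [this, sub_self, norm_zero]
      positivity
    · rcases le_total (τ z.1 z.2.1) ((z.2.2.val : ℝ) / ((M:ℝ) - 1)) with h' | h'
      · rw [max_eq_left h', sub_self, norm_zero]
        positivity
      · rw [max_eq_right h']
        have a1 := hτ z.1 z.2.1 _ ⟨hz.trans h', le_rfl⟩
        have a2 := hτ z.1 z.2.1 _ ⟨hz, h'⟩
        have a3 := norm_sub_le (ψ (ep z.1 z.2.1 (τ z.1 z.2.1)) - ψ (Pi.single z.1 1))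
          (ψ (ep z.1 z.2.1 ((z.2.2.val : ℝ) / ((M:ℝ) - 1))) - ψ (Pi.single z.1 1))
        rw [sub_sub_sub_cancel_right] at a3
        linarith
  have k1 := key (sv M v N)
  have e1 := W.p0_sv (ψ := ψ) hM N
  have b1 := tau_bd (L := L) (by omega) hM N
  rw [abs_le] at ht
  set mm := ((L * M : ℕ) : ℝ)
  have q3 : ((N:ℝ) + 1) / mm = (N:ℝ) / mm + 1 / mm := by rw [add_div]
  have q4 : (2:ℝ) / mm = 1 / mm + 1 / mm := by ring
  have q5 : (3:ℝ) / mm = 1 / mm + 1 / mm + 1 / mm := by ring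
  have q6 : 0 < 1 / mm := by positivity
  rw [q3] at b1
  have f1 := hf (tau L M N) t (by
    rw [q5, abs_le]; constructor <;> linarith [b1.1, b1.2, ht.1, ht.2])
  rw [← e1] at f1
  have := norm_sub_le_norm_sub_add_norm_sub (pb ψ τ (sv M v N)) (p0 ψ (sv M v N)) (cv ψ L v t)
  linarith

variable {m : ℕ}

open Classical in
/-- the arm of a pair of vertices -/
noncomputable def code (x y : Fin (2 * m + 2)) : Option (Fin m ⊕ Fin m) :=
  if h : ∃ i, x = vA m ∧ y = vh i then some (Sum.inl h.choose)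
  else if h : ∃ i, x = vB m ∧ y = vg i then some (Sum.inr h.choose) else none

theorem vh_inj : Function.Injective (vh : Fin m → Fin (2 * m + 2)) := fun i j h => by
  unfold vh at h
  simp only [Fin.mk.injEq] at h
  exact Fin.ext (by omega)

theorem vg_inj : Function.Injective (vg : Fin m → Fin (2 * m + 2)) := fun i j h => by
  unfold vg at h
  simp only [Fin.mk.injEq] at h
  exact Fin.ext (by omega)

theorem code_A (i : Fin m) : code (vA m) (vh i) = some (Sum.inl i) := by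
  have h : ∃ j, vA m = vA m ∧ vh i = vh j := ⟨i, rfl, rfl⟩
  unfold code
  rw [dif_pos h]
  have := vh_inj h.choose_spec.2
  rw [← this]

theorem code_B (i : Fin m) : code (vB m) (vg i) = some (Sum.inr i) := by
  have h : ∃ j, vB m = vB m ∧ vg i = vg j := ⟨i, rfl, rfl⟩
  have h' : ¬ ∃ j, vB m = vA m ∧ vg i = vh j := by
    rintro ⟨j, h1, -⟩
    unfold vA vB at h1
    simp at h1
  unfold code
  rw [dif_neg h', dif_pos h]
  have := vg_inj h.choose_spec.2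
  rw [← this]

theorem code_cases (x y : Fin (2 * m + 2)) : code x y = none ∨
    (∃ i, x = vA m ∧ y = vh i) ∨ ∃ i, x = vB m ∧ y = vg i := by
  unfold code
  split_ifs with h1 h2
  · exact Or.inr (Or.inl h1)
  · exact Or.inr (Or.inr h2)
  · exact Or.inl rfl

end Pool.Agent.H687.TC
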